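import Pool.Agent.Helper317.CADS.Prin

/-!
Completeness of the density metric, the principle DOM and arithmetical induction, in a two-sorted
structure of second-order arithmetic.
-/

namespace Pool.Agent.H965Z.Dens

open Pool.Agent.Helper317.SOA

/-- `x ≤ y`. -/
def Leq (M : Model) (x y : M.Num) : Prop := M.lt x y ∨ x = y

/-- The successor `x + 1`. -/
def sc (M : Model) (x : M.Num) : M.Num := M.add x M.one

/-- The Goedel beta function: `v` is the remainder of `a` modulo `(i+1) b + 1`. -/
def Beta (M : Model) (a b i v : M.Num) : Prop :=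
  M.lt v (sc M (M.mul (sc M i) b)) ∧ ∃ q, a = M.add (M.mul q (sc M (M.mul (sc M i) b))) v

/-- `c` is the number of elements of `S` below `j`: a coded sequence starts with `0`, increases
by one at each `x < j` in `S`, stays constant at each other `x < j`, and has the term `c` at `j`. -/
def Count (M : Model) (S : Set M.Num) (j c : M.Num) : Prop :=
  ∃ a b, Beta M a b M.zero M.zero ∧ Beta M a b j c ∧
    ∀ x v, M.lt x j → Beta M a b x v →
      (x ∈ S → Beta M a b (sc M x) (sc M v)) ∧ (x ∉ S → Beta M a b (sc M x) v)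

/-- `p = 2 ^ k`: a coded sequence starts with `1`, doubles at each `x < k`, and has the term `p`
at `k`. -/
def Pow2 (M : Model) (k p : M.Num) : Prop :=
  ∃ a b, Beta M a b M.zero M.one ∧ Beta M a b k p ∧
    ∀ x v, M.lt x k → Beta M a b x v → Beta M a b (sc M x) (M.add v v)

/-- The density of `S` below `j` is at most `2 ^ (-k)`: the number of elements of `S` below `j`,
times `2 ^ k`, is at most `j`. -/
def DensLe (M : Model) (S : Set M.Num) (j k : M.Num) : Prop :=
  ∃ c p, Count M S j c ∧ Pow2 M k p ∧ Leq M (M.mul c p) j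

/-- The `n`-th set of the sequence of sets coded by `Y`. -/
def col (M : Model) (Y : Set M.Num) (n : M.Num) : Set M.Num := {x | M.pair n x ∈ Y}

/-- The sequence coded by `Y` is Cauchy for the upper density of the symmetric difference. -/
def IsCauchy (M : Model) (Y : Set M.Num) : Prop :=
  ∀ k, ∃ m, ∀ n, M.lt m n → ∃ i, ∀ j, M.lt i j → DensLe M (symmDiff (col M Y m) (col M Y n)) j k

/-- `A` is a limit of the sequence coded by `Y`. -/
def IsLimit (M : Model) (Y A : Set M.Num) : Prop :=
  ∀ k, ∃ m, ∀ n, M.lt m n → ∃ i, ∀ j, M.lt i j → DensLe M (symmDiff (col M Y n) A) j k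

/-- Completeness: every Cauchy sequence of sets has a limit. -/
def Complete (M : Model) : Prop :=
  ∀ Y ∈ M.sets, IsCauchy M Y → ∃ A ∈ M.sets, IsLimit M Y A

/-- `φ` holds of `x, y` (number variables `0, 1`), with number parameters `v` and every set
variable interpreted by `X`. -/
def Rel (M : Model) (φ : Fm) (v : ℕ → M.Num) (X : Set M.Num) (x y : M.Num) : Prop :=
  Sat M (Function.update (Function.update v 0 x) 1 y) (fun _ => X) φ

/-- DOM: for every `X` there is a function `f` (a set of pairs) which dominates every total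
function whose graph is `Σ⁰₁` in `X` and number parameters. -/
def DOM (M : Model) : Prop :=
  ∀ X ∈ M.sets, ∃ f ∈ M.sets, (∀ x, ∃! z, M.pair x z ∈ f) ∧
    ∀ φ, IsSigma 1 φ → ∀ v : ℕ → M.Num, (∀ x, ∃! y, Rel M φ v X x y) →
      ∃ n, ∀ x y z, M.lt n x → Rel M φ v X x y → M.pair x z ∈ f → Leq M y z

/-- Arithmetical formulas: no set quantifiers. -/
inductive IsArith : Fm → Prop
  | eq (s t : Tm) : IsArith (.eq s t)
  | lt (s t : Tm) : IsArith (.lt s t)
  | mem (t : Tm) (i : ℕ) : IsArith (.mem t i)
  | neg {φ : Fm} : IsArith φ → IsArith (.neg φ)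
  | and {φ ψ : Fm} : IsArith φ → IsArith ψ → IsArith (.and φ ψ)
  | all (i : ℕ) {φ : Fm} : IsArith φ → IsArith (.all i φ)

/-- Induction for all arithmetical formulas, with number and set parameters. -/
def ArithInd (M : Model) : Prop :=
  ∀ φ, IsArith φ → ∀ (i : ℕ) (v : ℕ → M.Num) (V : ℕ → Set M.Num), M.SetAsg V →
    Sat M (Function.update v i M.zero) V φ →
    (∀ a, Sat M (Function.update v i a) V φ →
      Sat M (Function.update v i (M.add a M.one)) V φ) →
    ∀ a, Sat M (Function.update v i a) V φ

end Pool.Agent.H965Z.Dens
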