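import Pool.Agent.H965Z.Dens.Chain
import Pool.Agent.H965Z.Dens.Defs

/-!
Counting and powers of two in the structure.
-/

namespace Pool.Agent.H965Z.Dens

open Function Filter Pool.Agent.Helper317.CADS Pool.Agent.Helper317.SOA

variable {FF : Set (ℕ → ℕ)} {I M X : Set H}

/-- the beta function -/
def bet (a b i : ℕ) : ℕ := a % ((i + 1) * b + 1)

/-- a code of the sequence `g 0, ..., g j` -/
noncomputable def seqb (g : ℕ → ℕ) (j : ℕ) : ℕ :=
  Classical.epsilon fun w : ℕ => ∀ x ≤ j, bet w.unpair.1 w.unpair.2 x = g x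

theorem seqb_spec (g : ℕ → ℕ) (j : ℕ) :
    ∀ x ≤ j, bet (seqb g j).unpair.1 (seqb g j).unpair.2 x = g x := by
  refine Classical.epsilon_spec (p := fun w : ℕ => ∀ x ≤ j, bet w.unpair.1 w.unpair.2 x = g x)
    ⟨Nat.unbeta ((List.range (j + 1)).map g), fun x hx => ?_⟩
  have h := Nat.beta_unbeta_coe ((List.range (j + 1)).map g) ⟨x, by simp; omega⟩
  simpa [Nat.beta, bet] using h

/-- closure conditions for arithmetic -/
structure OpsA (FF : Set (ℕ → ℕ)) : Prop where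
  div : (fun w : ℕ => w.unpair.1 / w.unpair.2) ∈ FF
  bet : (fun w : ℕ => bet w.unpair.1 w.unpair.2.unpair.1 w.unpair.2.unpair.2) ∈ FF
  pow : (fun w : ℕ => 2 ^ w) ∈ FF
  dif : (fun w : ℕ => dif w.unpair.2.unpair.1 w.unpair.2.unpair.2 0 w.unpair.1) ∈ FF
  cntb : (fun w : ℕ => seqb (fun x => Dens.dif w.unpair.2.unpair.1 w.unpair.2.unpair.2 0 x)
    w.unpair.1) ∈ FF
  powb : (fun w : ℕ => seqb (fun x => 2 ^ x) w) ∈ FF
  chkC : chi (fun v : ℕ => v.unpair.2 < v.unpair.1.unpair.1 ∧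
    Dens.bet v.unpair.1.unpair.2.unpair.1.unpair.1 v.unpair.1.unpair.2.unpair.1.unpair.2
      (v.unpair.2 + 1) ≠
    Dens.bet v.unpair.1.unpair.2.unpair.1.unpair.1 v.unpair.1.unpair.2.unpair.1.unpair.2
      v.unpair.2 + if v.unpair.1.unpair.2.unpair.2.unpair.1.testBit v.unpair.2 ≠
        v.unpair.1.unpair.2.unpair.2.unpair.2.testBit v.unpair.2 then 1 else 0) ∈ FF
  chkP : chi (fun v : ℕ => v.unpair.2 < v.unpair.1.unpair.1 ∧
    Dens.bet v.unpair.1.unpair.2.unpair.1 v.unpair.1.unpair.2.unpair.2 (v.unpair.2 + 1) ≠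
    2 * Dens.bet v.unpair.1.unpair.2.unpair.1 v.unpair.1.unpair.2.unpair.2 v.unpair.2) ∈ FF
  chkD : chi (fun v : ℕ => v.unpair.1.unpair.1 < v.unpair.2.unpair.2.unpair.2 ∧
    v.unpair.2.unpair.2.unpair.2 < Dens.dif v.unpair.2.unpair.2.unpair.1 v.unpair.2.unpair.1 0
      v.unpair.2.unpair.2.unpair.2 * v.unpair.1.unpair.2) ∈ FF

/-- the element of the structure given by a sequence -/
noncomputable def nm (hF : Fam FF) (hM : Mdl FF M) (S : Set (Set H)) (f : ℕ → ℕ)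
    (hf : (f : H) ∈ M) : (FM hF hM S).Num := ⟨f, hf⟩

theorem addM' (hF : Fam FF) (hM : Mdl FF M) {f g : ℕ → ℕ} (hf : (f : H) ∈ M) (hg : (g : H) ∈ M) :
    ((fun n => f n + g n : ℕ → ℕ) : H) ∈ M :=
  memH_congr (apM hM hF.add (pairM hM hf hg)) (ev_of_forall fun n => by simp)

theorem mulM' (hF : Fam FF) (hM : Mdl FF M) {f g : ℕ → ℕ} (hf : (f : H) ∈ M) (hg : (g : H) ∈ M) :
    ((fun n => f n * g n : ℕ → ℕ) : H) ∈ M :=
  memH_congr (apM hM hF.mul (pairM hM hf hg)) (ev_of_forall fun n => by simp)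

theorem betM (hM : Mdl FF M) (hA : OpsA FF) {a b i : ℕ → ℕ} (ha : (a : H) ∈ M) (hb : (b : H) ∈ M)
    (hi : (i : H) ∈ M) : ((fun n => bet (a n) (b n) (i n) : ℕ → ℕ) : H) ∈ M :=
  memH_congr (apM hM hA.bet (pairM hM ha (pairM hM hb hi))) (ev_of_forall fun n => by simp)

section
variable {hF : Fam FF} {hM : Mdl FF M} {S : Set (Set H)}

theorem num_rep (x : (FM hF hM S).Num) :
    ∃ (f : ℕ → ℕ) (hf : (f : H) ∈ M), x = nm hF hM S f hf := by
  obtain ⟨x, hx⟩ := x
  obtain ⟨f, rfl⟩ := x.rep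
  exact ⟨f, hx, rfl⟩

theorem nm_val {f : ℕ → ℕ} {hf : (f : H) ∈ M} : (nm hF hM S f hf).1 = (f : H) := rfl

theorem fm_lt {f g : ℕ → ℕ} {hf : (f : H) ∈ M} {hg : (g : H) ∈ M} :
    (FM hF hM S).lt (nm hF hM S f hf) (nm hF hM S g hg) ↔ Ev fun n => f n < g n := lt_coe

theorem fm_eq {f g : ℕ → ℕ} {hf : (f : H) ∈ M} {hg : (g : H) ∈ M} :
    nm hF hM S f hf = nm hF hM S g hg ↔ Ev fun n => f n = g n := by
  rw [← eq_coe]
  exact ⟨fun h => congrArg Subtype.val h, fun h => Subtype.ext h⟩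

theorem fm_leq {f g : ℕ → ℕ} {hf : (f : H) ∈ M} {hg : (g : H) ∈ M} :
    Leq (FM hF hM S) (nm hF hM S f hf) (nm hF hM S g hg) ↔ Ev fun n => f n ≤ g n := by
  unfold Leq
  rw [fm_lt, fm_eq, ← ev_or]
  simp only [le_iff_lt_or_eq]

theorem fm_add {f g : ℕ → ℕ} {hf : (f : H) ∈ M} {hg : (g : H) ∈ M} :
    (FM hF hM S).add (nm hF hM S f hf) (nm hF hM S g hg) =
      nm hF hM S (fun n => f n + g n) (addM' hF hM hf hg) :=
  Subtype.ext ap2_coe

theorem fm_mul {f g : ℕ → ℕ} {hf : (f : H) ∈ M} {hg : (g : H) ∈ M} :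
    (FM hF hM S).mul (nm hF hM S f hf) (nm hF hM S g hg) =
      nm hF hM S (fun n => f n * g n) (mulM' hF hM hf hg) :=
  Subtype.ext ap2_coe

theorem fm_zero : (FM hF hM S).zero = nm hF hM S (fun _ => 0) (constM hM 0) := rfl

theorem fm_one : (FM hF hM S).one = nm hF hM S (fun _ => 1) (constM hM 1) := rfl

theorem fm_sc {f : ℕ → ℕ} {hf : (f : H) ∈ M} :
    sc (FM hF hM S) (nm hF hM S f hf) =
      nm hF hM S (fun n => f n + 1) (addM' hF hM hf (constM hM 1)) := by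
  unfold sc
  rw [fm_one, fm_add]

theorem fm_pair (hB : OpsB FF) {f g : ℕ → ℕ} {hf : (f : H) ∈ M} {hg : (g : H) ∈ M} :
    (FM hF hM S).pair (nm hF hM S f hf) (nm hF hM S g hg) =
      nm hF hM S (fun n => pr (f n) (g n)) (prM hB hM hf hg) := by
  unfold Model.pair
  rw [fm_add, fm_mul, fm_add]
  rfl

theorem beta_iff (hA : OpsA FF) {a b i v : ℕ → ℕ} {ha : (a : H) ∈ M} {hb : (b : H) ∈ M}
    {hi : (i : H) ∈ M} {hv : (v : H) ∈ M} :
    Beta (FM hF hM S) (nm hF hM S a ha) (nm hF hM S b hb) (nm hF hM S i hi) (nm hF hM S v hv) ↔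
      Ev fun n => bet (a n) (b n) (i n) = v n := by
  unfold Beta
  rw [fm_sc, fm_mul, fm_sc, fm_lt]
  constructor
  · rintro ⟨h1, q, h2⟩
    obtain ⟨q, hq, rfl⟩ := num_rep q
    rw [fm_mul, fm_add, fm_eq] at h2
    refine (h1.and h2).mp fun n ⟨h3, h4⟩ => ?_
    unfold bet
    rw [h4, Nat.mul_add_mod_of_lt h3]
  · intro h
    have h1 := apM hM hA.div (pairM hM ha (addM' hF hM (mulM' hF hM (addM' hF hM hi (constM hM 1)) hb)
      (constM hM 1)))
    refine ⟨h.mp fun n hn => ?_, nm hF hM S _ h1, ?_⟩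
    · rw [← hn]; exact Nat.mod_lt _ (by omega)
    · rw [fm_mul, fm_add, fm_eq]
      refine h.mp fun n hn => ?_
      simp only [Nat.unpair_pair]
      rw [← hn]
      exact (Nat.div_add_mod' _ _).symm

end

theorem count_iff (hF : Ops FF) (hA : OpsA FF) (hG : Good FF I M X) (hM : Mdl FF M)
    (S : Set (Set H)) {A : Set (FM hF.toFam hM S).Num} {α β j c : ℕ → ℕ} {hj : (j : H) ∈ M}
    {hc : (c : H) ∈ M}
    (hS : ∀ (f : ℕ → ℕ) (hf : (f : H) ∈ M), nm hF.toFam hM S f hf ∈ A ↔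
      Ev fun n => (α n).testBit (f n) ≠ (β n).testBit (f n))
    (hα : ((fun n => α n % 2 ^ j n : ℕ → ℕ) : H) ∈ M)
    (hβ : ((fun n => β n % 2 ^ j n : ℕ → ℕ) : H) ∈ M) :
    Count (FM hF.toFam hM S) A (nm _ _ _ j hj) (nm _ _ _ c hc) ↔ Ev fun n => c n = dif (α n) (β n) 0 (j n) := by
  constructor
  · rintro ⟨a, b, h1, h2, h3⟩
    obtain ⟨a, ha, rfl⟩ := num_rep a
    obtain ⟨b, hb, rfl⟩ := num_rep b
    rw [fm_zero, beta_iff hA] at h1
    rw [beta_iff hA] at h2
    have h4 : Ev fun n => ∀ x, x < j n → bet (a n) (b n) (x + 1) = bet (a n) (b n) x +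
        if (α n).testBit x ≠ (β n).testBit x then 1 else 0 := by
      rw [ev_all (P := fun n x => x < j n → bet (a n) (b n) (x + 1) = bet (a n) (b n) x +
        if (α n).testBit x ≠ (β n).testBit x then 1 else 0)]
      intro f
      by_contra h5
      rw [← ev_not] at h5
      have h6 : Sig FF I M X (IP fun n x => ¬ (x < j n → bet (a n) (b n) (x + 1) =
          bet (a n) (b n) x + if (α n).testBit x ≠ (β n).testBit x then 1 else 0)) := by
        refine sigI_congr (sigI_chi hF hG hA.chkC (pairM hM hj (pairM hM (pairM hM ha hb)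
          (pairM hM hα hβ)))) (ev_of_forall fun n x => ?_)
        simp only [Nat.unpair_pair, Classical.not_imp]
        refine and_congr_right fun hx => ?_
        rw [agr_mod _ _ x hx, agr_mod _ _ x hx]
      obtain ⟨g, hg, h7⟩ := witnessI hF hG h6 (downI hG (hG.sub _ hj) (h5.mp fun n hn => by
        rw [Classical.not_imp] at hn; exact hn.1.le)) h5
      have h8 := h3 (nm _ _ _ g hg) (nm _ _ _ _ (betM hM hA ha hb hg)) (fm_lt.2 (h7.mp fun n hn => by
        rw [Classical.not_imp] at hn; exact hn.1))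
        ((beta_iff hA).2 (ev_of_forall fun n => rfl))
      rw [hS, fm_sc, fm_sc, beta_iff hA, beta_iff hA, ← ev_not, ← ev_imp, ← ev_imp,
        ← ev_and] at h8
      refine ev_const.1 ((h7.and h8).mp (q := fun _ => False) fun n ⟨k1, k2, k3⟩ => k1 fun _ => ?_)
      split_ifs with k4
      · exact k2 k4
      · exact k3 k4
    refine ((h1.and h2).and h4).mp fun n ⟨⟨k1, k2⟩, k3⟩ => ?_
    have k4 : ∀ x ≤ j n, bet (a n) (b n) x = dif (α n) (β n) 0 x := by
      intro x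
      induction x with
      | zero => intro _; rw [k1, dif_eq_zero fun x h1 h2 => by omega]
      | succ x ih => intro hx; rw [k3 x hx, ih (by omega), dif_succ]
    rw [← k2, k4 _ le_rfl]
  · intro h
    have h1 := apM hM hA.cntb (pairM hM hj (pairM hM hα hβ))
    simp only [Nat.unpair_pair] at h1
    have h2 : ∀ n, ∀ x ≤ j n, bet (seqb (fun x => dif (α n % 2 ^ j n) (β n % 2 ^ j n) 0 x)
        (j n)).unpair.1 (seqb (fun x => dif (α n % 2 ^ j n) (β n % 2 ^ j n) 0 x) (j n)).unpair.2 x =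
        dif (α n) (β n) 0 x := fun n x hx => by
      rw [seqb_spec _ _ x hx]
      exact dif_congr ((agr_mod _ _).mono hx) ((agr_mod _ _).mono hx)
    refine ⟨nm _ _ _ _ (apM hM hF.fst h1), nm _ _ _ _ (apM hM hF.snd h1), ?_, ?_, fun x v hx hv => ?_⟩
    · rw [fm_zero, beta_iff hA]
      exact ev_of_forall fun n => by rw [h2 n 0 (Nat.zero_le _), dif_eq_zero fun x h1 h2 => by omega]
    · rw [beta_iff hA]
      exact h.mp fun n hn => by rw [h2 n _ le_rfl, hn]
    · obtain ⟨x, hxM, rfl⟩ := num_rep x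
      obtain ⟨v, hvM, rfl⟩ := num_rep v
      rw [fm_lt] at hx
      rw [beta_iff hA] at hv
      rw [hS, fm_sc, fm_sc, beta_iff hA, beta_iff hA, ← ev_not, ← ev_imp, ← ev_imp,
        ← ev_and]
      refine (hx.and hv).mp fun n ⟨k1, k2⟩ => ?_
      rw [h2 n _ k1.le] at k2
      rw [h2 n _ k1, dif_succ, k2]
      exact ⟨fun k3 => by rw [if_pos k3], fun k3 => by rw [if_neg k3]; rfl⟩

theorem pow_iff (hF : Ops FF) (hA : OpsA FF) (hG : Good FF I M X) (hM : Mdl FF M)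
    (S : Set (Set H)) {k p : ℕ → ℕ} {hk : (k : H) ∈ M} {hp : (p : H) ∈ M} :
    Pow2 (FM hF.toFam hM S) (nm _ _ _ k hk) (nm _ _ _ p hp) ↔ Ev fun n => p n = 2 ^ k n := by
  constructor
  · rintro ⟨a, b, h1, h2, h3⟩
    obtain ⟨a, ha, rfl⟩ := num_rep a
    obtain ⟨b, hb, rfl⟩ := num_rep b
    rw [fm_zero, fm_one, beta_iff hA] at h1
    rw [beta_iff hA] at h2
    have h4 : Ev fun n => ∀ x, x < k n → bet (a n) (b n) (x + 1) = 2 * bet (a n) (b n) x := by
      rw [ev_all (P := fun n x => x < k n → bet (a n) (b n) (x + 1) = 2 * bet (a n) (b n) x)]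
      intro f
      by_contra h5
      rw [← ev_not] at h5
      have h6 : Sig FF I M X (IP fun n x => ¬ (x < k n → bet (a n) (b n) (x + 1) =
          2 * bet (a n) (b n) x)) := by
        refine sigI_congr (sigI_chi hF hG hA.chkP (pairM hM hk (pairM hM ha hb)))
          (ev_of_forall fun n x => ?_)
        simp only [Nat.unpair_pair, Classical.not_imp]
      obtain ⟨g, hg, h7⟩ := witnessI hF hG h6 (downI hG (hG.sub _ hk) (h5.mp fun n hn => by
        rw [Classical.not_imp] at hn; exact hn.1.le)) h5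
      have h8 := h3 (nm _ _ _ g hg) (nm _ _ _ _ (betM hM hA ha hb hg)) (fm_lt.2 (h7.mp fun n hn => by
        rw [Classical.not_imp] at hn; exact hn.1))
        ((beta_iff hA).2 (ev_of_forall fun n => rfl))
      rw [fm_sc, fm_add, beta_iff hA] at h8
      refine ev_const.1 ((h7.and h8).mp (q := fun _ => False) fun n ⟨k1, k2⟩ => k1 fun _ => ?_)
      omega
    refine ((h1.and h2).and h4).mp fun n ⟨⟨k1, k2⟩, k3⟩ => ?_
    have k4 : ∀ x ≤ k n, bet (a n) (b n) x = 2 ^ x := by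
      intro x
      induction x with
      | zero => intro _; exact k1
      | succ x ih => intro hx; rw [k3 x hx, ih (by omega), pow_succ, mul_comm]
    rw [← k2, k4 _ le_rfl]
  · intro h
    have h1 := apM hM hA.powb hk
    have h2 := fun n => seqb_spec (fun x => 2 ^ x) (k n)
    refine ⟨nm _ _ _ _ (apM hM hF.fst h1), nm _ _ _ _ (apM hM hF.snd h1), ?_, ?_, fun x v hx hv => ?_⟩
    · rw [fm_zero, fm_one, beta_iff hA]
      exact ev_of_forall fun n => by rw [h2 n 0 (Nat.zero_le _), pow_zero]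
    · rw [beta_iff hA]
      exact h.mp fun n hn => by rw [h2 n _ le_rfl, hn]
    · obtain ⟨x, hxM, rfl⟩ := num_rep x
      obtain ⟨v, hvM, rfl⟩ := num_rep v
      rw [fm_lt] at hx
      rw [beta_iff hA] at hv
      rw [fm_sc, fm_add, beta_iff hA]
      refine (hx.and hv).mp fun n ⟨k1, k2⟩ => ?_
      rw [h2 n _ k1.le] at k2
      rw [h2 n _ k1, ← k2, pow_succ]
      omega

theorem dens_iff (hF : Ops FF) (hA : OpsA FF) (hG : Good FF I M X) (hM : Mdl FF M)
    (S : Set (Set H)) {A : Set (FM hF.toFam hM S).Num} {α β j k : ℕ → ℕ} {hj : (j : H) ∈ M}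
    {hk : (k : H) ∈ M}
    (hS : ∀ (f : ℕ → ℕ) (hf : (f : H) ∈ M), nm hF.toFam hM S f hf ∈ A ↔
      Ev fun n => (α n).testBit (f n) ≠ (β n).testBit (f n))
    (hα : ((fun n => α n % 2 ^ j n : ℕ → ℕ) : H) ∈ M)
    (hβ : ((fun n => β n % 2 ^ j n : ℕ → ℕ) : H) ∈ M) :
    DensLe (FM hF.toFam hM S) A (nm _ _ _ j hj) (nm _ _ _ k hk) ↔
      Ev fun n => dif (α n) (β n) 0 (j n) * 2 ^ k n ≤ j n := by
  constructor
  · rintro ⟨c, p, h1, h2, h3⟩
    obtain ⟨c, hc, rfl⟩ := num_rep c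
    obtain ⟨p, hp, rfl⟩ := num_rep p
    rw [count_iff hF hA hG hM S hS hα hβ] at h1
    rw [pow_iff hF hA hG hM S] at h2
    rw [fm_mul, fm_leq] at h3
    exact ((h1.and h2).and h3).mp fun n ⟨⟨k1, k2⟩, k3⟩ => by rw [← k1, ← k2]; exact k3
  · intro h
    have h1 : ((fun n => dif (α n) (β n) 0 (j n) : ℕ → ℕ) : H) ∈ M :=
      memH_congr (apM hM hA.dif (pairM hM hj (pairM hM hα hβ))) (ev_of_forall fun n => by
        simp only [Nat.unpair_pair]
        exact dif_congr (agr_mod _ _) (agr_mod _ _))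
    refine ⟨nm _ _ _ _ h1, nm _ _ _ _ (apM hM hA.pow hk), ?_, ?_, ?_⟩
    · rw [count_iff hF hA hG hM S hS hα hβ]
      exact ev_of_forall fun n => rfl
    · rw [pow_iff hF hA hG hM S]
      exact ev_of_forall fun n => rfl
    · rw [fm_mul, fm_leq]
      exact h

/-- density bounds transfer from `M` to `I` -/
theorem dens_transfer (hF : Ops FF) (hT : OpsT FF) (hA : OpsA FF) (hG : Good FF I M X)
    {A B : Set H} (hA' : Del FF I M X A) (hB' : Del FF I M X B) {α β i p : ℕ → ℕ}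
    (hα : Rep I A α) (hβ : Rep I B β) (hi : (i : H) ∈ M) (hp : (p : H) ∈ M)
    (h : ∀ j : ℕ → ℕ, (j : H) ∈ M → (Ev fun n => i n < j n) →
      Ev fun n => dif (α n) (β n) 0 (j n) * p n ≤ j n) :
    ∀ j : ℕ → ℕ, (j : H) ∈ I → Ev fun n => i n < j n → dif (α n) (β n) 0 (j n) * p n ≤ j n := by
  intro j hj
  by_contra hcon
  rw [← ev_not] at hcon
  have h1 := sig_bind hF hT hG hA' hα hF.snd (constM hG.mdl 0)
    (sig_bind hF hT hG hB' hβ (hF.comp _ hF.snd _ hF.snd) (constM hG.mdl 0)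
      (sigI_chi hF hG hA.chkD (pairM hG.mdl hi hp)))
  have h2 : Sig FF I M X (IP fun n j => ¬ (i n < j → dif (α n) (β n) 0 j * p n ≤ j)) := by
    refine sigI_congr h1 (ev_of_forall fun n x => ?_)
    simp only [Nat.unpair_pair, Classical.not_imp, not_le]
    rw [dif_congr (agr_mod _ _) (agr_mod _ _)]
  obtain ⟨g, hg, h3⟩ := witnessI hF hG h2 hj hcon
  have h4 := h g hg (h3.mp fun n hn => by rw [Classical.not_imp] at hn; exact hn.1)
  exact ev_const.1 ((h3.and h4).mp (q := fun _ => False) fun n hn => hn.1 fun _ => hn.2)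

end Pool.Agent.H965Z.Dens
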