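import Pool.Agent.H965Z.Dens.Force

/-!
The initial cut, and a set whose columns with standard index are bounded.
-/

namespace Pool.Agent.H965Z.Dens

open Function Filter Pool.Agent.Helper317.CADS

variable {FF : Set (ℕ → ℕ)} {I M X : Set H}

/-- the pairing function of second-order arithmetic -/
def pr (a b : ℕ) : ℕ := (a + b) * (a + b) + a

theorem pr_inj {a b c d : ℕ} (h : pr a b = pr c d) : a = c ∧ b = d := by
  unfold pr at h
  have h1 : a + b = c + d := by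
    rcases Nat.lt_trichotomy (a + b) (c + d) with h2 | h2 | h2
    · exfalso; nlinarith
    · exact h2
    · exfalso; nlinarith
  rw [h1] at h
  omega

theorem le_pr_left (a b : ℕ) : a ≤ pr a b := by unfold pr; omega

theorem le_pr_right (a b : ℕ) : b ≤ pr a b := by
  unfold pr; nlinarith [Nat.le_mul_self (a + b)]

theorem pr_mono {a b c d : ℕ} (h1 : a ≤ c) (h2 : b ≤ d) : pr a b ≤ pr c d := by
  unfold pr
  have : (a + b) * (a + b) ≤ (c + d) * (c + d) := Nat.mul_le_mul (by omega) (by omega)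
  omega

/-- the generic element -/
noncomputable def iota : H := ((fun n => n : ℕ → ℕ) : H)

/-- least stages -/
noncomputable def opSc (F : ℕ → ℕ) : ℕ → ℕ := fun w =>
  (Finset.range w).sup fun y => mu fun b => F (Nat.pair y (Nat.pair b 0)) = 1

theorem base0 (hF : Ops FF) (hsc : ∀ F ∈ FF, opSc F ∈ FF) :
    Good FF {x | ∃ b ∈ gen FF iota, x ≤ b} (gen FF iota) ∅ := by
  have hseg : ∀ b : H, Seg ∅ b (st 0) := by
    intro b x
    obtain ⟨x, rfl⟩ := x.rep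
    simp only [st_coe, mem_coe, Nat.zero_testBit, Set.mem_empty_iff_false, and_false, iff_false]
    rw [ev_const]
    simp
  refine ⟨gen_mdl hF _, fun x hx => ⟨x, hx, le_rfl⟩, fun x hx => hx, ?_, fun x hx => hx.elim,
    fun b _ => ⟨st 0, (gen_mdl hF _).st 0, hseg b⟩, ?_⟩
  · rintro x ⟨b, hb, h⟩ y hy
    exact ⟨b, hb, hy.trans h⟩
  · rintro F hFF m ⟨b, hb, hmb⟩
    refine ⟨ap (opSc F) b, ⟨_, (gen_mdl hF _).ap _ (hsc F hFF) _ hb, le_rfl⟩, fun c _ y hy hT => ?_⟩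
    rw [T_iff (hseg c)] at hT
    obtain ⟨b, rfl⟩ := b.rep
    obtain ⟨m, rfl⟩ := m.rep
    obtain ⟨c, rfl⟩ := c.rep
    obtain ⟨y, rfl⟩ := y.rep
    refine ⟨((fun n => mu fun b => F (Nat.pair (y n) (Nat.pair b 0)) = 1 : ℕ → ℕ) : H), ?_, ?_⟩
    · rw [ap_coe, le_coe]
      refine ((lt_coe.1 hy).and (le_coe.1 hmb)).mp fun n hn => ?_
      unfold opSc
      exact Finset.le_sup (f := fun y => mu fun b => F (Nat.pair y (Nat.pair b 0)) = 1)
        (Finset.mem_range.2 (hn.1.trans_le hn.2))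
    · rw [T_iff (hseg _)]
      simp only [ap_coe, pp_coe, st_coe, eq_coe] at hT ⊢
      exact hT.mp fun n hn => mu_spec (P := fun b => F (Nat.pair (y n) (Nat.pair b 0)) = 1) ⟨_, hn⟩

theorem exists_enum (hM : Mdl FF M) (hc : M.Countable) :
    ∃ u : ℕ → ℕ → ℕ, (∀ e, (u e : H) ∈ M) ∧ ∀ x ∈ M, ∃ e, x = (u e : H) := by
  obtain ⟨v, hv⟩ := hc.exists_eq_range ⟨_, hM.st 0⟩
  choose u hu using fun e => (v e).rep
  refine ⟨u, fun e => ?_, fun x hx => ?_⟩
  · rw [← hu, hv]; exact ⟨e, rfl⟩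
  · rw [hv] at hx
    obtain ⟨e, rfl⟩ := hx
    exact ⟨e, hu e⟩

theorem exists_cof (hF : Ops FF) (hG : Good FF I M X) (hc : M.Countable) : ∃ a, Cof I M a := by
  obtain ⟨u, hu, hu'⟩ := exists_enum hG.mdl hc
  let a : ℕ → ℕ → ℕ := fun t => Nat.rec (fun n => u 0 n + 1) (fun t b n => b n + u (t + 1) n + 1) t
  have h0 : a 0 = fun n => u 0 n + 1 := rfl
  have hs : ∀ t, a (t + 1) = fun n => a t n + u (t + 1) n + 1 := fun t => rfl
  refine ⟨a, fun t => ?_, fun t => ev_of_forall fun n => ?_, fun f hf => ?_⟩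
  · induction t with
    | zero => rw [h0]; exact addM hF hG.mdl (hu 0) (constM hG.mdl 1)
    | succ t ih =>
      rw [hs]; exact addM hF hG.mdl (addM hF hG.mdl ih (hu _)) (constM hG.mdl 1)
  · rw [hs]; show a t n ≤ a t n + u (t + 1) n + 1; omega
  · obtain ⟨b, hb, hfb⟩ := hG.cof _ hf
    obtain ⟨e, rfl⟩ := hu' b hb
    refine ⟨e, (le_coe.1 hfb).mp fun n hn => ?_⟩
    cases e with
    | zero => rw [h0]; show f n < u 0 n + 1; omega
    | succ e => rw [hs]; show f n < a e n + u (e + 1) n + 1; omega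

/-- admissible extensions for the first forcing -/
def A0 (r u a l0 s0 l s : ℕ) : Prop :=
  (l0 ≤ l ∧ a ≤ l ∧ agr l0 s0 s) ∧
  (∀ e < r, ∀ y, l0 ≤ pr e y → pr e y < l → s.testBit (pr e y) = false) ∧
  (pr r (Nat.pair u l0) < l ∧ s.testBit (pr r (Nat.pair u l0)) = true ∧
    ∀ y, Nat.pair u l0 < y → pr r y < l → s.testBit (pr r y) = false) ∧
  ∀ i, r < i → i ≤ a → ∃ y, a ≤ y ∧ pr i y < l ∧ s.testBit (pr i y) = true

theorem A0_ex (r u a l0 s0 : ℕ) : ∃ w : ℕ, A0 r u a l0 s0 w.unpair.1 w.unpair.2 := by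
  set L := pr (r + a) (Nat.pair u l0 + l0 + a) + 1 + l0 + a with hL
  set P : ℕ → Prop := fun x => (x < l0 ∧ s0.testBit x = true) ∨ x = pr r (Nat.pair u l0) ∨
    ∃ i, r < i ∧ i ≤ a ∧ x = pr i (l0 + a) with hP
  have hb : ∀ x < L, ((cpc P L).testBit x = true ↔ P x) := fun x hx => by
    rw [testBit_cpc]; exact ⟨fun h => h.2, fun h => ⟨hx, h⟩⟩
  have hl0 : l0 ≤ Nat.pair u l0 := Nat.right_le_pair _ _
  have h1 : pr r (Nat.pair u l0) < L := by
    have := pr_mono (Nat.le_add_right r a) (show Nat.pair u l0 ≤ Nat.pair u l0 + l0 + a by omega)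
    omega
  refine ⟨Nat.pair L (cpc P L), ?_⟩
  rw [Nat.unpair_pair]
  refine ⟨⟨by omega, by omega, fun x hx => ?_⟩, fun e he y h2 h3 => ?_, ⟨h1, ?_, fun y h2 h3 => ?_⟩,
    fun i h2 h3 => ⟨l0 + a, by omega, ?_, ?_⟩⟩
  · rw [Bool.eq_iff_iff, hb x (by omega)]
    constructor
    · exact fun h => Or.inl ⟨hx, h⟩
    · rintro (h | h | ⟨i, _, _, h⟩)
      · exact h.2
      · have := le_pr_right r (Nat.pair u l0); omega
      · have := le_pr_right i (l0 + a); omega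
  · rw [← Bool.not_eq_true, hb _ h3]
    rintro (h | h | ⟨i, h4, _, h⟩)
    · omega
    · have := (pr_inj h).1; omega
    · have := (pr_inj h).1; omega
  · exact (hb _ h1).2 (Or.inr (Or.inl rfl))
  · rw [← Bool.not_eq_true, hb _ h3]
    rintro (h | h | ⟨i, h4, _, h⟩)
    · have := le_pr_right r y; omega
    · have := (pr_inj h).2; omega
    · have := (pr_inj h).1; omega
  · have := pr_mono (show i ≤ r + a by omega) (show l0 + a ≤ Nat.pair u l0 + l0 + a by omega)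
    omega
  · refine (hb _ ?_).2 (Or.inr (Or.inr ⟨i, h2, h3, rfl⟩))
    have := pr_mono (show i ≤ r + a by omega) (show l0 + a ≤ Nat.pair u l0 + l0 + a by omega)
    omega

theorem A0_step {r u a l0 s0 l s q u' a' l' s' : ℕ} (h : A0 r u a l0 s0 l s)
    (h' : A0 q u' a' l s l' s') (hq : r < q) : A0 r u a l0 s0 l' s' := by
  obtain ⟨⟨h1, h2, h3⟩, h4, ⟨h5, h6, h7⟩, h8⟩ := h
  obtain ⟨⟨g1, -, g3⟩, g4, -, -⟩ := h'
  refine ⟨⟨h1.trans g1, h2.trans g1, h3.trans g3 h1⟩, fun e he y k1 k2 => ?_,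
    ⟨h5.trans_le g1, ?_, fun y k1 k2 => ?_⟩, fun i k1 k2 => ?_⟩
  · rcases Nat.lt_or_ge (pr e y) l with k3 | k3
    · rw [← g3 _ k3]; exact h4 e he y k1 k3
    · exact g4 e (he.trans hq) y k3 k2
  · rw [← g3 _ h5]; exact h6
  · rcases Nat.lt_or_ge (pr r y) l with k3 | k3
    · rw [← g3 _ k3]; exact h7 y k1 k3
    · exact g4 r hq y k3 k2
  · obtain ⟨y, k3, k4, k5⟩ := h8 i k1 k2
    exact ⟨y, k3, k4.trans_le g1, by rw [← g3 _ k4]; exact k5⟩

/-- `A0` with packed parameters -/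
def A0p (p w : ℕ) : Prop := A0 p.unpair.1 p.unpair.2.unpair.1 p.unpair.2.unpair.2.unpair.1
  p.unpair.2.unpair.2.unpair.2.unpair.1 p.unpair.2.unpair.2.unpair.2.unpair.2 w.unpair.1 w.unpair.2

/-- closure conditions for the base -/
structure OpsB (FF : Set (ℕ → ℕ)) : Prop where
  pr : (fun w : ℕ => pr w.unpair.1 w.unpair.2) ∈ FF
  chk : chi (fun v : ℕ => A0p v.unpair.1 v.unpair.2.unpair.1) ∈ FF
  ex : (fun p : ℕ => Classical.epsilon (A0p p)) ∈ FF

theorem prM (hB : OpsB FF) (hM : Mdl FF M) {f g : ℕ → ℕ} (hf : (f : H) ∈ M) (hg : (g : H) ∈ M) :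
    ((fun n => pr (f n) (g n) : ℕ → ℕ) : H) ∈ M :=
  memH_congr (apM hM hB.pr (pairM hM hf hg)) (ev_of_forall fun n => by simp)

theorem prI (hF : Ops FF) (hB : OpsB FF) (hG : Good FF I M X) {f g : ℕ → ℕ} (hf : (f : H) ∈ I)
    (hg : (g : H) ∈ I) : ((fun n => pr (f n) (g n) : ℕ → ℕ) : H) ∈ I :=
  memH_congr (apI hF hG hB.pr (pairI hG hf hg)) (ev_of_forall fun n => by simp)

/-- the columns of `γ`: standard columns end with a code of `u e`, the others are unbounded -/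
structure Cols (I : Set H) (u : ℕ → ℕ → ℕ) (γ : ℕ → ℕ) : Prop where
  std : ∀ e : ℕ, ∃ y : ℕ → ℕ, (y : H) ∈ I ∧ (Ev fun n => (y n).unpair.1 = u e n ∧
      (γ n).testBit (pr e (y n)) = true) ∧
    ∀ f : ℕ → ℕ, (f : H) ∈ I → Ev fun n => y n < f n → (γ n).testBit (pr e (f n)) = false
  non : ∀ i : ℕ → ℕ, (i : H) ∈ I → (∀ e : ℕ, Ev fun n => e < i n) → ∀ b : ℕ → ℕ, (b : H) ∈ I →
    ∃ y : ℕ → ℕ, (y : H) ∈ I ∧ Ev fun n => b n ≤ y n ∧ (γ n).testBit (pr (i n) (y n)) = true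

theorem force0 (hF : Ops FF) (hU : OpsU FF) (hT : OpsT FF) (hB : OpsB FF) (hc : FF.Countable)
    (hcv : ∀ F ∈ FF, opCv F ∈ FF) (hG : Good FF I M X) {a : ℕ → ℕ → ℕ} (ha : Cof I M a)
    {u : ℕ → ℕ → ℕ} (hu : ∀ e, (u e : H) ∈ M) :
    ∃ γ, Cols I u γ ∧ Good FF I M (join X (tr I γ)) := by
  have hp : ∀ (r : ℕ) (l0 s0 : ℕ → ℕ), (l0 : H) ∈ M → (s0 : H) ∈ M →
      ((fun n => Nat.pair r (Nat.pair (u r n) (Nat.pair (a r n) (Nat.pair (l0 n) (s0 n)))) :
        ℕ → ℕ) : H) ∈ M := fun r l0 s0 h1 h2 =>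
    pairM hG.mdl (constM hG.mdl r) (pairM hG.mdl (hu r) (pairM hG.mdl (ha.mem r)
      (pairM hG.mdl h1 h2)))
  have hper : ∀ l s : ℕ → ℕ → ℕ,
      (∀ r, Ev fun n => A0 r (u r n) (a r n) (l r n) (s r n) (l (r + 1) n) (s (r + 1) n)) →
      ∀ r r', r < r' → Ev fun n => A0 r (u r n) (a r n) (l r n) (s r n) (l r' n) (s r' n) := by
    intro l s h r r' hr
    induction r', hr using Nat.le_induction with
    | base => exact h r
    | succ q hq ih => exact (ih.and (h q)).mp fun n hn => A0_step hn.1 hn.2 hq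
  obtain ⟨k, l, s, γ, hl, hA, hγ, hgood⟩ := forcing hF hU hT hc hcv hG ha
    (fun r n l0 s0 _ l s => A0 r (u r n) (a r n) l0 s0 l s)
    (fun r l0 s0 h1 h2 => sigI_congr (sigI_chi hF hG hB.chk (hp r l0 s0 h1 h2))
      (ev_of_forall fun n w => by simp only [A0p, Nat.unpair_pair]))
    (fun r l0 s0 h1 h2 => by
      have h3 := hG.sub _ (apM hG.mdl hB.ex (hp r l0 s0 h1 h2))
      refine ⟨_, _, apI hF hG hF.fst h3, apI hF hG hF.snd h3, ev_of_forall fun n => ?_⟩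
      have h4 := Classical.epsilon_spec (p := A0p (Nat.pair r (Nat.pair (u r n) (Nat.pair (a r n)
        (Nat.pair (l0 n) (s0 n)))))) (by
          simp only [A0p, Nat.unpair_pair]
          exact A0_ex _ _ _ _ _)
      generalize Classical.epsilon (A0p (Nat.pair r (Nat.pair (u r n) (Nat.pair (a r n)
        (Nat.pair (l0 n) (s0 n)))))) = w at h4 ⊢
      simpa only [A0p, Nat.unpair_pair] using h4)
    (fun r => ev_of_forall fun n l0 s0 k l s h => h.1)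
    (fun k l s _ h => hper l s fun r => (h r).mp fun n hn => hn.2)
  have hP := hper l s fun r => (hA r).mp fun n hn => hn.2
  refine ⟨γ, ⟨fun e => ⟨fun n => Nat.pair (u e n) (l e n), hG.sub _ (pairM hG.mdl (hu e) (hl e)),
    ?_, fun f hf => ?_⟩, fun i hi hns b hb => ?_⟩, hgood⟩
  · refine ((hA e).and (hγ (e + 1))).mp fun n ⟨h1, h2⟩ => ⟨by simp, ?_⟩
    rw [← h2 _ h1.2.2.2.1.1]
    exact h1.2.2.2.1.2.1
  · obtain ⟨t0, ht0⟩ := ha.cof' (prI hF hB hG (hG.sub _ (constM hG.mdl e)) hf)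
    refine (((ht0 (max t0 e) (le_max_left _ _)).and (hA (max t0 e))).and
      ((hP e (max t0 e + 1) (Nat.lt_succ_of_le (le_max_right _ _))).and (hγ (max t0 e + 1)))).mp
      fun n ⟨⟨h1, h2⟩, h3, h4⟩ h5 => ?_
    have h6 : pr e (f n) < l (max t0 e + 1) n := h1.trans_le h2.2.1.2.1
    rw [← h4 _ h6]
    exact h3.2.2.1.2.2 _ h5 h6
  · obtain ⟨t0, ht0⟩ := ha.cof' (addI hF hG hi hb)
    have h1 : Ev fun n => ∃ y, y ≤ l (t0 + 1) n ∧ b n ≤ y ∧ (γ n).testBit (pr (i n) y) = true := by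
      refine (((ht0 t0 le_rfl).and (hA t0)).and ((hns t0).and (hγ (t0 + 1)))).mp
        fun n ⟨⟨h1, h2⟩, h3, h4⟩ => ?_
      obtain ⟨y, h5, h6, h7⟩ := h2.2.2.2.2 (i n) h3 (by omega)
      have := le_pr_right (i n) y
      exact ⟨y, by omega, by omega, by rw [← h4 _ h6]; exact h7⟩
    obtain ⟨y, hy⟩ := ev_ex.1 h1
    exact ⟨y, downI hG (hG.sub _ (hl (t0 + 1))) (hy.mp fun n hn => hn.1), hy.mp fun n hn => hn.2⟩

end Pool.Agent.H965Z.Dens
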