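import Pool.Agent.H965Z.Dens.Limit

/-!
The chain of states, and the collection lemma.
-/

namespace Pool.Agent.H965Z.Dens

open Function Filter Pool.Agent.Helper317.CADS

variable {FF : Set (ℕ → ℕ)} {I M X : Set H}

/-- the properties of the chain and its union -/
structure Chain (FF : Set (ℕ → ℕ)) (I M : Set H) (a : ℕ → ℕ → ℕ) (G0 : Set H) (q : ℕ → H)
    (Xs : ℕ → Set H) : Prop where
  good : ∀ k, Good FF I M (Xs k)
  goodq : ∀ k, Good FF I (gen FF (q k)) (Xs k)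
  iota : ∀ k, iota ∈ gen FF (q k)
  mono : ∀ k, ∀ P : H → Prop, Sig FF I M (Xs k) P → Sig FF I M (Xs (k + 1)) P
  sub : ∀ k, gen FF (q k) ⊆ M
  fin : ∀ k, ∀ P : H → Prop, Sig FF I M (Xs k) P → ∃ l, ∀ l' ≥ l, Sig FF I (gen FF (q l')) (Xs l') P
  g0 : Del FF I M (Xs 0) G0
  wit : ∀ k, ∀ P : H → Prop, Sig FF I M (Xs k) P → ∀ c ∈ M, (∃ x < c, ∀ w ∈ I, P (pp x w)) →
    ∃ x ∈ M, x < c ∧ ∀ w ∈ I, P (pp x w)
  lim : ∀ k Y η, Del FF I M (Xs k) Y → Rep I Y η → CI I a η →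
    ∃ k' η' γ, Rep I Y η' ∧ Del FF I M (Xs k') (tr I γ) ∧ LI I a η' γ

/-- tasks -/
def tasks (FF : Set (ℕ → ℕ)) (I : Set H) (s : H × Set H) : Set (Bool × Set H) :=
  {t | (t.1 = true ∧ Del FF I (gen FF s.1) s.2 t.2) ∨ (t.1 = false ∧ ∃ P : H → Prop,
    Sig FF I (gen FF s.1) s.2 P ∧ ∃ c ∈ gen FF s.1, t.2 = {x | x < c ∧ ∀ w ∈ I, P (pp x w)})}

theorem tasks_countable (hc : FF.Countable) {s : H × Set H} (hG : Good FF I (gen FF s.1) s.2) :
    (tasks FF I s).Countable := by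
  have hM := gen_countable hc s.1
  have h1 := (hc.prod hM).image fun v : (ℕ → ℕ) × H =>
    ((true, {x | x ∈ I ∧ ∃ b ∈ I, T v.1 s.2 (pp v.2 x) b}) : Bool × Set H)
  have h2 := (hc.prod (hM.prod hM)).image fun v : (ℕ → ℕ) × H × H =>
    ((false, {x | x < v.2.2 ∧ ∀ w ∈ I, ∃ b ∈ I, T v.1 s.2 (pp v.2.1 (pp x w)) b}) : Bool × Set H)
  refine (h1.union h2).mono ?_
  rintro ⟨b, A⟩ (⟨h3, h4, ⟨F, h5, p, h6, h7⟩, -⟩ | ⟨h3, P, ⟨F, h5, p, h6, h7⟩, c, h8, h9⟩)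
  · refine Or.inl ⟨(F, p), ⟨h5, h6⟩, Prod.ext h3.symm ?_⟩
    ext x
    exact ⟨fun h => (h7 x h.1).2 h.2, fun h => ⟨h4 x h, (h7 x (h4 x h)).1 h⟩⟩
  · refine Or.inr ⟨(F, p, c), ⟨h5, h6, h8⟩, Prod.ext h3.symm ?_⟩
    simp only at h9 ⊢
    rw [h9]
    ext x
    refine and_congr_right fun hx => forall_congr' fun w => forall_congr' fun hw => ?_
    exact (h7 _ (I_pp hG (hG.down _ (hG.sub _ h8) _ hx.le) hw)).symm

theorem exists_chain (hF : Ops FF) (hU : OpsU FF) (hT : OpsT FF) (hB : OpsB FF) (hL : OpsL FF)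
    (hc : FF.Countable) (hcv : ∀ F ∈ FF, opCv F ∈ FF) {X0 G0 : Set H}
    (hG0 : Good FF I (gen FF iota) X0) (hD0 : Del FF I (gen FF iota) X0 G0)
    {a : ℕ → ℕ → ℕ} (ha : Cof I (gen FF iota) a) :
    ∃ M q Xs, Chain FF I M a G0 q Xs := by
  obtain ⟨f, hf0, hInv, hle, hstep, hbook⟩ := bookkeeping
    (S := H × Set H) (U := Bool × Set H)
    (fun s => Good FF I (gen FF s.1) s.2 ∧ iota ∈ gen FF s.1) (tasks FF I)
    (fun s s' => gen FF s.1 ⊆ gen FF s'.1 ∧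
      ∀ P : H → Prop, Sig FF I (gen FF s.1) s.2 P → Sig FF I (gen FF s'.1) s'.2 P)
    (fun s t s' => (s'.2 = s.2 ∨ ∃ G, s'.2 = join s.2 G) ∧
      (t.1 = true → (∃ η, Rep I t.2 η ∧ CI I a η) →
        ∃ η γ, Rep I t.2 η ∧ Del FF I (gen FF s'.1) s'.2 (tr I γ) ∧ LI I a η γ) ∧
      (t.1 = false → t.2.Nonempty → ∃ x ∈ t.2, x ∈ gen FF s'.1))
    (fun s => ⟨subset_rfl, fun _ h => h⟩)
    (fun a b c h1 h2 => ⟨h1.1.trans h2.1, fun P h => h2.2 P (h1.2 P h)⟩)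
    (fun s hs => tasks_countable hc hs.1)
    (fun s s' _ _ hl t ht => by
      rcases ht with ⟨h1, h2⟩ | ⟨h1, P, h2, c, h3, h4⟩
      · exact Or.inl ⟨h1, del_of_sig hl.2 h2⟩
      · exact Or.inr ⟨h1, P, hl.2 P h2, c, hl.1 h3, h4⟩)
    (fun s hs t ht => by
      rcases ht with ⟨h1, h2⟩ | ⟨h1, P, h2, c, h3, h4⟩
      · by_cases h5 : ∃ η, Rep I t.2 η ∧ CI I a η
        · obtain ⟨η, h6, h7⟩ := h5
          obtain ⟨γ, h8, h9⟩ := forceL hF hU hT hB hL hc hcv hs.1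
            (ha.weak (gen_sub hs.1.mdl hs.2)) h2 h6 h7
          have h10 := Sig.memG hF h9 (fun x hx => hx.1)
          refine ⟨(s.1, join s.2 (tr I γ)), ⟨h9, hs.2⟩,
            ⟨subset_rfl, fun P hP => Sig.mono hF hs.1 subset_rfl h9 hP⟩, Or.inr ⟨_, rfl⟩,
            fun _ _ => ⟨η, γ, h6, ⟨fun x hx => hx.1, h10.1, h10.2⟩, h8⟩, fun h => ?_⟩
          rw [h1] at h; exact absurd h (by simp)
        · refine ⟨s, hs, ⟨subset_rfl, fun _ h => h⟩, Or.inl rfl, fun _ h => absurd h h5, fun h => ?_⟩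
          rw [h1] at h; exact absurd h (by simp)
      · by_cases h5 : t.2.Nonempty
        · obtain ⟨x, hx⟩ := h5
          have hxI : x ∈ I := by
            rw [h4] at hx
            exact hs.1.down _ (hs.1.sub _ h3) _ hx.1.le
          have hqI : pp s.1 x ∈ I := I_pp hs.1 (hs.1.sub _ (self_mem_gen hF _)) hxI
          have hsub : gen FF s.1 ⊆ gen FF (pp s.1 x) :=
            gen_sub (gen_mdl hF _) (left_mem_gen hF _ _)
          refine ⟨(pp s.1 x, s.2), ⟨good_ext hF hs.1 (gen_mdl hF _) hsub (gen_subI hF hs.1 hqI),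
            hsub hs.2⟩, ⟨hsub, fun P hP => sig_weak hsub hP⟩, Or.inl rfl, fun h => ?_,
            fun _ _ => ⟨x, hx, right_mem_gen hF _ _⟩⟩
          rw [h1] at h; exact absurd h (by simp)
        · refine ⟨s, hs, ⟨subset_rfl, fun _ h => h⟩, Or.inl rfl, fun h => ?_, fun _ h => absurd h h5⟩
          rw [h1] at h; exact absurd h (by simp))
    (fun s hs => ⟨(true, s.2), Or.inl ⟨rfl, del_X hF hs.1⟩⟩)
    (iota, X0) ⟨hG0, self_mem_gen hF _⟩
  set Ms : ℕ → Set H := fun k => gen FF (f k).1 with hMs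
  set Xs : ℕ → Set H := fun k => (f k).2 with hXs
  have hgood : ∀ k, Good FF I (Ms k) (Xs k) := fun k => (hInv k).1
  have hMmono : ∀ k l, k ≤ l → Ms k ⊆ Ms l := by
    intro k l h
    induction l, h using Nat.le_induction with
    | base => exact subset_rfl
    | succ l _ ih => exact ih.trans (hle l).1
  have hXsucc : ∀ k, Xs (k + 1) = Xs k ∨ ∃ G, Xs (k + 1) = join (Xs k) G := fun k => by
    obtain ⟨t, ht⟩ := hstep k
    exact ht.1
  set M : Set H := ⋃ k, Ms k with hMdef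
  have hsubM : ∀ k, Ms k ⊆ M := fun k => Set.subset_iUnion Ms k
  have hMdl : Mdl FF M := by
    refine ⟨fun k => hsubM 0 ((hgood 0).mdl.st k), ?_, ?_⟩
    · intro F hF1 x hx
      obtain ⟨k, hk⟩ := Set.mem_iUnion.1 hx
      exact hsubM k ((hgood k).mdl.ap F hF1 x hk)
    · intro x hx y hy
      obtain ⟨k, hk⟩ := Set.mem_iUnion.1 hx
      obtain ⟨l, hl⟩ := Set.mem_iUnion.1 hy
      exact hsubM (max k l) ((hgood _).mdl.pp x (hMmono _ _ (le_max_left _ _) hk) y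
        (hMmono _ _ (le_max_right _ _) hl))
  have hMI : ∀ x ∈ M, x ∈ I := by
    intro x hx
    obtain ⟨k, hk⟩ := Set.mem_iUnion.1 hx
    exact (hgood k).sub x hk
  have hgM : ∀ k, Good FF I M (Xs k) := fun k => good_ext hF (hgood k) hMdl (hsubM k) hMI
  have hgkl : ∀ k l, k ≤ l → Good FF I (Ms l) (Xs k) := fun k l h =>
    good_ext hF (hgood k) (hgood l).mdl (hMmono k l h) (hgood l).sub
  have hmono : ∀ k, ∀ P : H → Prop, Sig FF I M (Xs k) P → Sig FF I M (Xs (k + 1)) P := by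
    intro k P hP
    rcases hXsucc k with hG | ⟨G, hG⟩
    · rw [hG]; exact hP
    · have h1 := hgM (k + 1)
      rw [hG] at h1 ⊢
      exact Sig.mono hF (hgM k) subset_rfl h1 hP
  have hfin : ∀ k, ∀ P : H → Prop, Sig FF I M (Xs k) P →
      ∃ l, ∀ l' ≥ l, Sig FF I (Ms l') (Xs l') P := by
    rintro k P ⟨F, hF1, p, hp, h1⟩
    obtain ⟨l, hl⟩ := Set.mem_iUnion.1 hp
    refine ⟨max k l, fun l' hl' => ?_⟩
    have h2 : Sig FF I (Ms l') (Xs k) P :=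
      ⟨F, hF1, p, hMmono l l' ((le_max_right _ _).trans hl') hl, h1⟩
    have h3 : ∀ j, k ≤ j → j ≤ l' → Sig FF I (Ms l') (Xs j) P := by
      intro j hj
      induction j, hj using Nat.le_induction with
      | base => exact fun _ => h2
      | succ j hkj ih =>
        intro hjl
        have h4 := ih (by omega)
        rcases hXsucc j with hG | ⟨G, hG⟩
        · rw [hG]; exact h4
        · have h5 := hgkl (j + 1) l' hjl
          rw [hG] at h5 ⊢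
          exact Sig.mono hF (hgkl j l' (by omega)) subset_rfl h5 h4
    exact h3 l' ((le_max_left _ _).trans hl') le_rfl
  refine ⟨M, fun k => (f k).1, Xs, hgM, hgood, fun k => (hInv k).2, hmono, hsubM, hfin, ?_, ?_, ?_⟩
  · have h1 : Del FF I (Ms 0) (Xs 0) G0 := by
      simp only [hMs, hXs, hf0]
      exact hD0
    exact del_of_sig (fun P hP => sig_weak (hsubM 0) hP) h1
  · rintro k P hP c hc ⟨x, hx⟩
    obtain ⟨l1, h1⟩ := hfin k P hP
    obtain ⟨l2, h2⟩ := Set.mem_iUnion.1 hc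
    obtain ⟨l, -, -, -, h3⟩ := hbook (max l1 l2) (false, {x | x < c ∧ ∀ w ∈ I, P (pp x w)})
      (Or.inr ⟨rfl, P, h1 _ (le_max_left _ _), c, hMmono _ _ (le_max_right _ _) h2, rfl⟩)
    obtain ⟨y, h4, h5⟩ := h3 rfl ⟨x, hx⟩
    exact ⟨y, hsubM (l + 1) h5, h4⟩
  · intro k Y η hY h1 h2
    obtain ⟨l1, h3⟩ := hfin k _ hY.2.1
    obtain ⟨l2, h4⟩ := hfin k _ hY.2.2
    obtain ⟨l, -, -, h5, -⟩ := hbook (max l1 l2) (true, Y)
      (Or.inl ⟨rfl, hY.1, h3 _ (le_max_left _ _), h4 _ (le_max_right _ _)⟩)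
    obtain ⟨η', γ, h6, h7, h8⟩ := h5 rfl ⟨η, h1, h2⟩
    exact ⟨l + 1, η', γ, h6, del_of_sig (fun P hP => sig_weak (hsubM (l + 1)) hP) h7, h8⟩

theorem nat_pair_le {a b c d : ℕ} (h1 : a ≤ c) (h2 : b ≤ d) : Nat.pair a b < Nat.pair c d + 1 :=
  Nat.lt_succ_of_le (nat_pair_mono h1 h2)

/-- collection for the negations of semi-decidable relations -/
theorem bsig (hF : Ops FF) (hG : Good FF I M X) {a : ℕ → ℕ → ℕ} (ha : Cof I M a)
    {P : H → Prop} (hP : Sig FF I M X P) {c : H} (hc : c ∈ M)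
    (hwit : (∃ x < c, ∀ w ∈ I, P (pp x w)) → ∃ x ∈ M, x < c ∧ ∀ w ∈ I, P (pp x w))
    (h : ∀ x ∈ M, x < c → ∃ w ∈ I, ¬ P (pp x w)) :
    ∃ b ∈ M, ∀ x < c, ∃ w ≤ b, ¬ P (pp x w) := by
  by_contra hcon
  push Not at hcon
  obtain ⟨c, rfl⟩ := c.rep
  have h1 : ∀ t, ∃ z : ℕ → ℕ, ∀ x : H, mem x (z : H) ↔
      x < ((fun n => Nat.pair (c n) (a t n) + 1 : ℕ → ℕ) : H) ∧ P x := by
    intro t
    obtain ⟨z, _, h2⟩ := Sig.coded hF hG hP
      (addM hF hG.mdl (pairM hG.mdl hc (ha.mem t)) (constM hG.mdl 1))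
    obtain ⟨z, rfl⟩ := z.rep
    exact ⟨z, h2⟩
  choose z hz using h1
  obtain ⟨x, hx⟩ := saturation
    (fun m n y => y < c n ∧ ∀ t ≤ m, ∀ w ≤ a t n, (z t n).testBit (Nat.pair y w) = true)
    (fun m n y h => ⟨h.1, fun t ht => h.2 t (by omega)⟩)
    (fun m => by
      obtain ⟨x, h2, h3⟩ := hcon _ (ha.mem m)
      obtain ⟨x, rfl⟩ := x.rep
      rw [lt_coe] at h2
      have h4 : Ev fun n => ∀ t < m + 1, ∀ w ≤ a t n, (z t n).testBit (Nat.pair (x n) w) = true := by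
        refine ev_forall_lt (p := fun t n => ∀ w ≤ a t n,
          (z t n).testBit (Nat.pair (x n) w) = true) (m + 1) fun t ht => ?_
        rw [ev_all (P := fun n w => w ≤ a t n → (z t n).testBit (Nat.pair (x n) w) = true)]
        intro w
        rw [ev_imp]
        intro hw
        have h5 := h3 w (le_coe.2 ((hw.and (ha.le (show t ≤ m by omega))).mp fun n hn =>
          hn.1.trans hn.2))
        refine mem_coe.1 ((hz t _).2 ⟨lt_coe.2 ?_, h5⟩)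
        exact (h2.and hw).mp fun n hn => nat_pair_le hn.1.le hn.2
      exact (h2.and h4).mp fun n hn => ⟨x n, hn.1, fun t ht => hn.2 t (by omega)⟩)
  obtain ⟨y, hy, h2, h3⟩ := hwit ⟨x, lt_coe.2 ((hx 0).mp fun n hn => hn.1), fun w hw => by
    obtain ⟨w, rfl⟩ := w.rep
    obtain ⟨t, ht⟩ := ha.cof w hw
    refine ((hz t _).1 (mem_coe.2 ?_)).2
    exact ((hx t).and ht).mp fun n hn => hn.1.2 t le_rfl _ hn.2.le⟩
  obtain ⟨w, hw, h4⟩ := h y hy h2
  exact h4 (h3 w hw)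

end Pool.Agent.H965Z.Dens
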