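import Pool.Agent.H965Z.Dens.Arith

/-!
The structure satisfies completeness and collection.
-/

namespace Pool.Agent.H965Z.Dens

open Function Filter Pool.Agent.Helper317.CADS Pool.Agent.Helper317.SOA

variable {FF : Set (ℕ → ℕ)} {I M X : Set H}

theorem symm_iff {p q : Prop} {b c : ℕ → Bool} (hp : p ↔ Ev fun n => b n = true)
    (hq : q ↔ Ev fun n => c n = true) : (p ∧ ¬ q ∨ q ∧ ¬ p) ↔ Ev fun n => b n ≠ c n := by
  rw [hp, hq, ← ev_not, ← ev_not, ← ev_and, ← ev_and, ← ev_or]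
  refine ev_iff.1 (ev_of_forall fun n => ?_)
  cases b n <;> cases c n <;> simp

theorem mem_col (hF : Ops FF) (hB : OpsB FF) (hG : Good FF I M X) {hM : Mdl FF M}
    {S : Set (Set H)} {Y : Set H} {η m f : ℕ → ℕ} (hη : Rep I Y η) {hm : (m : H) ∈ M}
    {hf : (f : H) ∈ M} :
    nm hF.toFam hM S f hf ∈ col (FM hF.toFam hM S) {x | x.1 ∈ Y} (nm hF.toFam hM S m hm) ↔
      Ev fun n => (colc (η n) (m n)).testBit (f n) = true := by
  unfold col
  rw [Set.mem_ofPred_eq, fm_pair hB]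
  simp only [testBit_colc]
  exact hη _ (hG.sub _ (prM hB hM hm hf))

theorem cauchy_int (hF : Ops FF) (hT : OpsT FF) (hB : OpsB FF) (hA : OpsA FF)
    (hG : Good FF I M X) {hM : Mdl FF M} {S : Set (Set H)} {Y : Set H} (hY : Del FF I M X Y)
    {η : ℕ → ℕ} (hη : Rep I Y η) (hC : IsCauchy (FM hF.toFam hM S) {x | x.1 ∈ Y})
    {K : ℕ → ℕ} (hK : (K : H) ∈ M) :
    ∃ m : ℕ → ℕ, (m : H) ∈ M ∧ ∀ m' : ℕ → ℕ, (m' : H) ∈ M → (Ev fun n => m n < m' n) →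
      ∃ i : ℕ → ℕ, (i : H) ∈ M ∧ ∀ j : ℕ → ℕ, (j : H) ∈ I → Ev fun n => i n < j n →
        dif (colc (η n) (m n)) (colc (η n) (m' n)) 0 (j n) * 2 ^ K n ≤ j n := by
  obtain ⟨m, h1⟩ := hC (nm _ _ _ K hK)
  obtain ⟨m, hm, rfl⟩ := num_rep m
  refine ⟨m, hm, fun m' hm' h2 => ?_⟩
  obtain ⟨i, h3⟩ := h1 (nm _ _ _ m' hm') (fm_lt.2 h2)
  obtain ⟨i, hi, rfl⟩ := num_rep i
  have d1 := del_col hF hB hG hY hm
  have d2 := del_col hF hB hG hY hm'
  have r1 := rep_col hF hB hG hη (hG.sub _ hm)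
  have r2 := rep_col hF hB hG hη (hG.sub _ hm')
  refine ⟨i, hi, dens_transfer hF hT hA hG d1 d2 r1 r2 hi (apM hM hA.pow hK) fun j hj h4 => ?_⟩
  refine (dens_iff hF hA hG hM S (fun f hf => ?_) (del_segM hF hG d1 r1 hj)
    (del_segM hF hG d2 r2 hj)).1 (h3 (nm _ _ _ j hj) (fm_lt.2 h4))
  rw [Set.mem_symmDiff]
  exact symm_iff (mem_col hF hB hG hη) (mem_col hF hB hG hη)

theorem fm_complete (hF : Ops FF) (hT : OpsT FF) (hB : OpsB FF) (hA : OpsA FF)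
    {a : ℕ → ℕ → ℕ} {G0 : Set H} {q : ℕ → H} {Xs : ℕ → Set H} (C : Chain FF I M a G0 q Xs)
    (ha : Cof I M a) (hM : Mdl FF M) :
    Complete (FM hF.toFam hM {A | ∃ k, Del FF I M (Xs k) A}) := by
  rintro _ ⟨Y, ⟨k, hY⟩, rfl⟩ hC
  have hG := C.good k
  obtain ⟨η, hη⟩ := del_rep hF hG ha hY
  have hCI : CI I a η := by
    intro D hD
    obtain ⟨t, ht⟩ := ha.cof _ (mulI hF hG (hG.sub _ (constM hM 2)) hD)
    obtain ⟨m, hm, h1⟩ := cauchy_int hF hT hB hA hG hY hη hC (ha.mem t)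
    obtain ⟨t0, ht0⟩ := ha.cof' (hG.sub _ hm)
    refine ⟨t0, fun s s' hs hs' => ?_⟩
    obtain ⟨i1, hi1, h2⟩ := h1 _ (ha.mem s) (ht0 s hs)
    obtain ⟨i2, hi2, h3⟩ := h1 _ (ha.mem s') (ht0 s' hs')
    refine ⟨_, hG.sub _ (addM hF hM (addM hF hM hi1 hi2) (constM hM 1)), fun j hj => ?_⟩
    refine (((h2 j hj).and (h3 j hj)).and ht).mp fun n ⟨⟨k1, k2⟩, k3⟩ k4 => ?_
    have e1 := k1 (by omega)
    have e2 := k2 (by omega)
    have e3 := dif_tri (colc (η n) (a s n)) (colc (η n) (m n)) (colc (η n) (a s' n)) 0 (j n)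
    rw [dif_comm] at e1
    have e4 : a t n < 2 ^ a t n := Nat.lt_two_pow_self
    have e5 : dif (colc (η n) (a s n)) (colc (η n) (a s' n)) 0 (j n) * (2 * D n) ≤
        (dif (colc (η n) (a s n)) (colc (η n) (m n)) 0 (j n) +
          dif (colc (η n) (m n)) (colc (η n) (a s' n)) 0 (j n)) * 2 ^ a t n :=
      Nat.mul_le_mul e3 (by omega)
    nlinarith
  obtain ⟨k', η', γ, hη', hγ, hLI⟩ := C.lim k Y η hY hη hCI
  refine ⟨{x | x.1 ∈ tr I γ}, ⟨_, ⟨k', hγ⟩, rfl⟩, fun K => ?_⟩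
  obtain ⟨K, hK, rfl⟩ := num_rep K
  have hK2 := addM hF hM hK (constM hM 2)
  obtain ⟨m, hm, h1⟩ := cauchy_int hF hT hB hA hG hY hη' hC hK2
  refine ⟨nm _ _ _ m hm, fun m' h2 => ?_⟩
  obtain ⟨m', hm', rfl⟩ := num_rep m'
  obtain ⟨i1, hi1, h3⟩ := h1 m' hm' (fm_lt.1 h2)
  obtain ⟨t0, ht0⟩ := ha.cof' (hG.sub _ hm)
  obtain ⟨t, ht, i3, hi3, h4⟩ := hLI _ (hG.sub _ (apM hM hA.pow hK2)) t0
  obtain ⟨i2, hi2, h5⟩ := h1 _ (ha.mem t) (ht0 t ht)
  obtain ⟨t', ht'⟩ := ha.cof _ (addI hF hG (hG.sub _ (addM hF hM hi1 hi2)) hi3)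
  refine ⟨nm _ _ _ _ (ha.mem t'), fun j h6 => ?_⟩
  obtain ⟨j, hj, rfl⟩ := num_rep j
  rw [fm_lt] at h6
  have r2 := rep_col hF hB hG hη' (hG.sub _ hm')
  refine (dens_iff hF hA hG hM _ (fun f hf => ?_)
    (del_segM hF hG (del_col hF hB hG hY hm') r2 hj)
    (del_segM hF (C.good k') hγ (rep_tr γ) hj)).2 ?_
  · rw [Set.mem_symmDiff]
    exact symm_iff (mem_col hF hB hG hη') (rep_tr γ f (hG.sub _ hf))
  · have hjI := hG.sub _ hj
    refine ((((h3 j hjI).and (h4 j hjI)).and (h5 j hjI)).and (h6.and ht')).mp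
      fun n ⟨⟨⟨k1, k2⟩, k3⟩, k4, k5⟩ => ?_
    have e1 := k1 (by omega)
    have e2 := k2 (by omega)
    have e3 := k3 (by omega)
    rw [dif_comm] at e1
    have e4 := dif_tri (colc (η' n) (m' n)) (colc (η' n) (m n)) (γ n) 0 (j n)
    have e5 := dif_tri (colc (η' n) (m n)) (colc (η' n) (a t n)) (γ n) 0 (j n)
    have e6 : dif (colc (η' n) (m' n)) (γ n) 0 (j n) * 2 ^ (K n + 2) ≤
        (dif (colc (η' n) (m' n)) (colc (η' n) (m n)) 0 (j n) +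
          dif (colc (η' n) (m n)) (colc (η' n) (a t n)) 0 (j n) +
          dif (colc (η' n) (a t n)) (γ n) 0 (j n)) * 2 ^ (K n + 2) :=
      Nat.mul_le_mul_right _ (by omega)
    rw [pow_add] at e1 e2 e3 e6
    nlinarith

/-- the code of an assignment updated at four places; `v = (e, (z, (x, (y, u))))` -/
noncomputable def upd4 (c : ℕ) (v : ℕ) : ℕ :=
  upd (upd (upd (upd v.unpair.1 c.unpair.1.unpair.1 v.unpair.2.unpair.2.unpair.1)
    c.unpair.1.unpair.2 v.unpair.2.unpair.2.unpair.2.unpair.1)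
    c.unpair.2.unpair.1 v.unpair.2.unpair.2.unpair.2.unpair.2) c.unpair.2.unpair.2
    v.unpair.2.unpair.1

/-- closure conditions for collection -/
structure OpsC (FF : Set (ℕ → ℕ)) : Prop where
  upd4 : ∀ c, upd4 c ∈ FF
  nb : chi (fun v : ℕ => v.unpair.2 ≤ v.unpair.1.unpair.1 ∧
    v.unpair.1.unpair.2.unpair.2.testBit (Nat.pair v.unpair.1.unpair.2.unpair.1 v.unpair.2) = false)
      ∈ FF

/-- bounded witnesses for negations of semi-decidable relations lie in `M` -/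
theorem bwit (hF : Ops FF) (hC : OpsC FF) (hG : Good FF I M X) {P : H → Prop}
    (hP : Sig FF I M X P) {b x : H} (hb : b ∈ M) (hx : x ∈ M) (h : ∃ w ≤ b, ¬ P (pp x w)) :
    ∃ w ∈ M, w ≤ b ∧ ¬ P (pp x w) := by
  obtain ⟨b, rfl⟩ := b.rep
  obtain ⟨x, rfl⟩ := x.rep
  obtain ⟨z, hz, h1⟩ := Sig.coded hF hG hP
    (addM hF hG.mdl (pairM hG.mdl hx hb) (constM hG.mdl 1))
  obtain ⟨z, rfl⟩ := z.rep
  obtain ⟨w, hw, h2⟩ := h
  obtain ⟨w, rfl⟩ := w.rep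
  have h3 := sigI_chi hF hG hC.nb (pairM hG.mdl hb (pairM hG.mdl hx hz))
  simp only [Nat.unpair_pair] at h3
  obtain ⟨g, hg, h4⟩ := witnessI hF hG h3 (hG.down _ (hG.sub _ hb) _ hw) (by
    refine (le_coe.1 hw).and ?_
    have h5 : ¬ mem (pp (x : H) (w : H)) (z : H) := fun h => h2 ((h1 _).1 h).2
    rw [pp_coe, mem_coe, ← ev_not] at h5
    exact h5.mp fun n hn => by simpa using hn)
  refine ⟨g, hg, le_coe.2 (h4.mp fun n hn => hn.1), fun h5 => ?_⟩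
  have h6 := (h1 _).2 ⟨by
    rw [pp_coe, lt_coe]
    exact h4.mp fun n hn => nat_pair_le le_rfl hn.1, h5⟩
  rw [pp_coe, mem_coe] at h6
  exact ev_const.1 ((h4.and h6).mp (q := fun _ => False) fun n hn => by
    rw [hn.1.2] at hn; exact absurd hn.2 (by simp))

theorem fm_bsigma (hF : Ops FF) (hU : OpsU FF) (hT : OpsT FF) (hC : OpsC FF)
    {a : ℕ → ℕ → ℕ} {G0 : Set H} {q : ℕ → H} {Xs : ℕ → Set H} (C : Chain FF I M a G0 q Xs)
    (ha : Cof I M a) (hM : Mdl FF M) :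
    BSigma 2 (FM hF.toFam hM {A | ∃ k, Del FF I M (Xs k) A}) := by
  rintro φ ⟨l, φ', rfl, l', ψ, rfl, hψ⟩ i j _ v V hV c h
  obtain ⟨k, A, hA, hVA⟩ := choose_k hF hM Xs C.good C.mono V hV ψ.bdS
  have hG := C.good k
  obtain ⟨D, hD, hDs⟩ := delta0_del hF hU hG {A | ∃ k, Del FF I M (Xs k) A} hψ
    (fun j => {x | x.1 ∈ A j}) A hA (fun j => rfl)
  obtain ⟨e, he, hEnc⟩ := exists_code hU hM (fun i => (v i).1) (fun i => (v i).2) ψ.bd
  obtain ⟨e, rfl⟩ := e.rep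
  set cd := Nat.pair (Nat.pair i j) (Nat.pair l l') with hcd
  have hsat : ∀ (x y u z : ℕ → ℕ) (hx : (x : H) ∈ M) (hy : (y : H) ∈ M) (hu : (u : H) ∈ M)
      (hz : (z : H) ∈ M),
      Sat (FM hF.toFam hM {A | ∃ k, Del FF I M (Xs k) A})
        (update (update (update (update v i (nm _ _ _ x hx)) j (nm _ _ _ y hy)) l (nm _ _ _ u hu))
          l' (nm _ _ _ z hz)) V ψ ↔
      ap (upd4 cd) (pp (e : H) (pp (z : H) (pp (x : H) (pp (y : H) (u : H))))) ∈ D := by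
    intro x y u z hx hy hu hz
    rw [sat_congr ψ (v' := update (update (update (update v i (nm _ _ _ x hx)) j (nm _ _ _ y hy)) l
      (nm _ _ _ u hu)) l' (nm _ _ _ z hz)) (V' := fun j => {x | x.1 ∈ A j}) (fun _ _ => rfl) hVA]
    refine hDs _ (hM.ap _ (hC.upd4 cd) _ (hM.pp _ he _ (hM.pp _ hz _ (hM.pp _ hx _
      (hM.pp _ hy _ hu))))) _ ?_
    intro m hm
    have h1 := hEnc m hm
    simp only [pp_coe, ap_coe, st_coe, ap2_coe, upd4, hcd, Nat.unpair_pair, ev_upd] at h1 ⊢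
    by_cases e1 : m = l'
    · subst e1; simp only [if_true, update_self]; rfl
    rw [update_of_ne e1]
    by_cases e2 : m = l
    · subst e2; simp only [if_neg e1, if_true, update_self]; rfl
    rw [update_of_ne e2]
    by_cases e3 : m = j
    · subst e3; simp only [if_neg e1, if_neg e2, if_true, update_self]; rfl
    rw [update_of_ne e3]
    by_cases e4 : m = i
    · subst e4; simp only [if_neg e1, if_neg e2, if_neg e3, if_true, update_self]; rfl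
    rw [update_of_ne e4]
    simp only [if_neg e1, if_neg e2, if_neg e3, if_neg e4]
    exact h1
  have hQ := Sig.sub hF hG hD.2.2 (hC.upd4 cd) he
  have hP := Sig.ex hF hG hQ
  have hPM : ∀ (x y u : ℕ → ℕ) (hx : (x : H) ∈ M) (hy : (y : H) ∈ M) (hu : (u : H) ∈ M),
      (∀ z, Sat (FM hF.toFam hM {A | ∃ k, Del FF I M (Xs k) A})
        (update (update (update (update v i (nm _ _ _ x hx)) j (nm _ _ _ y hy)) l (nm _ _ _ u hu))
          l' z) V ψ) ↔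
      ¬ ∃ z ∈ I, ap (upd4 cd) (pp (e : H) (pp z (pp (x : H) (pp (y : H) (u : H))))) ∉ D := by
    intro x y u hx hy hu
    constructor
    · rintro h1 ⟨z, hz, h2⟩
      have h3 := Sig.sub hF hG hQ hT.swap (hM.pp _ hx _ (hM.pp _ hy _ hu))
      have h4 : ∀ z : H, ap (fun w : ℕ => Nat.pair w.unpair.2 w.unpair.1)
          (pp (pp (x : H) (pp (y : H) (u : H))) z) = pp z (pp (x : H) (pp (y : H) (u : H))) := by
        intro z
        obtain ⟨z, rfl⟩ := z.rep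
        simp only [pp_coe, ap_coe, Nat.unpair_pair]
      obtain ⟨z', hz', h5⟩ := h3.witness hF hG ⟨z, hz, by rw [h4]; exact h2⟩
      rw [h4] at h5
      obtain ⟨z', rfl⟩ := z'.rep
      exact h5 ((hsat x y u z' hx hy hu hz').1 (h1 _))
    · intro h1 z
      obtain ⟨z, hz, rfl⟩ := num_rep z
      rw [hsat]
      by_contra h2
      exact h1 ⟨z, hG.sub _ hz, h2⟩
  obtain ⟨c, hc, rfl⟩ := num_rep c
  obtain ⟨b, hb, h1⟩ := bsig hF hG ha hP hc (C.wit k _ hP _ hc) (by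
    intro x hx h2
    obtain ⟨x, rfl⟩ := x.rep
    obtain ⟨y, h3⟩ := h (nm _ _ _ x hx) h2
    obtain ⟨y, hy, rfl⟩ := num_rep y
    rw [sat_ex] at h3
    obtain ⟨u, h3⟩ := h3
    obtain ⟨u, hu, rfl⟩ := num_rep u
    exact ⟨_, hG.sub _ (hM.pp _ hy _ hu), (hPM x y u hx hy hu).1 h3⟩)
  obtain ⟨b, rfl⟩ := b.rep
  refine ⟨nm _ _ _ _ (addM hF hM hb (constM hM 1)), fun x h2 => ?_⟩
  obtain ⟨x, hx, rfl⟩ := num_rep x
  obtain ⟨w, hw, h3, h4⟩ := bwit hF hC hG hP hb hx (h1 _ h2)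
  obtain ⟨w, rfl⟩ := w.rep
  have hy := apM hM hF.fst hw
  have hu := apM hM hF.snd hw
  refine ⟨nm _ _ _ _ hy, fm_lt.2 ((le_coe.1 h3).mp fun n hn =>
    Nat.lt_succ_of_le ((Nat.unpair_left_le _).trans hn)), ?_⟩
  rw [sat_ex]
  refine ⟨nm _ _ _ _ hu, (hPM x _ _ hx hy hu).2 ?_⟩
  have e : pp ((fun n => (w n).unpair.1 : ℕ → ℕ) : H) ((fun n => (w n).unpair.2 : ℕ → ℕ) : H) =
      (w : H) := by
    simp only [pp_coe, Nat.pair_unpair]
  rw [e]
  exact h4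

end Pool.Agent.H965Z.Dens
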