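import Pool.Agent.H965Z.Dens.NoCoh

/-!
The family of functions and the main theorem.
-/

namespace Pool.Agent.H965Z.Dens

open Function Filter Pool.Agent.Helper317.CADS Pool.Agent.Helper317.SOA

/-- base functions -/
noncomputable def baseFn : ℕ → ℕ → (ℕ → ℕ)
  | 0, _ => fun x => x
  | 1, k => fun _ => k
  | 2, _ => fun x => x.unpair.1
  | 3, _ => fun x => x.unpair.2
  | 4, _ => fun x => x.unpair.1 + x.unpair.2
  | 5, _ => fun x => x.unpair.1 * x.unpair.2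
  | 6, _ => fun x => x.unpair.2 % 2 ^ x.unpair.1
  | 7, k => opMem (k == 1)
  | 8, _ => fun w => jn w.unpair.1 w.unpair.2.unpair.1 w.unpair.2.unpair.2
  | 9, _ => fun w => ev w.unpair.1 w.unpair.2
  | 10, _ => fun w => upd w.unpair.1 w.unpair.2.unpair.1 w.unpair.2.unpair.2
  | 11, _ => chi (fun w : ℕ => w.unpair.1 = w.unpair.2)
  | 12, _ => chi (fun w : ℕ => w.unpair.1 ≠ w.unpair.2)
  | 13, _ => chi (fun w : ℕ => w.unpair.1 < w.unpair.2)
  | 14, _ => chi (fun w : ℕ => w.unpair.1 ≤ w.unpair.2)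
  | 15, k => chi (fun w : ℕ => w.unpair.2.testBit w.unpair.1 = (k == 1))
  | 16, _ => chi (fun w : ℕ => w.unpair.2 < 2 ^ w.unpair.1)
  | 17, _ => fun w : ℕ => Nat.pair w.unpair.2 w.unpair.1
  | 18, _ => fun w : ℕ => pr w.unpair.1 w.unpair.2
  | 19, _ => chi (fun v : ℕ => A0p v.unpair.1 v.unpair.2.unpair.1)
  | 20, _ => fun p : ℕ => Classical.epsilon (A0p p)
  | 21, _ => chi (fun v : ℕ => AL v.unpair.1.unpair.1 v.unpair.1.unpair.2.unpair.1
      v.unpair.2.unpair.1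
      v.unpair.1.unpair.2.unpair.2.unpair.1 v.unpair.1.unpair.2.unpair.2.unpair.2
      v.unpair.2.unpair.2.unpair.2 v.unpair.2.unpair.2.unpair.1.unpair.1
      v.unpair.2.unpair.2.unpair.1.unpair.2)
  | 22, _ => fun v : ℕ => spl v.unpair.1.unpair.1 v.unpair.1.unpair.2 v.unpair.2.unpair.1
      v.unpair.2.unpair.2
  | 23, _ => fun w : ℕ => w.unpair.1 / w.unpair.2
  | 24, _ => fun w : ℕ => bet w.unpair.1 w.unpair.2.unpair.1 w.unpair.2.unpair.2
  | 25, _ => fun w : ℕ => 2 ^ w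
  | 26, _ => fun w : ℕ => dif w.unpair.2.unpair.1 w.unpair.2.unpair.2 0 w.unpair.1
  | 27, _ => fun w : ℕ => seqb (fun x => dif w.unpair.2.unpair.1 w.unpair.2.unpair.2 0 x)
      w.unpair.1
  | 28, _ => fun w : ℕ => seqb (fun x => 2 ^ x) w
  | 29, _ => chi (fun v : ℕ => v.unpair.2 < v.unpair.1.unpair.1 ∧
      bet v.unpair.1.unpair.2.unpair.1.unpair.1 v.unpair.1.unpair.2.unpair.1.unpair.2
        (v.unpair.2 + 1) ≠
      bet v.unpair.1.unpair.2.unpair.1.unpair.1 v.unpair.1.unpair.2.unpair.1.unpair.2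
        v.unpair.2 + if v.unpair.1.unpair.2.unpair.2.unpair.1.testBit v.unpair.2 ≠
          v.unpair.1.unpair.2.unpair.2.unpair.2.testBit v.unpair.2 then 1 else 0)
  | 30, _ => chi (fun v : ℕ => v.unpair.2 < v.unpair.1.unpair.1 ∧
      bet v.unpair.1.unpair.2.unpair.1 v.unpair.1.unpair.2.unpair.2 (v.unpair.2 + 1) ≠
      2 * bet v.unpair.1.unpair.2.unpair.1 v.unpair.1.unpair.2.unpair.2 v.unpair.2)
  | 31, _ => chi (fun v : ℕ => v.unpair.1.unpair.1 < v.unpair.2.unpair.2.unpair.2 ∧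
      v.unpair.2.unpair.2.unpair.2 < dif v.unpair.2.unpair.2.unpair.1 v.unpair.2.unpair.1 0
        v.unpair.2.unpair.2.unpair.2 * v.unpair.1.unpair.2)
  | 32, c => upd4 c
  | 33, _ => chi (fun v : ℕ => v.unpair.2 ≤ v.unpair.1.unpair.1 ∧
      v.unpair.1.unpair.2.unpair.2.testBit (Nat.pair v.unpair.1.unpair.2.unpair.1 v.unpair.2) =
        false)
  | 34, _ => chi (fun v : ℕ => F1 v.unpair.1 v.unpair.2.unpair.1 v.unpair.2.unpair.2)
  | 35, _ => chi (fun v : ℕ => F2 v.unpair.1 v.unpair.2.unpair.1 v.unpair.2.unpair.2)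
  | 36, _ => chi (fun v : ℕ => F3 v.unpair.1 v.unpair.2.unpair.1 v.unpair.2.unpair.2)
  | 37, _ => chi (fun v : ℕ => F4 v.unpair.1 v.unpair.2.unpair.1 v.unpair.2.unpair.2)
  | 38, _ => chi (fun v : ℕ => F5 v.unpair.1 v.unpair.2.unpair.1 v.unpair.2.unpair.2)
  | 39, _ => chi (fun v : ℕ => F6 v.unpair.1 v.unpair.2.unpair.1 v.unpair.2.unpair.2)
  | 40, _ => chi (fun v : ℕ => (fun _ z w => Rn z w) v.unpair.1 v.unpair.2.unpair.1
      v.unpair.2.unpair.2)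
  | 41, _ => chi (fun v : ℕ => (fun _ z w => ¬ Rn z w) v.unpair.1 v.unpair.2.unpair.1
      v.unpair.2.unpair.2)
  | _ + 42, _ => fun x => x

/-- unary operators -/
noncomputable def opU : ℕ → ((ℕ → ℕ) → (ℕ → ℕ))
  | 0 => hat
  | 1 => opInt
  | 2 => opMax
  | 3 => opEx
  | 4 => opBall
  | 5 => opLw
  | 6 => opCp
  | 7 => opFst
  | 8 => opSnd
  | 9 => opCv
  | 10 => opSc
  | 11 => lamc
  | _ + 12 => fun F => F

/-- binary operators -/
noncomputable def opW : ℕ → ((ℕ → ℕ) → (ℕ → ℕ) → (ℕ → ℕ))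
  | 0 => fun F G x => F (G x)
  | 1 => fun F G x => Nat.pair (F x) (G x)
  | 2 => opAnd
  | 3 => opOr
  | 4 => opSub
  | _ + 5 => fun F _ => F

theorem main : ∃ K : Model, RCA0 K ∧ BSigma 2 K ∧ Complete K ∧ ¬ DOM K ∧ ¬ COH K ∧
    ¬ ISigma 2 K ∧ ¬ ArithInd K := by
  obtain ⟨FF, hc, hB0, hU0, hW0⟩ := exists_closure
    (Set.range fun q : ℕ × ℕ => baseFn q.1 q.2) (Set.countable_range _)
    (Set.range opU) (Set.countable_range _) (Set.range opW) (Set.countable_range _)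
  have hb : ∀ i k, baseFn i k ∈ FF := fun i k => hB0 ⟨(i, k), rfl⟩
  have hu : ∀ i, ∀ F ∈ FF, opU i F ∈ FF := fun i F hF => hU0 _ ⟨i, rfl⟩ F hF
  have hw : ∀ i, ∀ F ∈ FF, ∀ G ∈ FF, opW i F G ∈ FF := fun i F hF G hG =>
    hW0 _ ⟨i, rfl⟩ F hF G hG
  have hfam : Fam FF :=
    { id := hb 0 0
      const := fun k => hb 1 k
      fst := hb 2 0
      snd := hb 3 0
      comp := fun F hF G hG => hw 0 F hF G hG
      pair := fun F hF G hG => hw 1 F hF G hG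
      add := hb 4 0
      mul := hb 5 0
      cut := hb 6 0 }
  have hF : Ops FF :=
    { toFam := hfam
      hat := hu 0
      int := hu 1
      mem := fun b => by cases b; exacts [hb 7 0, hb 7 1]
      and := hw 2
      or := hw 3
      sub := hw 4
      max := hu 2
      ex := hu 3
      ball := hu 4
      lw := hu 5
      cp := hu 6
      fst' := hu 7
      snd' := hu 8
      jn := hb 8 0 }
  have hU : OpsU FF := ⟨hb 9 0, hb 10 0, hb 11 0, hb 12 0, hb 13 0, hb 14 0⟩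
  have hT : OpsT FF := ⟨fun b => by cases b; exacts [hb 15 0, hb 15 1], hb 16 0, hb 17 0⟩
  have hB : OpsB FF := ⟨hb 18 0, hb 19 0, hb 20 0⟩
  have hL : OpsL FF := ⟨hb 21 0, hb 22 0⟩
  have hA : OpsA FF := ⟨hb 23 0, hb 24 0, hb 25 0, hb 26 0, hb 27 0, hb 28 0, hb 29 0, hb 30 0,
    hb 31 0⟩
  have hC : OpsC FF := ⟨fun c => hb 32 c, hb 33 0⟩
  have hN : OpsN FF := ⟨hb 34 0, hb 35 0, hb 36 0, hb 37 0, hb 38 0, hb 39 0⟩
  have hR : OpsR FF := ⟨hb 40 0, hb 41 0, hu 11⟩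
  have hG0 := base0 hF (hu 10)
  obtain ⟨a, ha0⟩ := exists_cof hF hG0 (gen_countable hc _)
  obtain ⟨u, hu1, hu2⟩ := exists_enum hG0.mdl (gen_countable hc _)
  obtain ⟨γ, hγ, hG1⟩ := force0 hF hU hT hB hc (hu 9) hG0 ha0 hu1
  have h1 := Sig.memG hF hG1 (fun x hx => hx.1)
  obtain ⟨M, q, Xs, C⟩ := exists_chain hF hU hT hB hL hc (hu 9) hG1
    ⟨fun x hx => hx.1, h1.1, h1.2⟩ ha0
  have hM := (C.good 0).mdl
  have ha := ha0.weak (gen_sub hM (C.sub 0 (C.iota 0)))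
  obtain ⟨v, V, h2, h3, h4, h5⟩ := fm_noind hF hT hB hN C ha hγ hM
  exact ⟨_, fm_rca hF hU hM Xs C.good C.mono, fm_bsigma hF hU hT hC C ha hM,
    fm_complete hF hT hB hA C ha hM, fm_nodom hF hU hT hB hN C ha hγ hM,
    fm_nocoh hF hU hT hB hR C ha0 hγ hu2 hM,
    fun h => h5 (h bddF bddF_sigma 0 v V h2 h3 h4), fun h => h5 (h bddF bddF_arith 0 v V h2 h3 h4)⟩

end Pool.Agent.H965Z.Dens
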