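import Pool.Agent.H965Z.Dens.Tools

/-!
The abstract forcing construction along a cofinal sequence.
-/

namespace Pool.Agent.H965Z.Dens

open Function Filter Pool.Agent.Helper317.CADS

variable {FF : Set (ℕ → ℕ)} {I M X : Set H}

/-- `y` is accepted at a stage `≤ b` with the join of `x` and `s` as oracle -/
def conv (F : ℕ → ℕ) (b x s y : ℕ) : Prop :=
  ∃ c ≤ b, F (Nat.pair y (Nat.pair c (jn c x s))) = 1

open Classical in
/-- number of accepted `y < m` -/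
noncomputable def ncv (F : ℕ → ℕ) (m b x s : ℕ) : ℕ :=
  ((Finset.range m).filter (conv F b x s)).card

theorem cpc_congr {P Q : ℕ → Prop} {b : ℕ} (h : ∀ i < b, P i ↔ Q i) : cpc P b = cpc Q b := by
  refine Nat.eq_of_testBit_eq fun i => ?_
  rw [Bool.eq_iff_iff, testBit_cpc, testBit_cpc]
  exact and_congr_right fun hi => h i hi

theorem jn_congr {c x x' s s' : ℕ} (h1 : agr c x x') (h2 : agr c s s') :
    jn c x s = jn c x' s' := by
  unfold jn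
  refine cpc_congr fun i hi => ?_
  have h3 : i / 2 < c := by omega
  rw [h1 _ h3, h2 _ h3]

theorem conv_congr {F : ℕ → ℕ} {b x x' s s' y : ℕ} (h1 : agr b x x') (h2 : agr b s s') :
    conv F b x s y ↔ conv F b x' s' y := by
  unfold conv
  refine exists_congr fun c => and_congr_right fun hc => ?_
  rw [jn_congr (h1.mono hc) (h2.mono hc)]

theorem conv_mono {F : ℕ → ℕ} {b b' x s y : ℕ} (h : conv F b x s y) (hb : b ≤ b') :
    conv F b' x s y := by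
  obtain ⟨c, h1, h2⟩ := h
  exact ⟨c, h1.trans hb, h2⟩

theorem ncv_le (F : ℕ → ℕ) (m b x s : ℕ) : ncv F m b x s ≤ m := by
  classical
  unfold ncv
  exact (Finset.card_filter_le _ _).trans (by simp)

theorem ncv_congr {F : ℕ → ℕ} {m b x x' s s' : ℕ} (h1 : agr b x x') (h2 : agr b s s') :
    ncv F m b x s = ncv F m b x' s' := by
  unfold ncv
  congr 1
  ext y
  simp only [Finset.mem_filter, conv_congr h1 h2]

theorem ncv_dec {F : ℕ → ℕ} {m b b' x s s' k y : ℕ} (h1 : k ≤ ncv F m b x s)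
    (h2 : ¬ k + 1 ≤ ncv F m b' x s') (hb : b ≤ b') (hs : agr b s s') (hy : y < m)
    (h3 : conv F b' x s' y) : conv F b x s' y := by
  classical
  by_contra h4
  apply h2
  rw [ncv_congr (fun _ _ => rfl) hs] at h1
  refine Nat.succ_le_of_lt (h1.trans_lt ?_)
  unfold ncv
  refine Finset.card_lt_card ⟨fun z hz => ?_, fun h5 => h4 ?_⟩
  · rw [Finset.mem_filter] at hz ⊢
    exact ⟨hz.1, conv_mono hz.2 hb⟩
  · exact (Finset.mem_filter.1 (h5 (Finset.mem_filter.2 ⟨Finset.mem_range.2 hy, h3⟩))).2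

/-- `v = (m, (z, ((l, s), k)))` -/
noncomputable def opCv (F : ℕ → ℕ) : ℕ → ℕ := chi fun v =>
  v.unpair.2.unpair.2.unpair.2 ≤ ncv F v.unpair.1 v.unpair.2.unpair.2.unpair.1.unpair.1
    v.unpair.2.unpair.1 v.unpair.2.unpair.2.unpair.1.unpair.2

theorem maxlem (hF : Ops FF) (hU : OpsU FF) (hT : OpsT FF) (hG : Good FF I M X) {ξ : ℕ → ℕ}
    (hξ : Rep I X ξ) {F : ℕ → ℕ} (hcv : opCv F ∈ FF) {m : ℕ → ℕ} (hm : (m : H) ∈ M)
    (Adm : ℕ → ℕ → ℕ → ℕ → Prop)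
    (hsig : Sig FF I M X
      (IP fun n w => Adm n w.unpair.2 w.unpair.1.unpair.1 w.unpair.1.unpair.2))
    (h0 : ∃ l s : ℕ → ℕ, (l : H) ∈ I ∧ (s : H) ∈ I ∧ Ev fun n => Adm n 0 (l n) (s n)) :
    ∃ k l s : ℕ → ℕ, (l : H) ∈ M ∧ (s : H) ∈ M ∧
      (Ev fun n => k n ≤ m n ∧ Adm n (k n) (l n) (s n)) ∧
      ∀ l' s' : ℕ → ℕ, (l' : H) ∈ I → (s' : H) ∈ I →
        (Ev fun n => Adm n (k n + 1) (l' n) (s' n) ∧ l n ≤ l' n ∧ agr (l n) (s n) (s' n)) →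
        Ev fun n => ∀ y < m n, conv F (l' n) (ξ n) (s' n) y → conv F (l n) (ξ n) (s' n) y := by
  have hL : (fun v : ℕ => v.unpair.2.unpair.1.unpair.1) ∈ FF :=
    hF.comp _ hF.fst _ (hF.comp _ hF.fst _ hF.snd)
  have h1 := sig_bind hF hT hG (del_X hF hG) hξ hL (constM hG.mdl 0) (sigI_chi hF hG hcv hm)
  have h2 : Sig FF I M X (IP fun n w => Adm n w.unpair.2 w.unpair.1.unpair.1 w.unpair.1.unpair.2 ∧
      w.unpair.2 ≤ ncv F (m n) w.unpair.1.unpair.1 (ξ n) w.unpair.1.unpair.2) := by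
    refine sigI_and hF hG hsig (sigI_congr h1 (ev_of_forall fun n w => ?_))
    simp only [Nat.unpair_pair]
    rw [ncv_congr (agr_mod _ _) (fun _ _ => rfl)]
  have h3 := sigI_ex hF hG h2
  have h4 : ¬ ∀ a ∈ M, (∃ u ∈ I, IP (fun n w => Adm n w.unpair.2 w.unpair.1.unpair.1
      w.unpair.1.unpair.2 ∧
      w.unpair.2 ≤ ncv F (m n) w.unpair.1.unpair.1 (ξ n) w.unpair.1.unpair.2) (pp u a)) →
      ∃ u ∈ I, IP (fun n w => Adm n w.unpair.2 w.unpair.1.unpair.1 w.unpair.1.unpair.2 ∧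
      w.unpair.2 ≤ ncv F (m n) w.unpair.1.unpair.1 (ξ n) w.unpair.1.unpair.2)
        (pp u (ap2 (fun a b => a + b) a (st 1))) := by
    intro hs
    have h5 := sig_induction hF hU hG h3 (by
      obtain ⟨l, s, hl, hs, h6⟩ := h0
      refine ⟨_, pairI hG hl hs, ?_⟩
      rw [st_coe, pp_coe, ip_coe]
      refine h6.mp fun n hn => ?_
      simp only [Nat.unpair_pair]
      exact ⟨hn, Nat.zero_le _⟩) hs _ (addM hF hG.mdl hm (constM hG.mdl 1))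
    obtain ⟨u, _, h6⟩ := h5
    obtain ⟨u, rfl⟩ := u.rep
    rw [pp_coe, ip_coe] at h6
    refine ev_const.1 (h6.mp (q := fun _ => False) fun n hn => ?_)
    simp only [Nat.unpair_pair] at hn
    have := ncv_le F (m n) (u n).unpair.1 (ξ n) (u n).unpair.2
    omega
  push Not at h4
  obtain ⟨k, hk, ⟨u, hu, h5⟩, h6⟩ := h4
  obtain ⟨k, rfl⟩ := k.rep
  obtain ⟨u, rfl⟩ := u.rep
  rw [pp_coe, ip_coe] at h5
  have h7 := sigI_sub hF hG h2 hT.swap hk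
  obtain ⟨g, hg, h8⟩ := witnessI hF hG h7 hu (h5.mp fun n hn => by
    simpa only [Nat.unpair_pair] using hn)
  simp only [Nat.unpair_pair] at h8
  refine ⟨k, fun n => (g n).unpair.1, fun n => (g n).unpair.2, apM hG.mdl hF.fst hg,
    apM hG.mdl hF.snd hg, h8.mp fun n hn => ⟨hn.2.trans (ncv_le _ _ _ _ _), hn.1⟩, ?_⟩
  intro l' s' hl' hs' h9
  have h10 := h6 _ (pairI hG hl' hs')
  rw [st_coe, ap2_coe, pp_coe, ip_coe, ← ev_not] at h10
  refine ((h8.and h9).and h10).mp fun n ⟨⟨h11, h12⟩, h13⟩ y hy h14 => ?_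
  simp only [Nat.unpair_pair, not_and] at h13
  exact ncv_dec h11.2 (h13 h12.1) h12.2.1 h12.2.2 hy h14

/-- trace of an internal set -/
def tr (I : Set H) (γ : ℕ → ℕ) : Set H := {x | x ∈ I ∧ mem x (γ : H)}

theorem rep_tr (γ : ℕ → ℕ) : Rep I (tr I γ) γ := fun _ hf =>
  ⟨fun h => mem_coe.1 h.2, fun h => ⟨hf, mem_coe.2 h⟩⟩

theorem seg_join (hG : Good FF I M X) {G : Set H} {ξ γ c : ℕ → ℕ} (hξ : Rep I X ξ)
    (hγ : Rep I G γ) (hc : (c : H) ∈ I) :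
    Seg (join X G) (c : H) ((fun n => jn (c n) (ξ n) (γ n) : ℕ → ℕ) : H) := by
  have e : ((fun n => jn (c n) (ξ n) (γ n) : ℕ → ℕ) : H) =
      ap (fun w : ℕ => jn w.unpair.1 w.unpair.2.unpair.1 w.unpair.2.unpair.2)
        (pp (c : H) (pp (ξ : H) (γ : H))) := by
    simp only [ap_coe, pp_coe, Nat.unpair_pair]
  rw [e]
  intro x
  have hr : ∀ {A : Set H} {α : ℕ → ℕ}, Rep I A α → ∀ y : H, y < c → (mem y (α : H) ↔ y ∈ A) := by
    intro A α hα y hy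
    have h1 := hG.down _ hc _ hy.le
    obtain ⟨y, rfl⟩ := y.rep
    exact (hα y h1).symm
  rcases par_cases x with hx | hx
  · rw [hx, jn_two, mem_join_two]
    exact and_congr_right fun h => hr hξ _ (lt_of_two_lt h)
  · rw [hx, jn_twoS, mem_join_twoS]
    exact and_congr_right fun h => hr hγ _ (lt_of_twoS_lt h)

theorem forcing (hF : Ops FF) (hU : OpsU FF) (hT : OpsT FF) (hc : FF.Countable)
    (hcv : ∀ F ∈ FF, opCv F ∈ FF) (hG : Good FF I M X) {a : ℕ → ℕ → ℕ} (ha : Cof I M a)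
    (Adm : ℕ → ℕ → ℕ → ℕ → ℕ → ℕ → ℕ → Prop)
    (hsig : ∀ r (l0 s0 : ℕ → ℕ), (l0 : H) ∈ M → (s0 : H) ∈ M → Sig FF I M X
      (IP fun n w => Adm r n (l0 n) (s0 n) w.unpair.2 w.unpair.1.unpair.1 w.unpair.1.unpair.2))
    (hex : ∀ r (l0 s0 : ℕ → ℕ), (l0 : H) ∈ M → (s0 : H) ∈ M →
      ∃ l s : ℕ → ℕ, (l : H) ∈ I ∧ (s : H) ∈ I ∧ Ev fun n => Adm r n (l0 n) (s0 n) 0 (l n) (s n))
    (hext : ∀ r, Ev fun n => ∀ l0 s0 k l s, Adm r n l0 s0 k l s →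
      l0 ≤ l ∧ a r n ≤ l ∧ agr l0 s0 s)
    (hper : ∀ k l s : ℕ → ℕ → ℕ, (∀ r, (l r : H) ∈ I) →
      (∀ r, Ev fun n => k r n ≤ a r n ∧
        Adm r n (l r n) (s r n) (k r n) (l (r + 1) n) (s (r + 1) n)) →
      ∀ r r', r < r' → Ev fun n => Adm r n (l r n) (s r n) (k r n + 1) (l r' n) (s r' n)) :
    ∃ (k l s : ℕ → ℕ → ℕ) (γ : ℕ → ℕ), (∀ r, (l r : H) ∈ M) ∧
      (∀ r, Ev fun n => k r n ≤ a r n ∧
        Adm r n (l r n) (s r n) (k r n) (l (r + 1) n) (s (r + 1) n)) ∧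
      (∀ r, Ev fun n => agr (l r n) (s r n) (γ n)) ∧ Good FF I M (join X (tr I γ)) := by
  obtain ⟨ξ, hξ⟩ := del_rep hF hG ha (del_X hF hG)
  obtain ⟨en, hen⟩ := hc.exists_eq_range ⟨_, hF.id⟩
  have henF : ∀ i, en i ∈ FF := fun i => by rw [hen]; exact ⟨i, rfl⟩
  obtain ⟨f, hf⟩ := dep_seq (α := (ℕ → ℕ) × (ℕ → ℕ) × (ℕ → ℕ))
    (fun c => (c.2.1 : H) ∈ M ∧ (c.2.2 : H) ∈ M)
    (fun r c d => (Ev fun n => d.1 n ≤ a r n ∧
        Adm r n (c.2.1 n) (c.2.2 n) (d.1 n) (d.2.1 n) (d.2.2 n)) ∧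
      ∀ l' s' : ℕ → ℕ, (l' : H) ∈ I → (s' : H) ∈ I →
        (Ev fun n => Adm r n (c.2.1 n) (c.2.2 n) (d.1 n + 1) (l' n) (s' n) ∧ d.2.1 n ≤ l' n ∧
          agr (d.2.1 n) (d.2.2 n) (s' n)) →
        Ev fun n => ∀ y < a r n, conv (en r.unpair.1) (l' n) (ξ n) (s' n) y →
          conv (en r.unpair.1) (d.2.1 n) (ξ n) (s' n) y)
    (fun _ => 0, fun _ => 0, fun _ => 0) ⟨constM hG.mdl 0, constM hG.mdl 0⟩
    (fun r c hc => by
      obtain ⟨k, l, s, h1, h2, h3, h4⟩ := maxlem hF hU hT hG hξ (hcv _ (henF r.unpair.1)) (ha.mem r)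
        (fun n k l s => Adm r n (c.2.1 n) (c.2.2 n) k l s) (hsig r _ _ hc.1 hc.2)
        (hex r _ _ hc.1 hc.2)
      exact ⟨(k, l, s), ⟨h1, h2⟩, h3, h4⟩)
  set k : ℕ → ℕ → ℕ := fun r => (f (r + 1)).1 with hk
  set l : ℕ → ℕ → ℕ := fun r => (f r).2.1 with hl
  set s : ℕ → ℕ → ℕ := fun r => (f r).2.2 with hs
  have hlM : ∀ r, (l r : H) ∈ M := fun r => (hf r).1.1
  have hsM : ∀ r, (s r : H) ∈ M := fun r => (hf r).1.2
  have hA : ∀ r, Ev fun n => k r n ≤ a r n ∧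
      Adm r n (l r n) (s r n) (k r n) (l (r + 1) n) (s (r + 1) n) := fun r => (hf r).2.1
  have hE : ∀ r, Ev fun n => l r n ≤ l (r + 1) n ∧ a r n ≤ l (r + 1) n ∧
      agr (l r n) (s r n) (s (r + 1) n) := fun r =>
    ((hA r).and (hext r)).mp fun n hn => hn.2 _ _ _ _ _ hn.1.2
  obtain ⟨γ, hγ⟩ := exists_glue l s fun r => (hE r).mp fun n hn => ⟨hn.1, hn.2.2⟩
  have hlm : ∀ r r', r ≤ r' → Ev fun n => l r n ≤ l r' n := by
    intro r r' h
    induction r', h using Nat.le_induction with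
    | base => exact ev_of_forall fun n => le_rfl
    | succ j _ ih => exact (ih.and (hE j)).mp fun n hn => hn.1.trans hn.2.1
  have hP := hper k l s (fun r => hG.sub _ (hlM r)) hA
  refine ⟨k, l, s, γ, hlM, hA, hγ, Good.join hF hG (fun x hx => hx.1) ?_ ?_⟩
  · intro b hb
    obtain ⟨b, rfl⟩ := b.rep
    refine ⟨_, ?_, seg_of_rep hG (rep_tr γ) (hG.sub _ hb)⟩
    obtain ⟨t, ht⟩ := ha.cof b (hG.sub _ hb)
    refine memH_congr (cutM hF hG.mdl hb (hsM (t + 1))) ?_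
    refine ((ht.and (hE t)).and (hγ (t + 1))).mp fun n ⟨⟨h1, h2⟩, h3⟩ => ?_
    refine Nat.eq_of_testBit_eq fun i => ?_
    simp only [Nat.testBit_mod_two_pow]
    by_cases hi : i < b n
    · rw [h3 i (by omega)]
    · simp [hi]
  · intro F hFF m hm
    obtain ⟨m, rfl⟩ := m.rep
    obtain ⟨i, rfl⟩ : ∃ i, en i = F := by rw [hen] at hFF; exact hFF
    obtain ⟨t0, ht0⟩ := ha.cof' hm
    set r := Nat.pair i t0 with hr
    have hri : r.unpair.1 = i := by rw [hr, Nat.unpair_pair]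
    have hmr := ht0 r (Nat.right_le_pair _ _)
    refine ⟨_, hG.sub _ (hlM (r + 1)), fun b hb y hy hT => ?_⟩
    obtain ⟨b, rfl⟩ := b.rep
    obtain ⟨y, rfl⟩ := y.rep
    rw [T_iff (seg_join hG hξ (rep_tr γ) hb)] at hT
    simp only [ap_coe, pp_coe, st_coe, eq_coe] at hT
    rw [lt_coe] at hy
    obtain ⟨t1, ht1⟩ := ha.cof' hb
    set r' := max t1 r + 1 with hr'
    have hbr : Ev fun n => b n ≤ l r' n :=
      ((ht1 (max t1 r) (le_max_left _ _)).and (hE (max t1 r))).mp fun n hn => by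
        have := hn.2.2.1
        exact hn.1.le.trans this
    have hrr : r < r' := Nat.lt_succ_of_le (le_max_right _ _)
    have h1 := (hf r).2.2 (l r') (s r') (hG.sub _ (hlM r')) (hG.sub _ (hsM r'))
      (((hP r r' hrr).and (hlm (r + 1) r' hrr)).and ((hγ (r + 1)).and (hγ r')) |>.mp
        fun n ⟨⟨h2, h3⟩, h4, h5⟩ => ⟨h2, h3, h4.trans h5.symm h3⟩)
    rw [hri] at h1
    have h2 : Ev fun n => conv (en i) (l (r + 1) n) (ξ n) (γ n) (y n) := by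
      refine ((((h1.and hT).and (hy.and hmr)).and (hbr.and (hγ r'))).and
        (hlm (r + 1) r' hrr)).mp fun n ⟨⟨⟨⟨h3, h4⟩, h5, h6⟩, h7, h8⟩, h9⟩ => ?_
      have h10 : conv (en i) (l r' n) (ξ n) (s r' n) (y n) :=
        (conv_congr (fun _ _ => rfl) h8).2 ⟨b n, h7, h4⟩
      exact (conv_congr (fun _ _ => rfl) (h8.mono h9)).1 (h3 _ (h5.trans h6) h10)
    obtain ⟨c, hc'⟩ := ev_ex.1 h2
    have hcI : (c : H) ∈ I := downI hG (hG.sub _ (hlM (r + 1))) (hc'.mp fun n hn => hn.1)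
    refine ⟨c, le_coe.2 (hc'.mp fun n hn => hn.1), ?_⟩
    rw [T_iff (seg_join hG hξ (rep_tr γ) hcI)]
    simp only [ap_coe, pp_coe, st_coe, eq_coe]
    exact hc'.mp fun n hn => hn.2

end Pool.Agent.H965Z.Dens
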