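import Pool.Agent.H965Z.Dens.Base

/-!
Adding a limit of a Cauchy sequence.
-/

namespace Pool.Agent.H965Z.Dens

open Function Filter Pool.Agent.Helper317.CADS

variable {FF : Set (ℕ → ℕ)} {I M X : Set H}

/-- number of differences in `[lo, hi)` -/
def dif (a b lo hi : ℕ) : ℕ := ((Finset.Ico lo hi).filter fun x => a.testBit x ≠ b.testBit x).card

theorem dif_tri (a b c lo hi : ℕ) : dif a c lo hi ≤ dif a b lo hi + dif b c lo hi := by
  unfold dif
  refine le_trans (Finset.card_le_card ?_) (Finset.card_union_le _ _)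
  intro x hx
  simp only [Finset.mem_filter, Finset.mem_union] at hx ⊢
  by_cases h : a.testBit x = b.testBit x
  · exact Or.inr ⟨hx.1, h ▸ hx.2⟩
  · exact Or.inl ⟨hx.1, h⟩

theorem dif_comm (a b lo hi : ℕ) : dif a b lo hi = dif b a lo hi := by
  unfold dif
  congr 1
  ext x
  simp only [Finset.mem_filter, ne_comm]

theorem dif_split (a b lo mid hi : ℕ) : dif a b lo hi ≤ dif a b lo mid + dif a b mid hi := by
  unfold dif
  refine le_trans (Finset.card_le_card ?_) (Finset.card_union_le _ _)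
  intro x hx
  simp only [Finset.mem_filter, Finset.mem_union, Finset.mem_Ico] at hx ⊢
  rcases Nat.lt_or_ge x mid with h | h
  · exact Or.inl ⟨⟨hx.1.1, h⟩, hx.2⟩
  · exact Or.inr ⟨⟨h, hx.1.2⟩, hx.2⟩

theorem dif_lo (a b lo hi : ℕ) : dif a b lo hi ≤ dif a b 0 hi := by
  unfold dif
  refine Finset.card_le_card fun x hx => ?_
  simp only [Finset.mem_filter, Finset.mem_Ico] at hx ⊢
  exact ⟨⟨Nat.zero_le _, hx.1.2⟩, hx.2⟩

theorem dif_le (a b hi : ℕ) : dif a b 0 hi ≤ hi := by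
  unfold dif
  exact (Finset.card_filter_le _ _).trans (by simp)

theorem dif_congr {a a' b b' lo hi : ℕ} (h1 : agr hi a a') (h2 : agr hi b b') :
    dif a b lo hi = dif a' b' lo hi := by
  unfold dif
  congr 1
  ext x
  simp only [Finset.mem_filter, Finset.mem_Ico]
  refine and_congr_right fun hx => ?_
  rw [h1 x hx.2, h2 x hx.2]

theorem dif_eq_zero {a b lo hi : ℕ} (h : ∀ x, lo ≤ x → x < hi → a.testBit x = b.testBit x) :
    dif a b lo hi = 0 := by
  unfold dif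
  rw [Finset.card_eq_zero, Finset.filter_eq_empty_iff]
  intro x hx
  rw [Finset.mem_Ico] at hx
  exact fun h' => h' (h x hx.1 hx.2)

theorem dif_succ (a b x : ℕ) : dif a b 0 (x + 1) =
    dif a b 0 x + if a.testBit x ≠ b.testBit x then 1 else 0 := by
  unfold dif
  rw [Nat.Ico_succ_right_eq_insert_Ico (Nat.zero_le x), Finset.filter_insert]
  split_ifs with h
  · rw [Finset.card_insert_of_notMem (by simp)]
  · rfl

/-- code of the `n`-th column -/
noncomputable def colc (η n : ℕ) : ℕ := cpc (fun x => η.testBit (pr n x) = true) η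

theorem testBit_colc (η n x : ℕ) : (colc η n).testBit x = η.testBit (pr n x) := by
  unfold colc
  rw [Bool.eq_iff_iff, testBit_cpc]
  refine ⟨fun h => h.2, fun h => ⟨?_, h⟩⟩
  have h1 := Nat.ge_two_pow_of_testBit h
  have h2 : pr n x < 2 ^ pr n x := Nat.lt_two_pow_self
  have h3 := le_pr_right n x
  omega

/-- the `n`-th column of `Y` -/
def colS (I Y : Set H) (n : ℕ → ℕ) : Set H := {x | x ∈ I ∧ ap2 pr (n : H) x ∈ Y}

theorem del_col (hF : Ops FF) (hB : OpsB FF) (hG : Good FF I M X) {Y : Set H}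
    (hY : Del FF I M X Y) {n : ℕ → ℕ} (hn : (n : H) ∈ M) : Del FF I M X (colS I Y n) := by
  refine ⟨fun x hx => hx.1, ?_, ?_⟩
  · exact (Sig.sub hF hG hY.2.1 hB.pr hn).congr fun y hy => ⟨fun h => ⟨hy, h⟩, fun h => h.2⟩
  · exact (Sig.sub hF hG hY.2.2 hB.pr hn).congr fun y hy =>
      ⟨fun h h' => h h'.2, fun h h' => h ⟨hy, h'⟩⟩

theorem rep_col (hF : Ops FF) (hB : OpsB FF) (hG : Good FF I M X) {Y : Set H} {η : ℕ → ℕ}
    (hη : Rep I Y η) {m : ℕ → ℕ} (hm : (m : H) ∈ I) :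
    Rep I (colS I Y m) fun n => colc (η n) (m n) := by
  intro f hf
  simp only [testBit_colc]
  rw [← hη _ (prI hF hB hG hm hf)]
  exact ⟨fun h => by have := h.2; rwa [ap2_coe] at this, fun h => ⟨hf, by rwa [ap2_coe]⟩⟩

/-- admissible extensions for the second forcing -/
def AL (N K α l0 s0 k l s : ℕ) : Prop :=
  (l0 ≤ l ∧ N ≤ l ∧ agr l0 s0 s) ∧ 2 * l0 ≤ l ∧
    ∀ j, l0 ≤ j → j ≤ l → dif s α l0 j * K ≤ k * j

theorem AL_congr {N K α α' l0 s0 k l s : ℕ} (h : agr l α α') :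
    AL N K α l0 s0 k l s ↔ AL N K α' l0 s0 k l s := by
  unfold AL
  refine and_congr_right fun _ => and_congr_right fun _ => forall_congr' fun j =>
    forall_congr' fun _ => forall_congr' fun hj => ?_
  rw [dif_congr (fun _ _ => rfl) (h.mono hj)]

/-- follow `s0` below `l0` and `z` from there on -/
noncomputable def spl (l0 s0 z l : ℕ) : ℕ :=
  cpc (fun x => if x < l0 then s0.testBit x = true else z.testBit x = true) l

theorem AL_spl (N K α l0 s0 : ℕ) :
    AL N K α l0 s0 0 (N + 2 * l0) (spl l0 s0 (α % 2 ^ (N + 2 * l0)) (N + 2 * l0)) := by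
  refine ⟨⟨by omega, by omega, fun x hx => ?_⟩, by omega, fun j h1 h2 => ?_⟩
  · unfold spl
    rw [Bool.eq_iff_iff, testBit_cpc, if_pos hx]
    exact ⟨fun h => ⟨by omega, h⟩, fun h => h.2⟩
  · rw [dif_eq_zero, zero_mul, zero_mul]
    intro x h3 h4
    unfold spl
    rw [Bool.eq_iff_iff, testBit_cpc, if_neg (by omega), agr_mod _ _ x (by omega)]
    exact ⟨fun h => h.2, fun h => ⟨by omega, h⟩⟩

/-- the error after the stage `l1` -/
def Tail (K α l1 s1 l s : ℕ) : Prop :=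
  l1 ≤ l ∧ agr l1 s1 s ∧ dif s α l1 l * (3 * K) ≤ 2 * l ∧
    ∀ j, l1 ≤ j → j ≤ l → dif s α l1 j * K ≤ j

theorem tail_base (K α l1 s1 : ℕ) : Tail K α l1 s1 l1 s1 := by
  refine ⟨le_rfl, fun _ _ => rfl, ?_, fun j h1 h2 => ?_⟩
  · rw [dif_eq_zero fun x h1 h2 => by omega]; omega
  · rw [dif_eq_zero fun x h1 h2 => by omega]; omega

theorem tail_step {K α l1 s1 l s N a D β k l' s' : ℕ} (h : Tail K α l1 s1 l s)
    (h' : AL N ((a + 1) * D) β l s k l' s') (hk : k ≤ a) (hD : 6 * K ≤ D)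
    (hb : ∀ j, l ≤ j → j ≤ l' → dif α β 0 j * (6 * K) ≤ j) : Tail K α l1 s1 l' s' := by
  obtain ⟨h1, h2, h3, h4⟩ := h
  obtain ⟨⟨g1, -, g2⟩, g3, g4⟩ := h'
  have hblock : ∀ j, l ≤ j → j ≤ l' → dif s' α l j * (3 * K) ≤ j := by
    intro j k1 k2
    have e1 := g4 j k1 k2
    have e2 := hb j k1 k2
    have e3 := dif_tri s' β α l j
    have e4 := dif_lo β α l j
    rw [dif_comm β α 0 j] at e4
    have e5 : dif s' β l j * D ≤ j := by
      have e6 : (a + 1) * (dif s' β l j * D) ≤ (a + 1) * j := by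
        have : k * j ≤ (a + 1) * j := Nat.mul_le_mul_right _ (by omega)
        nlinarith
      exact Nat.le_of_mul_le_mul_left e6 (by omega)
    have e7 : dif s' β l j * (6 * K) ≤ j := (Nat.mul_le_mul_left _ hD).trans e5
    have e8 : dif s' α l j * (6 * K) ≤ (dif s' β l j + dif α β 0 j) * (6 * K) :=
      Nat.mul_le_mul_right _ (by omega)
    nlinarith
  have e0 : dif s' α l1 l = dif s α l1 l := dif_congr g2.symm fun _ _ => rfl
  have hall : ∀ j, l ≤ j → j ≤ l' → dif s' α l1 j * (3 * K) ≤ 2 * l + j := by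
    intro j k1 k2
    have e1 := dif_split s' α l1 l j
    have e2 := hblock j k1 k2
    have e3 : dif s' α l1 j * (3 * K) ≤ (dif s α l1 l + dif s' α l j) * (3 * K) :=
      Nat.mul_le_mul_right _ (by omega)
    nlinarith
  refine ⟨h1.trans g1, h2.trans g2 h1, ?_, fun j k1 k2 => ?_⟩
  · have := hall l' g1 le_rfl
    omega
  · rcases Nat.le_total j l with k3 | k3
    · rw [dif_congr (g2.symm.mono k3) fun _ _ => rfl]
      exact h4 j k1 k3
    · have := hall j k3 k2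
      nlinarith

theorem AL_tail {N K α l0 s0 k l1 s1 l s : ℕ} (h : AL N K α l0 s0 k l1 s1)
    (h' : Tail K α l1 s1 l s) : AL N K α l0 s0 (k + 1) l s := by
  obtain ⟨⟨h1, h2, h3⟩, h4, h5⟩ := h
  obtain ⟨g1, g2, -, g4⟩ := h'
  refine ⟨⟨h1.trans g1, h2.trans g1, h3.trans g2 h1⟩, h4.trans g1, fun j k1 k2 => ?_⟩
  rcases Nat.le_total j l1 with k3 | k3
  · rw [dif_congr (g2.symm.mono k3) fun _ _ => rfl]
    have := h5 j k1 k3
    nlinarith
  · have e1 := dif_split s α l0 l1 j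
    have e2 := h5 l1 h1 le_rfl
    rw [dif_congr g2 fun _ _ => rfl] at e2
    have e3 := g4 j k3 k2
    have e4 : dif s α l0 j * K ≤ (dif s α l0 l1 + dif s α l1 j) * K := Nat.mul_le_mul_right _ e1
    have e5 : k * l1 ≤ k * j := Nat.mul_le_mul_left _ k3
    nlinarith

theorem tail_fin {K α l1 s1 l s γ j D : ℕ} (h : Tail K α l1 s1 l s) (hγ : agr l s γ)
    (hj : j ≤ l) (hi : l1 * K ≤ j) (hD : 2 * D < K) : dif α γ 0 j * D ≤ j := by
  have e0 : l1 ≤ j := le_trans (Nat.le_mul_of_pos_right _ (by omega)) hi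
  have e1 := h.2.2.2 j e0 hj
  rw [dif_congr (hγ.mono hj) fun _ _ => rfl] at e1
  have e2 := dif_split γ α 0 l1 j
  have e3 := dif_le γ α l1
  rw [dif_comm]
  have e4 : dif γ α 0 j * K ≤ (l1 + dif γ α l1 j) * K := Nat.mul_le_mul_right _ (by omega)
  have e5 : dif γ α 0 j * (2 * D) ≤ dif γ α 0 j * K := Nat.mul_le_mul_left _ hD.le
  nlinarith

/-- closure conditions for the limit forcing -/
structure OpsL (FF : Set (ℕ → ℕ)) : Prop where
  chk : chi (fun v : ℕ => AL v.unpair.1.unpair.1 v.unpair.1.unpair.2.unpair.1 v.unpair.2.unpair.1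
    v.unpair.1.unpair.2.unpair.2.unpair.1 v.unpair.1.unpair.2.unpair.2.unpair.2
    v.unpair.2.unpair.2.unpair.2 v.unpair.2.unpair.2.unpair.1.unpair.1
    v.unpair.2.unpair.2.unpair.1.unpair.2) ∈ FF
  spl : (fun v : ℕ => spl v.unpair.1.unpair.1 v.unpair.1.unpair.2 v.unpair.2.unpair.1
    v.unpair.2.unpair.2) ∈ FF

/-- the columns `a t` form a Cauchy sequence -/
def CI (I : Set H) (a : ℕ → ℕ → ℕ) (η : ℕ → ℕ) : Prop :=
  ∀ D : ℕ → ℕ, (D : H) ∈ I → ∃ t0, ∀ t t', t0 ≤ t → t0 ≤ t' → ∃ i : ℕ → ℕ, (i : H) ∈ I ∧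
    ∀ j : ℕ → ℕ, (j : H) ∈ I → Ev fun n => i n ≤ j n →
      dif (colc (η n) (a t n)) (colc (η n) (a t' n)) 0 (j n) * D n ≤ j n

/-- `γ` is a cluster point of the columns `a t` -/
def LI (I : Set H) (a : ℕ → ℕ → ℕ) (η γ : ℕ → ℕ) : Prop :=
  ∀ D : ℕ → ℕ, (D : H) ∈ I → ∀ t1, ∃ t, t1 ≤ t ∧ ∃ i : ℕ → ℕ, (i : H) ∈ I ∧
    ∀ j : ℕ → ℕ, (j : H) ∈ I → Ev fun n => i n ≤ j n →
      dif (colc (η n) (a t n)) (γ n) 0 (j n) * D n ≤ j n

theorem forceL (hF : Ops FF) (hU : OpsU FF) (hT : OpsT FF) (hB : OpsB FF) (hL : OpsL FF)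
    (hc : FF.Countable) (hcv : ∀ F ∈ FF, opCv F ∈ FF) (hG : Good FF I M X)
    {a : ℕ → ℕ → ℕ} (ha : Cof I M a) {Y : Set H} (hY : Del FF I M X Y) {η : ℕ → ℕ}
    (hη : Rep I Y η) (hC : CI I a η) :
    ∃ γ, LI I a η γ ∧ Good FF I M (join X (tr I γ)) := by
  obtain ⟨D, hD0, hDs⟩ : ∃ D : ℕ → ℕ → ℕ, D 0 = (fun _ => 1) ∧
      ∀ r, D (r + 1) = fun n => 6 * ((a r n + 1) * D r n) :=
    ⟨fun r => Nat.rec (fun _ => 1) (fun r d n => 6 * ((a r n + 1) * d n)) r, rfl, fun r => rfl⟩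
  have hDM : ∀ r : ℕ, ((D r : ℕ → ℕ) : H) ∈ M := by
    intro r
    induction r with
    | zero => rw [hD0]; exact constM hG.mdl 1
    | succ r ih =>
      rw [hDs]
      exact mulM hF hG.mdl (constM hG.mdl 6)
        (mulM hF hG.mdl (addM hF hG.mdl (ha.mem r) (constM hG.mdl 1)) ih)
  have hDpos : ∀ r n, 1 ≤ D r n := by
    intro r n
    induction r with
    | zero => rw [hD0]
    | succ r ih =>
      rw [hDs]
      show 1 ≤ 6 * ((a r n + 1) * D r n)
      have : 1 * 1 ≤ (a r n + 1) * D r n := Nat.mul_le_mul (by omega) ih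
      omega
  have hDmono : ∀ q r n, q ≤ r → D q n ≤ D r n := by
    intro q r n h
    induction r, h using Nat.le_induction with
    | base => exact le_rfl
    | succ r _ ih =>
      rw [hDs]
      show D q n ≤ 6 * ((a r n + 1) * D r n)
      have : 1 * D r n ≤ (a r n + 1) * D r n := Nat.mul_le_mul_right _ (by omega)
      omega
  have hKM : ∀ r, ((fun n => (a r n + 1) * D r n : ℕ → ℕ) : H) ∈ M := fun r =>
    mulM hF hG.mdl (addM hF hG.mdl (ha.mem r) (constM hG.mdl 1)) (hDM r)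
  choose T0 hT0 using fun r => hC (D (r + 1)) (hG.sub _ (hDM (r + 1)))
  let t : ℕ → ℕ := fun r => r + ∑ q ∈ Finset.range (r + 1), T0 q
  have ht : ∀ q r, q ≤ r → T0 q ≤ t r := by
    intro q r h
    have := Finset.single_le_sum (f := T0) (fun _ _ => Nat.zero_le _)
      (Finset.mem_range.2 (Nat.lt_succ_of_le h))
    exact this.trans (Nat.le_add_left _ _)
  have hth : ∀ q r, ∃ ν, q ≤ r → ∀ ν', ν ≤ ν' → ∀ j : ℕ → ℕ, (j : H) ∈ I → Ev fun n => a ν' n ≤ j n →
      dif (colc (η n) (a (t q) n)) (colc (η n) (a (t r) n)) 0 (j n) * D (q + 1) n ≤ j n := by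
    intro q r
    by_cases h : q ≤ r
    · obtain ⟨i, hi, h1⟩ := hT0 q (t q) (t r) (ht q q le_rfl) (ht q r h)
      obtain ⟨ν, hν⟩ := ha.cof' hi
      exact ⟨ν, fun _ ν' h2 j hj => ((h1 j hj).and (hν ν' h2)).mp fun n hn h3 =>
        hn.1 (hn.2.le.trans h3)⟩
    · exact ⟨0, fun h' => absurd h' h⟩
  choose ν0 hν0 using hth
  let ν : ℕ → ℕ := fun r => r + ∑ q ∈ Finset.range (r + 1), ν0 q (r + 1)
  have hν : ∀ q r, q ≤ r → ν0 q (r + 1) ≤ ν r := by
    intro q r h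
    have := Finset.single_le_sum (f := fun q => ν0 q (r + 1)) (fun _ _ => Nat.zero_le _)
      (Finset.mem_range.2 (Nat.lt_succ_of_le h))
    exact this.trans (Nat.le_add_left _ _)
  have hνr : ∀ r, r ≤ ν r := fun r => Nat.le_add_right _ _
  have hrep : ∀ r, Rep I (colS I Y (a (t r))) fun n => colc (η n) (a (t r) n) := fun r =>
    rep_col hF hB hG hη (hG.sub _ (ha.mem _))
  have hdel : ∀ r, Del FF I M X (colS I Y (a (t r))) := fun r => del_col hF hB hG hY (ha.mem _)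
  have htail : ∀ k l s : ℕ → ℕ → ℕ, (∀ r, (l r : H) ∈ I) →
      (∀ r, Ev fun n => k r n ≤ a r n ∧ AL (a (ν r) n) ((a r n + 1) * D r n)
        (colc (η n) (a (t r) n)) (l r n) (s r n) (k r n) (l (r + 1) n) (s (r + 1) n)) →
      ∀ q r, q < r → Ev fun n => Tail ((a q n + 1) * D q n) (colc (η n) (a (t q) n))
        (l (q + 1) n) (s (q + 1) n) (l r n) (s r n) := by
    intro k l s hl h q r hr
    induction r, hr using Nat.le_induction with
    | base => exact ev_of_forall fun n => tail_base _ _ _ _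
    | succ r hr ih =>
      obtain ⟨r, rfl⟩ : ∃ r', r = r' + 1 := ⟨r - 1, by omega⟩
      have h1 := ev_forall_I hG (P := fun n j => a (ν r) n ≤ j →
        dif (colc (η n) (a (t q) n)) (colc (η n) (a (t (r + 1)) n)) 0 j * D (q + 1) n ≤ j)
        (hl (r + 1 + 1))
        (hν0 q (r + 1) (by omega) (ν r) (hν q r (by omega)))
      refine ((ih.and (h (r + 1))).and (h1.and (h r))).mp fun n ⟨⟨h2, h3⟩, h4, h5⟩ => ?_
      have e : D (q + 1) n = 6 * ((a q n + 1) * D q n) := by rw [hDs]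
      refine tail_step h2 h3.2 h3.1 (e ▸ hDmono (q + 1) (r + 1) n (by omega)) fun j k1 k2 => ?_
      exact e ▸ h4 j k2 (h5.2.1.2.1.trans k1)
  have hLs : (fun v : ℕ => v.unpair.2.unpair.1.unpair.1) ∈ FF :=
    hF.comp _ hF.fst _ (hF.comp _ hF.fst _ hF.snd)
  obtain ⟨k, l, s, γ, hl, hA, hγ, hgood⟩ := forcing hF hU hT hc hcv hG ha
    (fun r n l0 s0 k l s => AL (a (ν r) n) ((a r n + 1) * D r n) (colc (η n) (a (t r) n)) l0 s0 k l s)
    (fun r l0 s0 h1 h2 => by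
      have h3 := sig_bind hF hT hG (hdel r) (hrep r) hLs (constM hG.mdl 0) (sigI_chi hF hG hL.chk
        (pairM hG.mdl (ha.mem (ν r)) (pairM hG.mdl (hKM r) (pairM hG.mdl h1 h2))))
      refine sigI_congr h3 (ev_of_forall fun n w => ?_)
      simp only [Nat.unpair_pair]
      exact AL_congr (agr_mod _ _))
    (fun r l0 s0 h1 h2 => by
      have h3 := addM hF hG.mdl (ha.mem (ν r)) (mulM hF hG.mdl (constM hG.mdl 2) h1)
      have h4 := del_segM hF hG (hdel r) (hrep r) h3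
      have h5 := apM hG.mdl hL.spl (pairM hG.mdl (pairM hG.mdl h1 h2) (pairM hG.mdl h4 h3))
      refine ⟨_, _, hG.sub _ h3, hG.sub _ h5, ev_of_forall fun n => ?_⟩
      simp only [Nat.unpair_pair]
      exact AL_spl _ _ _ _ _)
    (fun r => (ha.le (hνr r)).mp fun n hn l0 s0 k l s h => ⟨h.1.1, hn.trans h.1.2.1, h.1.2.2⟩)
    (fun k l s hl h r r' hr => ((h r).and (htail k l s hl h r r' hr)).mp fun n hn =>
      AL_tail hn.1.2 hn.2)
  have hT' := htail k l s (fun r => hG.sub _ (hl r)) hA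
  refine ⟨γ, fun E hE t1 => ?_, hgood⟩
  obtain ⟨q0, hq0⟩ := ha.cof' (mulI hF hG (hG.sub _ (constM hG.mdl 2)) hE)
  set q := max q0 t1 with hq
  refine ⟨t q, (le_max_right q0 t1).trans (Nat.le_add_right _ _), _,
    hG.sub _ (mulM hF hG.mdl (hl (q + 1)) (hKM q)), fun j hj => ?_⟩
  obtain ⟨r0, hr0⟩ := ha.cof' hj
  set r := max r0 q with hr
  refine ((((hT' q (r + 1) (Nat.lt_succ_of_le (le_max_right _ _))).and (hγ (r + 1))).and
    ((hr0 r (le_max_left _ _)).and (hA r))).and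
    ((hq0 q (le_max_left _ _)).and (ha.le (hνr r)))).mp
    fun n ⟨⟨⟨h1, h2⟩, h3, h4⟩, h5, h6⟩ h7 => ?_
  refine tail_fin h1 h2 (h3.le.trans (h6.trans h4.2.1.2.1)) h7 ?_
  have := Nat.mul_le_mul_left (a q n + 1) (hDpos q n)
  omega

end Pool.Agent.H965Z.Dens
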