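import Pool.Agent.H965Z.Dens.Compl

/-!
Failure of induction and of DOM in the structure.
-/

namespace Pool.Agent.H965Z.Dens

open Function Filter Pool.Agent.Helper317.CADS Pool.Agent.Helper317.SOA

variable {FF : Set (ℕ → ℕ)} {I M X : Set H}

/-- standard elements -/
def Std (f : ℕ → ℕ) : Prop := ∃ e : ℕ, Ev fun n => f n = e

theorem nonstd {f : ℕ → ℕ} (h : ¬ Std f) (e : ℕ) : Ev fun n => e < f n := by
  have h1 := ev_forall_lt (p := fun i n => ¬ f n = i) (e + 1) fun i _ => ev_not.2 fun h' => h ⟨i, h'⟩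
  refine h1.mp fun n hn => ?_
  by_contra h2
  exact hn (f n) (by omega) rfl

theorem not_std_id : ¬ Std fun n => n := by
  rintro ⟨e, h⟩
  exact ev_const.1 ((h.and (ev_ge (e + 1))).mp (q := fun _ => False) fun n hn => by
    have h1 : n = e := hn.1
    have h2 := hn.2
    omega)

theorem ev_false {p : ℕ → Prop} (h : Ev p) (h' : ∀ n, p n → False) : False :=
  ev_const.1 (h.mp (q := fun _ => False) h')

theorem sig_loc (hF : Ops FF) (hT : OpsT FF) (hB : OpsB FF) (hG : Good FF I M X) {A : Set H}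
    (hA : Del FF I M X A) {α : ℕ → ℕ} (hα : Rep I A α) {Φ : ℕ → ℕ → ℕ → Prop}
    (hΦ : chi (fun v : ℕ => Φ v.unpair.1 v.unpair.2.unpair.1 v.unpair.2.unpair.2) ∈ FF)
    (hloc : ∀ p z z' w, (∀ x y, x ≤ Nat.pair p w → y ≤ Nat.pair p w →
      z.testBit (pr x y) = z'.testBit (pr x y)) → (Φ p z w ↔ Φ p z' w))
    {p : ℕ → ℕ} (hp : (p : H) ∈ M) : Sig FF I M X (IP fun n w => Φ (p n) (α n) w) := by
  have hL : (fun v : ℕ => pr v v + 1) ∈ FF :=
    FF_congr (hF.comp _ hF.add _ (hF.pair _ (hF.comp _ hB.pr _ (hF.pair _ hF.id _ hF.id)) _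
      (hF.const 1))) fun x => by simp only [Nat.unpair_pair]
  refine sigI_congr (sig_bind hF hT hG hA hα hL hp (sigI_chi hF hG hΦ hp))
    (ev_of_forall fun n w => ?_)
  simp only [Nat.unpair_pair]
  exact hloc _ _ _ _ fun x y hx hy => agr_mod _ _ _ (Nat.lt_succ_of_le (pr_mono hx hy))

theorem le11 (p w : ℕ) : p.unpair.1 ≤ Nat.pair p w :=
  (Nat.unpair_left_le p).trans (Nat.left_le_pair _ _)
theorem le12 (p w : ℕ) : p.unpair.2 ≤ Nat.pair p w :=
  (Nat.unpair_right_le p).trans (Nat.left_le_pair _ _)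
theorem le122 (p w : ℕ) : p.unpair.2.unpair.2 ≤ Nat.pair p w :=
  (Nat.unpair_right_le _).trans (le12 p w)
theorem le21 (p w : ℕ) : w.unpair.1 ≤ Nat.pair p w :=
  (Nat.unpair_left_le w).trans (Nat.right_le_pair _ _)
theorem le22 (p w : ℕ) : w.unpair.2 ≤ Nat.pair p w :=
  (Nat.unpair_right_le w).trans (Nat.right_le_pair _ _)
theorem le211 (p w : ℕ) : w.unpair.1.unpair.1 ≤ Nat.pair p w :=
  (Nat.unpair_left_le _).trans (le21 p w)
theorem le212 (p w : ℕ) : w.unpair.1.unpair.2 ≤ Nat.pair p w :=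
  (Nat.unpair_right_le _).trans (le21 p w)
theorem le221 (p w : ℕ) : w.unpair.2.unpair.1 ≤ Nat.pair p w :=
  (Nat.unpair_left_le _).trans (le22 p w)

/-- `p = (i, b)` -/
def F1 (p z s : ℕ) : Prop := p.unpair.2 < s ∧ z.testBit (pr p.unpair.1 s) = true
/-- `w = (s, (i, b))` -/
def F2 (_ z w : ℕ) : Prop :=
  w.unpair.2.unpair.2 < w.unpair.1 ∧ z.testBit (pr w.unpair.2.unpair.1 w.unpair.1) = true
/-- `w = ((x, y), (i, b))` -/
def F3 (_ z w : ℕ) : Prop :=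
  w.unpair.2.unpair.2 < w.unpair.1.unpair.1 ∧
    z.testBit (pr w.unpair.1.unpair.1 w.unpair.1.unpair.2) = true
/-- `w = ((x, y), (i, b))` -/
def F4 (_ z w : ℕ) : Prop := ∀ s ≤ w.unpair.1.unpair.2, w.unpair.1.unpair.1 ≤ s →
  z.testBit (pr w.unpair.2.unpair.1 s) = false
/-- `p = (c, (x, y))` -/
def F5 (p z i : ℕ) : Prop := p.unpair.1 < i ∨ ∀ s ≤ p.unpair.2.unpair.2, p.unpair.2.unpair.1 ≤ s →
  z.testBit (pr i s) = false
/-- `p = (i, x)` -/
def F6 (p z s : ℕ) : Prop := p.unpair.2 ≤ s ∧ z.testBit (pr p.unpair.1 s) = true ∧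
  ∀ s' < s, ¬ (p.unpair.2 ≤ s' ∧ z.testBit (pr p.unpair.1 s') = true)

/-- closure conditions for the negative results -/
structure OpsN (FF : Set (ℕ → ℕ)) : Prop where
  f1 : chi (fun v : ℕ => F1 v.unpair.1 v.unpair.2.unpair.1 v.unpair.2.unpair.2) ∈ FF
  f2 : chi (fun v : ℕ => F2 v.unpair.1 v.unpair.2.unpair.1 v.unpair.2.unpair.2) ∈ FF
  f3 : chi (fun v : ℕ => F3 v.unpair.1 v.unpair.2.unpair.1 v.unpair.2.unpair.2) ∈ FF
  f4 : chi (fun v : ℕ => F4 v.unpair.1 v.unpair.2.unpair.1 v.unpair.2.unpair.2) ∈ FF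
  f5 : chi (fun v : ℕ => F5 v.unpair.1 v.unpair.2.unpair.1 v.unpair.2.unpair.2) ∈ FF
  f6 : chi (fun v : ℕ => F6 v.unpair.1 v.unpair.2.unpair.1 v.unpair.2.unpair.2) ∈ FF

theorem bdd_iff (hF : Ops FF) (hT : OpsT FF) (hB : OpsB FF) (hN : OpsN FF) (hG : Good FF I M X)
    {a u : ℕ → ℕ → ℕ} (ha : Cof I M a) {γ : ℕ → ℕ} (hγ : Cols I u γ)
    (hD : Del FF I M X (tr I γ)) {i : ℕ → ℕ} (hi : (i : H) ∈ M) :
    (∃ b : ℕ → ℕ, (b : H) ∈ M ∧ ∀ s : ℕ → ℕ, (s : H) ∈ M →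
      ¬ Ev fun n => b n < s n ∧ (γ n).testBit (pr (i n) (s n)) = true) ↔ Std i := by
  constructor
  · rintro ⟨b, hb, h⟩
    by_contra h1
    obtain ⟨y, hy, h2⟩ := hγ.non i (hG.sub _ hi) (nonstd h1) _
      (hG.sub _ (addM hF hG.mdl hb (constM hG.mdl 1)))
    have h3 := sig_loc hF hT hB hG hD (rep_tr γ) hN.f1 (fun p z z' w h => by
      unfold F1
      rw [h _ _ (le11 p w) (Nat.right_le_pair _ _)]) (pairM hG.mdl hi hb)
    simp only [F1, Nat.unpair_pair] at h3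
    obtain ⟨g, hg, h4⟩ := witnessI hF hG h3 hy h2
    exact h g hg h4
  · rintro ⟨e, he⟩
    obtain ⟨y, hy, -, h1⟩ := hγ.std e
    obtain ⟨t, ht⟩ := ha.cof y hy
    refine ⟨a t, ha.mem t, fun s hs h2 => ?_⟩
    refine ev_false ((((h1 s (hG.sub _ hs)).and h2).and he).and ht) fun n ⟨⟨⟨k1, k2⟩, k3⟩, k4⟩ => ?_
    rw [k3, k1 (by omega)] at k2
    exact absurd k2.2 (by simp)

/-- the term for the pairing function -/
def prT (s t : Tm) : Tm := .add (.mul (.add s t) (.add s t)) s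

/-- the column `var 0` of the set variable `0` is bounded -/
def bddF : Fm := .ex 1 (.all 2 (.neg (.and (.lt (.var 1) (.var 2)) (.mem (prT (.var 0) (.var 2)) 0))))

theorem bddF_sigma : IsSigma 2 bddF :=
  ⟨1, _, rfl, 2, _, rfl, IsDelta0.neg (IsDelta0.and (IsDelta0.lt _ _) (IsDelta0.mem _ _))⟩

theorem bddF_arith : IsArith bddF :=
  .neg (.all _ (.neg (.all _ (.neg (.and (.lt _ _) (.mem _ _))))))

theorem sat_bddF {K : Model} (v : ℕ → K.Num) (V : ℕ → Set K.Num) (i : K.Num) :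
    Sat K (update v 0 i) V bddF ↔ ∃ b, ∀ s, ¬ (K.lt b s ∧ K.pair i s ∈ V 0) := by
  simp [bddF, prT, Tm.val, Model.pair]

theorem fm_noind (hF : Ops FF) (hT : OpsT FF) (hB : OpsB FF) (hN : OpsN FF)
    {a u : ℕ → ℕ → ℕ} {γ : ℕ → ℕ} {q : ℕ → H} {Xs : ℕ → Set H}
    (C : Chain FF I M a (tr I γ) q Xs) (ha : Cof I M a) (hγ : Cols I u γ) (hM : Mdl FF M) :
    ∃ (v : ℕ → (FM hF.toFam hM {A | ∃ k, Del FF I M (Xs k) A}).Num)
      (V : ℕ → Set (FM hF.toFam hM {A | ∃ k, Del FF I M (Xs k) A}).Num),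
      (FM hF.toFam hM {A | ∃ k, Del FF I M (Xs k) A}).SetAsg V ∧
      Sat _ (update v 0 (FM hF.toFam hM {A | ∃ k, Del FF I M (Xs k) A}).zero) V bddF ∧
      (∀ x, Sat _ (update v 0 x) V bddF →
        Sat _ (update v 0 ((FM hF.toFam hM {A | ∃ k, Del FF I M (Xs k) A}).add x
          (FM hF.toFam hM {A | ∃ k, Del FF I M (Xs k) A}).one)) V bddF) ∧
      ¬ ∀ x, Sat _ (update v 0 x) V bddF := by
  have hG := C.good 0
  have key : ∀ (v : ℕ → (FM hF.toFam hM {A | ∃ k, Del FF I M (Xs k) A}).Num) (i : ℕ → ℕ)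
      (hi : (i : H) ∈ M), Sat _ (update v 0 (nm _ _ _ i hi))
        (fun _ => {x | x.1 ∈ tr I γ}) bddF ↔ Std i := by
    intro v i hi
    rw [sat_bddF, ← bdd_iff hF hT hB hN hG ha hγ C.g0 hi]
    constructor
    · rintro ⟨b, h⟩
      obtain ⟨b, hb, rfl⟩ := num_rep b
      refine ⟨b, hb, fun s hs h1 => h (nm _ _ _ s hs) ⟨fm_lt.2 (h1.mp fun n hn => hn.1), ?_⟩⟩
      rw [fm_pair hB]
      exact (rep_tr γ _ (hG.sub _ (prM hB hM hi hs))).2 (h1.mp fun n hn => hn.2)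
    · rintro ⟨b, hb, h⟩
      refine ⟨nm _ _ _ b hb, fun s h1 => ?_⟩
      obtain ⟨s, hs, rfl⟩ := num_rep s
      rw [fm_pair hB, fm_lt] at h1
      exact h s hs (h1.1.and ((rep_tr γ _ (hG.sub _ (prM hB hM hi hs))).1 h1.2))
  refine ⟨fun _ => (FM hF.toFam hM _).zero, fun _ => {x | x.1 ∈ tr I γ},
    fun _ => ⟨_, ⟨0, C.g0⟩, rfl⟩, ?_, fun x h => ?_, fun h => ?_⟩
  · rw [fm_zero, key]
    exact ⟨0, ev_of_forall fun _ => rfl⟩
  · obtain ⟨x, hx, rfl⟩ := num_rep x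
    rw [key] at h
    rw [fm_one, fm_add, key]
    obtain ⟨e, he⟩ := h
    exact ⟨e + 1, he.mp fun n hn => congrArg (· + 1) hn⟩
  · exact not_std_id ((key _ _ (C.sub 0 (C.iota 0))).1 (h _))

/-- `var 1` is the least `s ≥ var 0` in the column `var 2` -/
def nxtF : Fm := .ex 3 (.and (.neg (.lt (.var 1) (.var 0))) (.and (.mem (prT (.var 2) (.var 1)) 0)
  (.all 4 (.imp (.lt (.var 4) (.var 1))
    (.neg (.and (.neg (.lt (.var 4) (.var 0))) (.mem (prT (.var 2) (.var 4)) 0)))))))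

theorem nxtF_sigma : IsSigma 1 nxtF :=
  ⟨3, _, rfl, IsDelta0.and (IsDelta0.neg (IsDelta0.lt _ _)) (IsDelta0.and (IsDelta0.mem _ _)
    (IsDelta0.ball 4 (.var 1) (show (1 : ℕ) ≠ 4 by decide)
      (IsDelta0.neg (IsDelta0.and (IsDelta0.neg (IsDelta0.lt _ _)) (IsDelta0.mem _ _)))))⟩

theorem rel_nxtF {K : Model} (A : Set K.Num) (i x y : K.Num) :
    Rel K nxtF (fun _ => i) A x y ↔ ¬ K.lt y x ∧ K.pair i y ∈ A ∧
      ∀ s, K.lt s y → ¬ (¬ K.lt s x ∧ K.pair i s ∈ A) := by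
  have : Nonempty K.Num := ⟨i⟩
  simp [Rel, nxtF, prT, Tm.val, Model.pair]

theorem fm_nodom (hF : Ops FF) (hU : OpsU FF) (hT : OpsT FF) (hB : OpsB FF) (hN : OpsN FF)
    {a u : ℕ → ℕ → ℕ} {γ : ℕ → ℕ} {q : ℕ → H} {Xs : ℕ → Set H}
    (C : Chain FF I M a (tr I γ) q Xs) (ha : Cof I M a) (hγ : Cols I u γ) (hM : Mdl FF M) :
    ¬ DOM (FM hF.toFam hM {A | ∃ k, Del FF I M (Xs k) A}) := by
  intro hdom
  obtain ⟨_, ⟨Af, ⟨k, hAf⟩, rfl⟩, htot, hd⟩ := hdom {x | x.1 ∈ tr I γ} ⟨_, ⟨0, C.g0⟩, rfl⟩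
  have hG := C.good k
  have hD : Del FF I M (Xs k) (tr I γ) := del_mono17 C.mono (Nat.zero_le k) C.g0
  obtain ⟨φ, hφ⟩ := del_rep hF hG ha hAf
  have hι : ((fun n => n : ℕ → ℕ) : H) ∈ M := C.sub 0 (C.iota 0)
  have h0 := constM hM 0
  have htot' : ∀ x : ℕ → ℕ, (x : H) ∈ M → ∃ z : ℕ → ℕ, (z : H) ∈ M ∧
      Ev fun n => (φ n).testBit (pr (x n) (z n)) = true := by
    intro x hx
    obtain ⟨z, h1, -⟩ := htot (nm _ _ _ x hx)
    obtain ⟨z, hz, rfl⟩ := num_rep z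
    rw [fm_pair hB] at h1
    exact ⟨z, hz, (hφ _ (hG.sub _ (prM hB hM hx hz))).1 h1⟩
  have hrel : ∀ (i x y : ℕ → ℕ) (hi : (i : H) ∈ M) (hx : (x : H) ∈ M) (hy : (y : H) ∈ M),
      Rel (FM hF.toFam hM {A | ∃ k, Del FF I M (Xs k) A}) nxtF (fun _ => nm _ _ _ i hi)
        {x | x.1 ∈ tr I γ} (nm _ _ _ x hx) (nm _ _ _ y hy) ↔
      (Ev fun n => x n ≤ y n ∧ (γ n).testBit (pr (i n) (y n)) = true) ∧
        ∀ s : ℕ → ℕ, (s : H) ∈ M → ¬ Ev fun n => s n < y n ∧ x n ≤ s n ∧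
          (γ n).testBit (pr (i n) (s n)) = true := by
    intro i x y hi hx hy
    have h1 : ∀ (s : ℕ → ℕ) (hs : (s : H) ∈ M),
        (FM hF.toFam hM {A | ∃ k, Del FF I M (Xs k) A}).pair (nm _ _ _ i hi) (nm _ _ _ s hs) ∈
          ({x | x.1 ∈ tr I γ} : Set (FM hF.toFam hM {A | ∃ k, Del FF I M (Xs k) A}).Num) ↔
        Ev fun n => (γ n).testBit (pr (i n) (s n)) = true := by
      intro s hs
      rw [fm_pair hB]
      exact rep_tr γ _ (hG.sub _ (prM hB hM hi hs))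
    rw [rel_nxtF, h1, fm_lt, ← ev_not, ← and_assoc, ← ev_and]
    simp only [not_lt]
    refine and_congr_right fun _ => ⟨fun h s hs h2 => ?_, fun h s h2 h3 => ?_⟩
    · refine h (nm _ _ _ s hs) (fm_lt.2 (h2.mp fun n hn => hn.1)) ⟨?_, ?_⟩
      · rw [fm_lt, ← ev_not]
        exact h2.mp fun n hn => by omega
      · rw [h1]
        exact h2.mp fun n hn => hn.2.2
    · obtain ⟨s, hs, rfl⟩ := num_rep s
      rw [fm_lt] at h2
      rw [h1, fm_lt, ← ev_not] at h3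
      exact h s hs ((h2.and (h3.1.and h3.2)).mp fun n hn => ⟨hn.1, by omega, hn.2.2⟩)
  have hnx : ∀ (i x : ℕ → ℕ), (i : H) ∈ M → (x : H) ∈ M → ¬ Std i → ∃ y : ℕ → ℕ, (y : H) ∈ M ∧
      Ev fun n => F6 (Nat.pair (i n) (x n)) (γ n) (y n) := by
    intro i x hi hx hs
    obtain ⟨y, hy, h1⟩ := hγ.non i (hG.sub _ hi) (nonstd hs) x (hG.sub _ hx)
    have h2 : Ev fun n => ∃ s, s ≤ y n ∧ F6 (Nat.pair (i n) (x n)) (γ n) s := by
      refine h1.mp fun n hn => ?_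
      classical
      have h3 : ∃ s, x n ≤ s ∧ (γ n).testBit (pr (i n) s) = true := ⟨_, hn⟩
      refine ⟨Nat.find h3, Nat.find_min' h3 hn, ?_⟩
      simp only [F6, Nat.unpair_pair]
      exact ⟨(Nat.find_spec h3).1, (Nat.find_spec h3).2, fun s' hs' => Nat.find_min h3 hs'⟩
    obtain ⟨s, hs⟩ := ev_ex.1 h2
    exact witnessI hF hG (sig_loc hF hT hB hG hD (rep_tr γ) hN.f6 (fun p z z' w h => by
      unfold F6
      rw [h _ _ (le11 p w) (Nat.right_le_pair _ _)]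
      refine and_congr_right fun _ => and_congr_right fun _ => forall_congr' fun s' =>
        forall_congr' fun hs' => ?_
      rw [h _ _ (le11 p w) (hs'.le.trans (Nat.right_le_pair _ _))]) (pairM hM hi hx))
      (downI hG hy (hs.mp fun n hn => hn.1)) (hs.mp fun n hn => hn.2)
  have hs1 := sig_loc hF hT hB hG hD (rep_tr γ) hN.f2 (fun p z z' w h => by
    unfold F2
    rw [h _ _ (le221 p w) (le21 p w)]) h0
  have hs2 := sigI_and hF hG (sig_loc hF hT hB hG hAf hφ hN.f3 (fun p z z' w h => by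
    unfold F3
    rw [h _ _ (le211 p w) (le212 p w)]) h0)
    (sig_loc hF hT hB hG hD (rep_tr γ) hN.f4 (fun p z z' w h => by
    unfold F4
    refine forall_congr' fun s => forall_congr' fun hs => ?_
    rw [h _ _ (le221 p w) (hs.trans (le212 p w))]) h0)
  have hP := Sig.and hF hG (sigI_ex hF hG hs1) (sigI_ex hF hG hs2)
  have hc := addM hF hM hι (constM hM 1)
  obtain ⟨b, hb, hbs⟩ := bsig hF hG ha hP hc (C.wit k _ hP _ hc) (by
    intro i hi _
    obtain ⟨i, rfl⟩ := i.rep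
    by_cases hs : Std i
    · obtain ⟨e, he⟩ := hs
      obtain ⟨y, hy, -, h1⟩ := hγ.std e
      refine ⟨y, hy, ?_⟩
      rintro ⟨⟨s, hs, h2⟩, -⟩
      obtain ⟨s, rfl⟩ := s.rep
      simp only [pp_coe, ip_coe, F2, Nat.unpair_pair] at h2
      refine ev_false (((h1 s hs).and h2).and he) fun n ⟨⟨k1, k2⟩, k3⟩ => ?_
      rw [k3, k1 k2.1] at k2
      exact absurd k2.2 (by simp)
    · obtain ⟨n0, h1⟩ := hd nxtF nxtF_sigma (fun _ => nm _ _ _ i hi) (by
        intro x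
        obtain ⟨x, hx, rfl⟩ := num_rep x
        obtain ⟨y, hy, h1⟩ := hnx i x hi hx hs
        simp only [F6, Nat.unpair_pair] at h1
        refine ⟨nm _ _ _ y hy, (hrel i x y hi hx hy).2 ⟨h1.mp fun n hn => ⟨hn.1, hn.2.1⟩,
          fun s _ h2 => ev_false (h1.and h2) fun n hn => hn.1.2.2 _ hn.2.1 hn.2.2⟩, fun y' h2 => ?_⟩
        obtain ⟨y', hy', rfl⟩ := num_rep y'
        obtain ⟨h3, h4⟩ := (hrel i x y' hi hx hy').1 h2
        rw [fm_eq]
        refine ((h1.and h3).and (ev_not.2 (h4 y hy))).mp fun n ⟨⟨k1, k2⟩, k3⟩ => ?_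
        have k4 := k1.2.2 (y' n)
        by_contra k5
        rcases Nat.lt_or_gt_of_ne k5 with k6 | k6
        · exact k4 k6 k2
        · exact k3 ⟨k6, k1.1, k1.2.1⟩)
      obtain ⟨n0, hn0, rfl⟩ := num_rep n0
      refine ⟨n0, hG.sub _ hn0, ?_⟩
      rintro ⟨-, v, hv, h2⟩
      obtain ⟨v, rfl⟩ := v.rep
      rw [pp_coe, pp_coe, ip_coe] at h2
      obtain ⟨g, hg, h3⟩ := witnessI hF hG (sigI_sub hF hG hs2 hT.swap (pairM hM hi hn0)) hv
        (by simpa only [Nat.unpair_pair] using h2)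
      simp only [F3, F4, Nat.unpair_pair] at h3
      have hx := apM hM hF.fst hg
      have hz := apM hM hF.snd hg
      obtain ⟨y, hy, h4⟩ := hnx i _ hi hx hs
      simp only [F6, Nat.unpair_pair] at h4
      have h5 := h1 (nm _ _ _ _ hx) (nm _ _ _ y hy) (nm _ _ _ _ hz)
        (fm_lt.2 (h3.mp fun n hn => hn.1.1))
        ((hrel i _ y hi hx hy).2 ⟨h4.mp fun n hn => ⟨hn.1, hn.2.1⟩,
          fun s _ h2 => ev_false (h4.and h2) fun n hn => hn.1.2.2 _ hn.2.1 hn.2.2⟩)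
        (by
          rw [fm_pair hB]
          exact (hφ _ (hG.sub _ (prM hB hM hx hz))).2 (h3.mp fun n hn => hn.1.2))
      rw [fm_leq] at h5
      refine ev_false ((h3.and h4).and h5) fun n ⟨⟨k1, k2⟩, k3⟩ => ?_
      have k4 := k1.2 _ k3 k2.1
      rw [k2.2.1] at k4
      exact absurd k4 (by simp))
  obtain ⟨b, rfl⟩ := b.rep
  have hx0 := addM hF hM hb (constM hM 1)
  obtain ⟨z0, hz0, hz0'⟩ := htot' _ hx0
  have hR : ∀ i : ℕ → ℕ, (i : H) ∈ M → (Ev fun n => i n ≤ n) →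
      ((Ev fun n => ∀ s ≤ z0 n, b n + 1 ≤ s → (γ n).testBit (pr (i n) s) = false) ↔ Std i) := by
    intro i hi hin
    obtain ⟨w, hw, h1⟩ := hbs i (lt_coe.2 (hin.mp fun n hn => Nat.lt_succ_of_le hn))
    obtain ⟨w, rfl⟩ := w.rep
    rw [le_coe] at hw
    have hwI := downI hG (hG.sub _ hb) hw
    constructor
    · intro h2
      by_contra h3
      refine h1 ⟨?_, _, hG.sub _ (pairM hM hx0 hz0), ?_⟩
      · obtain ⟨y, hy, h4⟩ := hγ.non i (hG.sub _ hi) (nonstd h3) _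
          (addI hF hG hwI (hG.sub _ (constM hM 1)))
        refine ⟨y, hy, ?_⟩
        simp only [pp_coe, ip_coe, F2, Nat.unpair_pair]
        exact h4
      · simp only [pp_coe, ip_coe, F3, F4, Nat.unpair_pair]
        exact ((hw.and hz0').and h2).mp fun n hn => ⟨⟨Nat.lt_succ_of_le hn.1.1, hn.1.2⟩, hn.2⟩
    · rintro ⟨e, he⟩
      obtain ⟨y, hy, -, h2⟩ := hγ.std e
      refine ev_forall_I hG (P := fun n s => b n + 1 ≤ s → (γ n).testBit (pr (i n) s) = false)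
        (hG.sub _ hz0) fun s hs => ?_
      by_contra h3
      rw [← ev_not] at h3
      refine h1 ⟨⟨s, hs, ?_⟩, ?_⟩
      · simp only [pp_coe, ip_coe, F2, Nat.unpair_pair]
        refine (h3.and hw).mp fun n hn => ?_
        rw [Classical.not_imp] at hn
        exact ⟨by omega, by simpa using hn.1.2⟩
      · obtain ⟨t, ht⟩ := ha.cof _ (addI hF hG hy hwI)
        obtain ⟨z, hz, h4⟩ := htot' _ (ha.mem t)
        refine ⟨_, hG.sub _ (pairM hM (ha.mem t) hz), ?_⟩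
        simp only [pp_coe, ip_coe, F3, F4, Nat.unpair_pair]
        have h5 := ev_forall_I hG (P := fun n s => y n < s → (γ n).testBit (pr e s) = false)
          (hG.sub _ hz) h2
        refine ((ht.and h4).and (h5.and he)).mp fun n ⟨⟨k1, k2⟩, k3, k4⟩ =>
          ⟨⟨by omega, k2⟩, fun s k5 k6 => ?_⟩
        rw [k4]
        exact k3 s k5 (by omega)
  have hQ := sig_loc hF hT hB hG hD (rep_tr γ) hN.f5 (fun p z z' w h => by
    unfold F5
    refine or_congr Iff.rfl (forall_congr' fun s => forall_congr' fun hs => ?_)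
    rw [h _ _ (Nat.right_le_pair _ _) (hs.trans (le122 p w))]) (pairM hM hι (pairM hM hx0 hz0))
  simp only [F5, Nat.unpair_pair] at hQ
  have hall := sig_induction hF hU hG hQ (by
    rw [st_coe, ip_coe, ev_or]
    exact Or.inr ((hR _ h0 (ev_of_forall fun n => Nat.zero_le _)).2 ⟨0, ev_of_forall fun _ => rfl⟩))
    (by
    intro i hi h1
    obtain ⟨i, rfl⟩ := i.rep
    rw [ip_coe, ev_or] at h1
    rw [st_coe, ap2_coe, ip_coe, ev_or]
    by_cases h2 : Ev fun n => n < i n + 1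
    · exact Or.inl h2
    · rw [← ev_not] at h2
      rcases h1 with h1 | h1
      · exact (ev_false (h1.and h2) fun n hn => by omega).elim
      · obtain ⟨e, he⟩ := (hR i hi (h2.mp fun n hn => by omega)).1 h1
        exact Or.inr ((hR _ (addM hF hM hi (constM hM 1)) (h2.mp fun n hn => by omega)).2
          ⟨e + 1, he.mp fun n hn => congrArg (· + 1) hn⟩)) _ hι
  rw [ip_coe, ev_or] at hall
  rcases hall with h1 | h1
  · exact ev_false h1 fun n hn => by omega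
  · exact not_std_id ((hR _ hι (ev_of_forall fun n => le_rfl)).1 h1)

end Pool.Agent.H965Z.Dens
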