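import Pool.Agent.H965Z.Dens.Neg

/-!
Failure of COH in the structure.
-/

namespace Pool.Agent.H965Z.Dens

open Function Filter Pool.Agent.Helper317.CADS Pool.Agent.Helper317.SOA

variable {FF : Set (ℕ → ℕ)} {I M X : Set H}

/-- last element `≤ s` of the column `e` -/
def lst (z e s : ℕ) : ℕ := Nat.findGreatest (fun y => z.testBit (pr e y) = true) s

/-- the diagonal sequence of sets -/
def Rn (z w : ℕ) : Prop := ∃ x s, w = pr x s ∧
  (ev (lst z x.unpair.2 s).unpair.1 x.unpair.1).testBit x = false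

theorem Rn_pr (z x s : ℕ) :
    Rn z (pr x s) ↔ (ev (lst z x.unpair.2 s).unpair.1 x.unpair.1).testBit x = false := by
  constructor
  · rintro ⟨x', s', h1, h2⟩
    obtain ⟨rfl, rfl⟩ := pr_inj h1
    exact h2
  · exact fun h => ⟨x, s, rfl, h⟩

theorem lst_congr {z z' e s : ℕ} (h : ∀ y ≤ s, z.testBit (pr e y) = z'.testBit (pr e y)) :
    lst z e s = lst z' e s := by
  unfold lst
  induction s with
  | zero => rfl
  | succ s ih =>
    rw [Nat.findGreatest_succ, Nat.findGreatest_succ, h _ le_rfl, ih fun y hy => h y (by omega)]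

theorem Rn_loc (p z z' w : ℕ) (h : ∀ x y, x ≤ Nat.pair p w → y ≤ Nat.pair p w →
    z.testBit (pr x y) = z'.testBit (pr x y)) : Rn z w ↔ Rn z' w := by
  unfold Rn
  refine exists_congr fun x => exists_congr fun s => and_congr_right fun hw => ?_
  have h1 := le_pr_left x s
  have h2 := le_pr_right x s
  have h3 := Nat.right_le_pair p w
  have h4 := Nat.unpair_right_le x
  rw [lst_congr (z' := z') fun y hy => h _ _ (by omega) (by omega)]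

theorem lst_eq {z e s y : ℕ} (h1 : z.testBit (pr e y) = true) (h2 : y ≤ s)
    (h3 : ∀ y' ≤ s, y < y' → z.testBit (pr e y') = false) : lst z e s = y := by
  unfold lst
  rw [Nat.findGreatest_eq_iff]
  refine ⟨h2, fun _ => h1, fun n h4 h5 h6 => ?_⟩
  rw [h3 n h5 h4] at h6
  exact absurd h6 (by simp)

/-- closure conditions for the failure of COH -/
structure OpsR (FF : Set (ℕ → ℕ)) : Prop where
  pos : chi (fun v : ℕ => (fun _ z w => Rn z w) v.unpair.1 v.unpair.2.unpair.1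
    v.unpair.2.unpair.2) ∈ FF
  neg : chi (fun v : ℕ => (fun _ z w => ¬ Rn z w) v.unpair.1 v.unpair.2.unpair.1
    v.unpair.2.unpair.2) ∈ FF
  lam : ∀ F ∈ FF, lamc F ∈ FF

theorem fm_nocoh (hF : Ops FF) (hU : OpsU FF) (hT : OpsT FF) (hB : OpsB FF) (hR : OpsR FF)
    {a u : ℕ → ℕ → ℕ} {γ : ℕ → ℕ} {q : ℕ → H} {Xs : ℕ → Set H}
    (C : Chain FF I M a (tr I γ) q Xs) (ha0 : Cof I (gen FF iota) a) (hγ : Cols I u γ)
    (hu : ∀ x ∈ gen FF iota, ∃ e, x = (u e : H)) (hM : Mdl FF M) :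
    ¬ COH (FM hF.toFam hM {A | ∃ k, Del FF I M (Xs k) A}) := by
  intro hcoh
  have ha : Cof I M a := ha0.weak (gen_sub hM (C.sub 0 (C.iota 0)))
  set R : Set H := {w | w ∈ I ∧ IP (fun n w => Rn (γ n) w) w} with hRdef
  have hRD : Del FF I M (Xs 0) R := by
    refine ⟨fun x hx => hx.1, ?_, ?_⟩
    · exact (sig_loc hF hT hB (C.good 0) C.g0 (rep_tr γ) hR.pos Rn_loc (constM hM 0)).congr
        fun y hy => ⟨fun h => ⟨hy, h⟩, fun h => h.2⟩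
    · refine (sig_loc hF hT hB (C.good 0) C.g0 (rep_tr γ) hR.neg
        (fun p z z' w h => not_congr (Rn_loc p z z' w h)) (constM hM 0)).congr fun y hy => ?_
      obtain ⟨y, rfl⟩ := y.rep
      rw [hRdef, Set.mem_ofPred_eq, ip_coe, ip_coe, ev_not]
      exact ⟨fun h h' => h h'.2, fun h h' => h ⟨hy, h'⟩⟩
  obtain ⟨_, ⟨Z, ⟨k, hZ⟩, rfl⟩, hinf, hC⟩ := hcoh {x | x.1 ∈ R} ⟨R, ⟨0, hRD⟩, rfl⟩
  have hG := C.good k
  have hRk : Del FF I M (Xs k) R := del_mono17 C.mono (Nat.zero_le k) hRD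
  have hunb : ∀ b : ℕ → ℕ, (b : H) ∈ I → ∃ s : ℕ → ℕ, (s : H) ∈ Z ∧ Ev fun n => b n ≤ s n := by
    intro b hb
    obtain ⟨t, ht⟩ := ha.cof b hb
    by_contra h1
    refine hinf ⟨nm _ _ _ _ (ha.mem t), fun s hs => ?_⟩
    obtain ⟨s, hsM, rfl⟩ := num_rep s
    rw [fm_lt]
    by_contra h2
    exact h1 ⟨s, hs, ((ev_not.2 h2).and ht).mp fun n hn => by omega⟩
  have g1 : (fun w : ℕ => Nat.pair w.unpair.2.unpair.2 w.unpair.1) ∈ FF :=
    hF.pair _ (hF.comp _ hF.snd _ hF.snd) _ hF.fst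
  have g2 : (fun w : ℕ => pr w.unpair.2.unpair.1 w.unpair.1) ∈ FF :=
    FF_congr (hF.comp _ hB.pr _ (hF.pair _ (hF.comp _ hF.fst _ hF.snd) _ hF.fst))
      fun x => by simp only [Nat.unpair_pair]
  have hq0 := Sig.and hF hG (Sig.sub0 hF hG (Sig.int0 hF hG hU.le) g1)
    (Sig.sub0 hF hG hZ.2.1 hF.fst)
  have hq1 := Sig.and hF hG hq0 (Sig.sub0 hF hG hRk.2.1 g2)
  have hq2 := Sig.and hF hG hq0 (Sig.sub0 hF hG hRk.2.2 g2)
  have hP := Sig.and hF hG (Sig.ex hF hG hq1) (Sig.ex hF hG hq2)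
  obtain ⟨l1, hl1⟩ := C.fin k _ hZ.2.1
  obtain ⟨l2, hl2⟩ := C.fin k _ hRk.2.1
  have hZl := hl1 (max l1 l2) (le_max_left _ _)
  have hRl := hl2 (max l1 l2) (le_max_right _ _)
  have hGl := C.goodq (max l1 l2)
  have hιl := C.iota (max l1 l2)
  have hsub := C.sub (max l1 l2)
  generalize q (max l1 l2) = Q at hZl hRl hGl hιl hsub
  generalize Xs (max l1 l2) = X' at hZl hRl hGl
  obtain ⟨Q, rfl⟩ := Q.rep
  have hQ : (Q : H) ∈ gen FF (Q : H) := self_mem_gen hF _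
  have hcl := addM hF hGl.mdl (pairM hGl.mdl hQ hιl) (constM hGl.mdl 1)
  have hc := hsub hcl
  obtain ⟨b, hb, hbs⟩ := bsig hF hG ha hP hc (C.wit k _ hP _ hc) (by
    intro x hx _
    obtain ⟨x, rfl⟩ := x.rep
    have hw : ∀ {P : H → Prop} (hP : Sig FF I M (Xs k) P) (w : ℕ → ℕ), (w : H) ∈ M →
        (∃ s ∈ I, P (pp s (pp (x : H) (w : H)))) →
        ∃ s : ℕ → ℕ, (s : H) ∈ M ∧ P (pp (s : H) (pp (x : H) (w : H))) := by
      rintro P hP w hw ⟨s, hs, h1⟩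
      have h4 : ∀ z : H, ap (fun w : ℕ => Nat.pair w.unpair.2 w.unpair.1)
          (pp (pp (x : H) (w : H)) z) = pp z (pp (x : H) (w : H)) := by
        intro z
        obtain ⟨z, rfl⟩ := z.rep
        simp only [pp_coe, ap_coe, Nat.unpair_pair]
      obtain ⟨s', hs', h2⟩ := (Sig.sub hF hG hP hT.swap (hM.pp _ hx _ hw)).witness hF hG
        ⟨s, hs, by rw [h4]; exact h1⟩
      rw [h4] at h2
      obtain ⟨s', rfl⟩ := s'.rep
      exact ⟨s', hs', h2⟩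
    rcases hC (nm _ _ _ x hx) with ⟨w, h1⟩ | ⟨w, h1⟩
    · obtain ⟨w, hw', rfl⟩ := num_rep w
      refine ⟨w, hG.sub _ hw', fun h2 => ?_⟩
      obtain ⟨s, hs, h3⟩ := hw hq2 w hw' h2.2
      simp only [pp_coe, ap_coe, st_coe, eq_coe, chi_eq, Nat.unpair_pair] at h3
      have h4 := h1 (nm _ _ _ s hs) ⟨h3.1.2, by rw [fm_pair hB]; exact h3.2⟩
      exact ev_false ((fm_lt.1 h4).and h3.1.1) fun n hn => by omega
    · obtain ⟨w, hw', rfl⟩ := num_rep w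
      refine ⟨w, hG.sub _ hw', fun h2 => ?_⟩
      obtain ⟨s, hs, h3⟩ := hw hq1 w hw' h2.1
      simp only [pp_coe, ap_coe, st_coe, eq_coe, chi_eq, Nat.unpair_pair] at h3
      have h4 := h1 (nm _ _ _ s hs) ⟨h3.1.2, by rw [fm_pair hB]; exact h3.2⟩
      exact ev_false ((fm_lt.1 h4).and h3.1.1) fun n hn => by omega)
  obtain ⟨b, rfl⟩ := b.rep
  obtain ⟨b', hb', hbb⟩ := hGl.cof _ (hG.sub _ hb)
  obtain ⟨s0, hs0, hs0Z, hs0b⟩ := (Sig.and hF hGl hZl (sig_le hF hU hGl hb')).witness hF hGl (by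
    obtain ⟨b', rfl⟩ := b'.rep
    obtain ⟨s, h1, h2⟩ := hunb b' (hGl.sub _ hb')
    exact ⟨s, hZ.1 _ h1, h1, le_coe.2 h2⟩)
  have hs0b' := hbb.trans hs0b
  obtain ⟨s0, rfl⟩ := s0.rep
  rw [le_coe] at hs0b'
  have g3 : (fun w : ℕ => pr w.unpair.2 w.unpair.1) ∈ FF :=
    FF_congr (hF.comp _ hB.pr _ hT.swap) fun x => by simp only [Nat.unpair_pair]
  obtain ⟨z, ⟨F, hFF, rfl⟩, hz⟩ := Sig.coded hF hGl (Sig.sub hF hGl hRl g3 hs0) hcl
  obtain ⟨t, ht⟩ := ha0.cof Q (hGl.sub _ hQ)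
  obtain ⟨e, he⟩ := hu _ (apM (gen_mdl hF iota) (hR.lam F hFF) (ha0.mem t))
  rw [eq_coe] at he
  have hxc : ((fun n => Nat.pair (Q n) e : ℕ → ℕ) : H) <
      ((fun n => Nat.pair (Q n) n + 1 : ℕ → ℕ) : H) :=
    lt_coe.2 ((ev_ge e).mp fun n hn => nat_pair_le le_rfl hn)
  have hxI : ((fun n => Nat.pair (Q n) e : ℕ → ℕ) : H) ∈ I :=
    hGl.sub _ (pairM hGl.mdl hQ (constM hGl.mdl e))
  obtain ⟨w, hw, h1⟩ := hbs _ hxc
  obtain ⟨w, rfl⟩ := w.rep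
  rw [le_coe] at hw
  obtain ⟨y, hy, h2, h3⟩ := hγ.std e
  obtain ⟨s, hsZ, hs⟩ := hunb _ (addI hF hG hy (hG.sub _ hb))
  have hsI := hZ.1 _ hsZ
  have h4 := hz ((fun n => Nat.pair (Q n) e : ℕ → ℕ) : H)
  simp only [pp_coe, ap_coe, mem_coe, Nat.unpair_pair] at h4
  have h5 : ((fun n => pr (Nat.pair (Q n) e) (s n) : ℕ → ℕ) : H) ∈ R ↔
      ¬ ((fun n => pr (Nat.pair (Q n) e) (s0 n) : ℕ → ℕ) : H) ∈ R := by
    have h6 : ((fun n => pr (Nat.pair (Q n) e) (s0 n) : ℕ → ℕ) : H) ∈ R ↔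
        Ev fun n => (F (Q n)).testBit (Nat.pair (Q n) e) = true :=
      ⟨fun h => h4.2 ⟨hxc, h⟩, fun h => (h4.1 h).2⟩
    rw [h6, ← ev_not, hRdef, Set.mem_ofPred_eq, ip_coe, and_iff_right (prI hF hB hG hxI hsI)]
    have h7 := ev_forall_I hG (P := fun n f => y n < f → (γ n).testBit (pr e f) = false) hsI h3
    refine ev_iff.1 ((((h2.and h7).and hs).and (he.and ht)).mp
      fun n ⟨⟨⟨k1, k2⟩, k3⟩, k4, k5⟩ => ?_)
    rw [Rn_pr, Nat.unpair_pair]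
    simp only
    rw [lst_eq k1.2 (by omega) k2, k1.1, ← k4, ev_lamc k5]
    simp
  have m1 : ∀ s' : ℕ → ℕ, (s' : H) ∈ Z → (Ev fun n => b n ≤ s' n) →
      (Ev fun n => w n ≤ s' n) ∧ (s' : H) ∈ Z := fun s' k1 k2 =>
    ⟨(hw.and k2).mp fun n hn => hn.1.trans hn.2, k1⟩
  have m2 := m1 s hsZ (hs.mp fun n hn => by omega)
  have m3 := m1 s0 hs0Z hs0b'
  apply h1
  by_cases h6 : ((fun n => pr (Nat.pair (Q n) e) (s0 n) : ℕ → ℕ) : H) ∈ R
  · refine ⟨⟨s0, hZ.1 _ hs0Z, ?_⟩, ⟨s, hsI, ?_⟩⟩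
    · simp only [pp_coe, ap_coe, st_coe, eq_coe, chi_eq, Nat.unpair_pair]
      exact ⟨m3, h6⟩
    · simp only [pp_coe, ap_coe, st_coe, eq_coe, chi_eq, Nat.unpair_pair]
      exact ⟨m2, fun h => h5.1 h h6⟩
  · refine ⟨⟨s, hsI, ?_⟩, ⟨s0, hZ.1 _ hs0Z, ?_⟩⟩
    · simp only [pp_coe, ap_coe, st_coe, eq_coe, chi_eq, Nat.unpair_pair]
      exact ⟨m2, h5.2 h6⟩
    · simp only [pp_coe, ap_coe, st_coe, eq_coe, chi_eq, Nat.unpair_pair]
      exact ⟨m3, h6⟩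

end Pool.Agent.H965Z.Dens
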