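import Pool.Agent.Helper317.CADS.Rca
import Pool.Agent.Helper317.CADS.Book
import Pool.Agent.Helper317.CADS.Clo

/-!
Internal predicates, internal representatives, finitely generated closed sets.
-/

namespace Pool.Agent.H965Z.Dens

open Function Filter Pool.Agent.Helper317.CADS

variable {FF : Set (ℕ → ℕ)} {I M X : Set H}

/-- internal predicate -/
def IP (P : ℕ → ℕ → Prop) (x : H) : Prop := ∃ f : ℕ → ℕ, x = (f : H) ∧ Ev fun n => P n (f n)

theorem ip_coe {P : ℕ → ℕ → Prop} {f : ℕ → ℕ} : IP P (f : H) ↔ Ev fun n => P n (f n) := by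
  constructor
  · rintro ⟨g, hg, h⟩
    rw [eq_coe] at hg
    exact (h.and hg).mp fun n ⟨h1, h2⟩ => by rw [h2]; exact h1
  · exact fun h => ⟨f, rfl, h⟩

theorem sigI_congr {P Q : ℕ → ℕ → Prop} (hP : Sig FF I M X (IP P))
    (h : Ev fun n => ∀ w, P n w ↔ Q n w) : Sig FF I M X (IP Q) := by
  refine hP.congr' fun y => ?_
  obtain ⟨y, rfl⟩ := y.rep
  rw [ip_coe, ip_coe]
  exact ev_iff.1 (h.mp fun n hn => hn _)

theorem sigI_chi (hF : Ops FF) (hG : Good FF I M X) {Φ : ℕ → Prop} (h : chi Φ ∈ FF)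
    {p : ℕ → ℕ} (hp : (p : H) ∈ M) :
    Sig FF I M X (IP fun n w => Φ (Nat.pair (p n) w)) := by
  refine (Sig.int hF hG h hp).congr' fun y => ?_
  obtain ⟨y, rfl⟩ := y.rep
  rw [ip_coe]
  simp only [ap_coe, pp_coe, st_coe, eq_coe, chi_eq]

theorem sigI_and (hF : Ops FF) (hG : Good FF I M X) {P Q : ℕ → ℕ → Prop}
    (hP : Sig FF I M X (IP P)) (hQ : Sig FF I M X (IP Q)) :
    Sig FF I M X (IP fun n w => P n w ∧ Q n w) := by
  refine (Sig.and hF hG hP hQ).congr' fun y => ?_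
  obtain ⟨y, rfl⟩ := y.rep
  simp only [ip_coe, ev_and]

theorem sigI_sub (hF : Ops FF) (hG : Good FF I M X) {P : ℕ → ℕ → Prop}
    (hP : Sig FF I M X (IP P)) {G : ℕ → ℕ} (h : G ∈ FF) {p : ℕ → ℕ} (hp : (p : H) ∈ M) :
    Sig FF I M X (IP fun n w => P n (G (Nat.pair (p n) w))) := by
  refine (Sig.sub hF hG hP h hp).congr' fun y => ?_
  obtain ⟨y, rfl⟩ := y.rep
  simp only [ap_coe, pp_coe, ip_coe]

theorem witnessI (hF : Ops FF) (hG : Good FF I M X) {P : ℕ → ℕ → Prop}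
    (hP : Sig FF I M X (IP P)) {f : ℕ → ℕ} (hf : (f : H) ∈ I) (h : Ev fun n => P n (f n)) :
    ∃ g : ℕ → ℕ, (g : H) ∈ M ∧ Ev fun n => P n (g n) := by
  obtain ⟨y, hy, h1⟩ := hP.witness hF hG ⟨f, hf, ip_coe.2 h⟩
  obtain ⟨y, rfl⟩ := y.rep
  exact ⟨y, hy, ip_coe.1 h1⟩

theorem downI (hG : Good FF I M X) {f g : ℕ → ℕ} (hg : (g : H) ∈ I) (h : Ev fun n => f n ≤ g n) :
    (f : H) ∈ I := hG.down _ hg _ (le_coe.2 h)

theorem pairM (hM : Mdl FF M) {f g : ℕ → ℕ} (hf : (f : H) ∈ M) (hg : (g : H) ∈ M) :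
    ((fun n => Nat.pair (f n) (g n) : ℕ → ℕ) : H) ∈ M := hM.pp _ hf _ hg

theorem pairI (hG : Good FF I M X) {f g : ℕ → ℕ} (hf : (f : H) ∈ I) (hg : (g : H) ∈ I) :
    ((fun n => Nat.pair (f n) (g n) : ℕ → ℕ) : H) ∈ I := I_pp hG hf hg

theorem apM (hM : Mdl FF M) {F : ℕ → ℕ} (hF : F ∈ FF) {f : ℕ → ℕ} (hf : (f : H) ∈ M) :
    ((fun n => F (f n) : ℕ → ℕ) : H) ∈ M := hM.ap F hF _ hf

theorem apI (hF : Ops FF) (hG : Good FF I M X) {F : ℕ → ℕ} (h : F ∈ FF) {f : ℕ → ℕ}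
    (hf : (f : H) ∈ I) : ((fun n => F (f n) : ℕ → ℕ) : H) ∈ I := I_ap0 hF hG h hf

theorem constM (hM : Mdl FF M) (k : ℕ) : ((fun _ => k : ℕ → ℕ) : H) ∈ M := hM.st k

theorem memH_congr {S : Set H} {f g : ℕ → ℕ} (hf : (f : H) ∈ S) (h : Ev fun n => f n = g n) :
    (g : H) ∈ S := by
  rw [← eq_coe.2 h]; exact hf

theorem addM (hF : Ops FF) (hM : Mdl FF M) {f g : ℕ → ℕ} (hf : (f : H) ∈ M) (hg : (g : H) ∈ M) :
    ((fun n => f n + g n : ℕ → ℕ) : H) ∈ M :=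
  memH_congr (apM hM hF.add (pairM hM hf hg)) (ev_of_forall fun n => by simp)

theorem mulM (hF : Ops FF) (hM : Mdl FF M) {f g : ℕ → ℕ} (hf : (f : H) ∈ M) (hg : (g : H) ∈ M) :
    ((fun n => f n * g n : ℕ → ℕ) : H) ∈ M :=
  memH_congr (apM hM hF.mul (pairM hM hf hg)) (ev_of_forall fun n => by simp)

theorem addI (hF : Ops FF) (hG : Good FF I M X) {f g : ℕ → ℕ} (hf : (f : H) ∈ I)
    (hg : (g : H) ∈ I) : ((fun n => f n + g n : ℕ → ℕ) : H) ∈ I :=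
  memH_congr (apI hF hG hF.add (pairI hG hf hg)) (ev_of_forall fun n => by simp)

theorem mulI (hF : Ops FF) (hG : Good FF I M X) {f g : ℕ → ℕ} (hf : (f : H) ∈ I)
    (hg : (g : H) ∈ I) : ((fun n => f n * g n : ℕ → ℕ) : H) ∈ I :=
  memH_congr (apI hF hG hF.mul (pairI hG hf hg)) (ev_of_forall fun n => by simp)

theorem cutM (hF : Ops FF) (hM : Mdl FF M) {b z : ℕ → ℕ} (hb : (b : H) ∈ M) (hz : (z : H) ∈ M) :
    ((fun n => z n % 2 ^ b n : ℕ → ℕ) : H) ∈ M :=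
  memH_congr (apM hM hF.cut (pairM hM hb hz)) (ev_of_forall fun n => by simp)

theorem ev_forall_I (hG : Good FF I M X) {P : ℕ → ℕ → Prop} {b : ℕ → ℕ} (hb : (b : H) ∈ I)
    (h : ∀ f : ℕ → ℕ, (f : H) ∈ I → Ev fun n => P n (f n)) : Ev fun n => ∀ j ≤ b n, P n j := by
  rw [ev_all (P := fun n j => j ≤ b n → P n j)]
  intro f
  rw [ev_imp]
  intro hf
  exact h f (downI hG hb hf)

/-- `ξ` is an internal set whose trace on `I` is that of `A` -/
def Rep (I A : Set H) (ξ : ℕ → ℕ) : Prop :=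
  ∀ f : ℕ → ℕ, (f : H) ∈ I → ((f : H) ∈ A ↔ Ev fun n => (ξ n).testBit (f n) = true)

theorem seg_of_rep (hG : Good FF I M X) {A : Set H} {ξ b : ℕ → ℕ} (h : Rep I A ξ)
    (hb : (b : H) ∈ I) : Seg A (b : H) ((fun n => ξ n % 2 ^ b n : ℕ → ℕ) : H) := by
  intro x
  obtain ⟨x, rfl⟩ := x.rep
  simp only [mem_coe, lt_coe, Nat.testBit_mod_two_pow, Bool.and_eq_true, decide_eq_true_eq, ev_and]
  refine and_congr_right fun hx => ?_
  exact (h x (downI hG hb (hx.mp fun n hn => hn.le))).symm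

/-- agreement of bits below `l` -/
def agr (l s t : ℕ) : Prop := ∀ x < l, s.testBit x = t.testBit x

theorem agr.trans {l l' s t u : ℕ} (h : agr l s t) (h' : agr l' t u) (hl : l ≤ l') : agr l s u :=
  fun x hx => (h x hx).trans (h' x (hx.trans_le hl))

theorem agr.symm {l s t : ℕ} (h : agr l s t) : agr l t s := fun x hx => (h x hx).symm

theorem agr.mono {l l' s t : ℕ} (h : agr l' s t) (hl : l ≤ l') : agr l s t :=
  fun x hx => h x (hx.trans_le hl)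

theorem agr_mod (l s : ℕ) : agr l (s % 2 ^ l) s := fun x hx => by
  simp [Nat.testBit_mod_two_pow, hx]

theorem exists_glue (b z : ℕ → ℕ → ℕ)
    (h : ∀ r, Ev fun n => b r n ≤ b (r + 1) n ∧ agr (b r n) (z r n) (z (r + 1) n)) :
    ∃ γ : ℕ → ℕ, ∀ r, Ev fun n => agr (b r n) (z r n) (γ n) := by
  have h1 : ∀ m, Ev fun n => ∀ r ≤ m, b r n ≤ b m n ∧ agr (b r n) (z r n) (z m n) := by
    intro m
    induction m with
    | zero =>
      refine ev_of_forall fun n r hr => ?_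
      obtain rfl : r = 0 := by omega
      exact ⟨le_rfl, fun _ _ => rfl⟩
    | succ m ih =>
      refine (ih.and (h m)).mp fun n ⟨h2, h3, h4⟩ r hr => ?_
      rcases Nat.lt_or_ge r (m + 1) with h5 | h5
      · obtain ⟨h6, h7⟩ := h2 r (by omega)
        exact ⟨h6.trans h3, h7.trans h4 h6⟩
      · obtain rfl : r = m + 1 := by omega
        exact ⟨le_rfl, fun _ _ => rfl⟩
  obtain ⟨γ, hγ⟩ := saturation (fun m n y => ∀ r ≤ m, agr (b r n) (z r n) y)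
    (fun m n y h r hr => h r (by omega))
    (fun m => (h1 m).mp fun n hn => ⟨z m n, fun r hr => (hn r hr).2⟩)
  exact ⟨γ, fun r => (hγ r).mp fun n hn => hn r le_rfl⟩

/-- a monotone cofinal sequence in `M` -/
structure Cof (I M : Set H) (a : ℕ → ℕ → ℕ) : Prop where
  mem : ∀ t, (a t : H) ∈ M
  mono : ∀ t, Ev fun n => a t n ≤ a (t + 1) n
  cof : ∀ f : ℕ → ℕ, (f : H) ∈ I → ∃ t, Ev fun n => f n < a t n

theorem Cof.le {a : ℕ → ℕ → ℕ} (h : Cof I M a) {t t' : ℕ} (ht : t ≤ t') :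
    Ev fun n => a t n ≤ a t' n := by
  induction t', ht using Nat.le_induction with
  | base => exact ev_of_forall fun n => le_rfl
  | succ l _ ih => exact (ih.and (h.mono l)).mp fun n hn => hn.1.trans hn.2

theorem Cof.cof' {a : ℕ → ℕ → ℕ} (h : Cof I M a) {f : ℕ → ℕ} (hf : (f : H) ∈ I) :
    ∃ t0, ∀ t, t0 ≤ t → Ev fun n => f n < a t n := by
  obtain ⟨t0, h0⟩ := h.cof f hf
  exact ⟨t0, fun t ht => (h0.and (h.le ht)).mp fun n hn => hn.1.trans_le hn.2⟩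

theorem Cof.weak {a : ℕ → ℕ → ℕ} (h : Cof I M a) {M' : Set H} (hM : M ⊆ M') : Cof I M' a :=
  ⟨fun t => hM (h.mem t), h.mono, h.cof⟩

theorem exists_rep (hG : Good FF I M X) {a : ℕ → ℕ → ℕ} (ha : Cof I M a) {A : Set H}
    (hA : ∀ b ∈ M, ∃ z, Seg A b z) : ∃ ξ, Rep I A ξ := by
  have h1 : ∀ t, ∃ z : ℕ → ℕ, Seg A (a t : H) (z : H) := by
    intro t
    obtain ⟨z, hz⟩ := hA _ (ha.mem t)
    obtain ⟨z, rfl⟩ := z.rep
    exact ⟨z, hz⟩
  choose z hz using h1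
  have hz' : ∀ t (f : ℕ → ℕ), (Ev fun n => f n < a t n) →
      ((f : H) ∈ A ↔ Ev fun n => (z t n).testBit (f n) = true) := by
    intro t f hf
    have := hz t f
    rw [mem_coe, lt_coe] at this
    rw [this]
    exact ⟨fun h => ⟨hf, h⟩, fun h => h.2⟩
  obtain ⟨γ, hγ⟩ := exists_glue a z fun r => by
    refine (ha.mono r).and ?_
    unfold agr
    rw [ev_all (P := fun n x => x < a r n → (z r n).testBit x = (z (r + 1) n).testBit x)]
    intro f
    rw [ev_imp]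
    intro hf
    have h2 := hz' r f hf
    have h3 := hz' (r + 1) f ((hf.and (ha.mono r)).mp fun n hn => hn.1.trans_le hn.2)
    refine (ev_iff.2 (h2.symm.trans h3)).mp fun n hn => ?_
    revert hn
    cases (z r n).testBit (f n) <;> cases (z (r + 1) n).testBit (f n) <;> simp
  refine ⟨γ, fun f hf => ?_⟩
  obtain ⟨t, ht⟩ := ha.cof f hf
  rw [hz' t f ht]
  exact ev_iff.1 ((ht.and (hγ t)).mp fun n hn => by rw [hn.2 _ hn.1])

/-- closure conditions for the tools -/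
structure OpsT (FF : Set (ℕ → ℕ)) : Prop where
  bit : ∀ b : Bool, chi (fun w : ℕ => w.unpair.2.testBit w.unpair.1 = b) ∈ FF
  small : chi (fun w : ℕ => w.unpair.2 < 2 ^ w.unpair.1) ∈ FF
  swap : (fun w : ℕ => Nat.pair w.unpair.2 w.unpair.1) ∈ FF

theorem seg_lt {A : Set H} {b z : ℕ → ℕ} (h : Seg A (b : H) (z : H)) :
    Ev fun n => z n < 2 ^ b n := by
  have h1 : Ev fun n => ∀ x, (z n).testBit x = true → x < b n := by
    rw [ev_all (P := fun n x => (z n).testBit x = true → x < b n)]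
    intro f
    rw [ev_imp]
    intro hf
    exact lt_coe.1 ((h f).1 (mem_coe.2 hf)).1
  refine h1.mp fun n hn => Nat.lt_pow_two_of_testBit _ fun i hi => ?_
  by_contra hc
  have := hn i (by simpa using hc)
  omega

theorem sig_seg (hF : Ops FF) (hT : OpsT FF) (hG : Good FF I M X) {A : Set H}
    (hA : Del FF I M X A) :
    Sig FF I M X fun w => Seg A (ap (fun x => x.unpair.1) w) (ap (fun x => x.unpair.2) w) := by
  have h1 := Sig.and hF hG (Sig.int0 hF hG (hT.bit true)) (Sig.sub0 hF hG hA.2.1 hF.fst)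
  have h2 := Sig.and hF hG (Sig.int0 hF hG (hT.bit false)) (Sig.sub0 hF hG hA.2.2 hF.fst)
  have h3 := Sig.and hF hG (Sig.ball hF hG (Sig.or hF hG h1 h2)) (Sig.int0 hF hG hT.small)
  refine h3.congr' fun w => ?_
  obtain ⟨w, rfl⟩ := w.rep
  simp only [H.all, ap_coe, pp_coe, st_coe, eq_coe, lt_coe, chi_eq, Nat.unpair_pair]
  constructor
  · rintro ⟨h4, h5⟩ x
    obtain ⟨x, rfl⟩ := x.rep
    rw [mem_coe, lt_coe]
    constructor
    · intro h6
      have h7 : Ev fun n => x n < (w n).unpair.1 := (h5.and h6).mp fun n ⟨h8, h9⟩ => by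
        by_contra hc
        have h10 : (w n).unpair.2 < 2 ^ x n :=
          h8.trans_le (Nat.pow_le_pow_right (by norm_num) (by omega))
        rw [Nat.testBit_eq_false_of_lt h10] at h9
        exact absurd h9 (by simp)
      refine ⟨h7, ?_⟩
      rcases h4 x h7 with h8 | h8
      · exact h8.2
      · exact absurd ((h8.1.and h6).mp (q := fun _ => False) fun n hn => by
          rw [hn.1] at hn; exact absurd hn.2 (by simp)) (by rw [ev_const]; exact id)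
    · rintro ⟨h6, h7⟩
      rcases h4 x h6 with h8 | h8
      · exact h8.1
      · exact absurd h7 h8.2
  · intro h4
    refine ⟨fun x hx => ?_, seg_lt h4⟩
    have h5 := h4 x
    rw [mem_coe, lt_coe] at h5
    by_cases h6 : (x : H) ∈ A
    · exact Or.inl ⟨h5.2 ⟨hx, h6⟩, h6⟩
    · refine Or.inr ⟨?_, h6⟩
      have h7 : ¬ Ev fun n => (w n).unpair.2.testBit (x n) = true := fun h => h6 (h5.1 h).2
      exact (ev_not.2 h7).mp fun n hn => by simpa using hn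

theorem del_segM (hF : Ops FF) (hG : Good FF I M X) {A : Set H} (hA : Del FF I M X A) {α b : ℕ → ℕ}
    (hα : Rep I A α) (hb : (b : H) ∈ M) : ((fun n => α n % 2 ^ b n : ℕ → ℕ) : H) ∈ M := by
  obtain ⟨z, hz, h1⟩ := Sig.coded hF hG hA.2.1 hb
  have h2 : Seg A (b : H) z := h1
  rw [← seg_unique h2 (seg_of_rep hG hα (hG.sub _ hb))]
  exact hz

theorem del_segI (hF : Ops FF) (hG : Good FF I M X) {A : Set H} (hA : Del FF I M X A) {α b : ℕ → ℕ}
    (hα : Rep I A α) (hb : (b : H) ∈ I) : ((fun n => α n % 2 ^ b n : ℕ → ℕ) : H) ∈ I := by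
  obtain ⟨c, hc, hbc⟩ := hG.cof _ hb
  obtain ⟨c, rfl⟩ := c.rep
  refine downI hG (hG.sub _ (del_segM hF hG hA hα hc)) ((le_coe.1 hbc).mp fun n hn => ?_)
  have h1 : α n % 2 ^ b n = α n % 2 ^ c n % 2 ^ b n :=
    (Nat.mod_mod_of_dvd _ (Nat.pow_dvd_pow 2 hn)).symm
  rw [h1]
  exact Nat.mod_le _ _

theorem del_rep (hF : Ops FF) (hG : Good FF I M X) {a : ℕ → ℕ → ℕ} (ha : Cof I M a) {A : Set H}
    (hA : Del FF I M X A) : ∃ α, Rep I A α :=
  exists_rep hG ha fun b hb => by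
    obtain ⟨z, _, h1⟩ := Sig.coded hF hG hA.2.1 hb
    exact ⟨z, h1⟩

theorem del_X (hF : Ops FF) (hG : Good FF I M X) : Del FF I M X X :=
  ⟨hG.xsub, Sig.memX hF hG, Sig.nmemX hF hG⟩

/-- use of a segment of a decidable set as an additional argument -/
theorem sig_bind (hF : Ops FF) (hT : OpsT FF) (hG : Good FF I M X) {A : Set H}
    (hA : Del FF I M X A) {α : ℕ → ℕ} (hα : Rep I A α) {L : ℕ → ℕ} (hL : L ∈ FF)
    {p : ℕ → ℕ} (hp : (p : H) ∈ M)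
    {q : ℕ → ℕ → Prop} (hq : Sig FF I M X (IP q)) :
    Sig FF I M X (IP fun n w => q n (Nat.pair (α n % 2 ^ L (Nat.pair (p n) w)) w)) := by
  have g1 : (fun v : ℕ => Nat.pair (L (Nat.pair v.unpair.1 v.unpair.2.unpair.2))
      v.unpair.2.unpair.1) ∈ FF :=
    hF.pair _ (hF.comp _ hL _ (hF.pair _ hF.fst _ (hF.comp _ hF.snd _ hF.snd))) _
      (hF.comp _ hF.fst _ hF.snd)
  have h1 := Sig.ex hF hG (Sig.and hF hG (Sig.sub hF hG (sig_seg hF hT hG hA) g1 hp) hq)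
  refine h1.congr fun w hw => ?_
  obtain ⟨w, rfl⟩ := w.rep
  have hLI : ((fun n => L (Nat.pair (p n) (w n)) : ℕ → ℕ) : H) ∈ I :=
    apI hF hG hL (pairI hG (hG.sub _ hp) hw)
  have hs := seg_of_rep hG hα hLI
  rw [ip_coe]
  constructor
  · rintro ⟨u, _, h2, h3⟩
    obtain ⟨u, rfl⟩ := u.rep
    simp only [ap_coe, pp_coe, Nat.unpair_pair, ip_coe] at h2 h3
    have h4 := eq_coe.1 (seg_unique h2 hs)
    exact (h3.and h4).mp fun n hn => by rw [← hn.2]; exact hn.1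
  · intro h2
    refine ⟨_, del_segI hF hG hA hα hLI, ?_, ?_⟩
    · simp only [ap_coe, pp_coe, Nat.unpair_pair]
      exact hs
    · simp only [pp_coe, ip_coe]
      exact h2

theorem sigI_ex (hF : Ops FF) (hG : Good FF I M X) {P : ℕ → ℕ → Prop}
    (hP : Sig FF I M X (IP P)) :
    Sig FF I M X fun y => ∃ u ∈ I, IP P (pp u y) := Sig.ex hF hG hP

/-- closure of one element -/
def gen (FF : Set (ℕ → ℕ)) (q : H) : Set H := {x | ∃ F ∈ FF, x = ap F q}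

theorem ap_ap (F G : ℕ → ℕ) (x : H) : ap F (ap G x) = ap (fun y => F (G y)) x := by
  obtain ⟨x, rfl⟩ := x.rep
  simp only [ap_coe]

theorem gen_mdl (hF : Ops FF) (q : H) : Mdl FF (gen FF q) := by
  refine ⟨fun k => ⟨_, hF.const k, ?_⟩, ?_, ?_⟩
  · obtain ⟨q, rfl⟩ := q.rep
    rfl
  · rintro F h1 x ⟨G, h2, rfl⟩
    exact ⟨_, hF.comp F h1 G h2, ap_ap F G q⟩
  · rintro x ⟨F, h1, rfl⟩ y ⟨G, h2, rfl⟩
    refine ⟨_, hF.pair F h1 G h2, ?_⟩
    obtain ⟨q, rfl⟩ := q.rep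
    rfl

theorem self_mem_gen (hF : Ops FF) (q : H) : q ∈ gen FF q := by
  refine ⟨_, hF.id, ?_⟩
  obtain ⟨q, rfl⟩ := q.rep
  rfl

theorem gen_sub (hM : Mdl FF M) {q : H} (hq : q ∈ M) : gen FF q ⊆ M := by
  rintro x ⟨F, h1, rfl⟩
  exact hM.ap F h1 q hq

theorem left_mem_gen (hF : Ops FF) (q x : H) : q ∈ gen FF (pp q x) := by
  refine ⟨_, hF.fst, ?_⟩
  obtain ⟨q, rfl⟩ := q.rep
  obtain ⟨x, rfl⟩ := x.rep
  simp only [ap_coe, pp_coe, Nat.unpair_pair]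

theorem right_mem_gen (hF : Ops FF) (q x : H) : x ∈ gen FF (pp q x) := by
  refine ⟨_, hF.snd, ?_⟩
  obtain ⟨q, rfl⟩ := q.rep
  obtain ⟨x, rfl⟩ := x.rep
  simp only [ap_coe, pp_coe, Nat.unpair_pair]

theorem gen_subI (hF : Ops FF) (hG : Good FF I M X) {q : H} (hq : q ∈ I) :
    ∀ x ∈ gen FF q, x ∈ I := by
  rintro x ⟨F, h1, rfl⟩
  exact I_ap0 hF hG h1 hq

theorem gen_countable (hc : FF.Countable) (q : H) : (gen FF q).Countable := by
  have : gen FF q = (fun F => ap F q) '' FF := by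
    ext x
    exact ⟨fun ⟨F, h1, h2⟩ => ⟨F, h1, h2.symm⟩, fun ⟨F, h1, h2⟩ => ⟨F, h1, h2.symm⟩⟩
  rw [this]
  exact hc.image _

theorem good_ext (hF : Ops FF) (hG : Good FF I M X) {M' : Set H} (hM' : Mdl FF M')
    (hsub : M ⊆ M') (hI : ∀ x ∈ M', x ∈ I) : Good FF I M' X where
  mdl := hM'
  sub := hI
  cof := fun x hx => by obtain ⟨b, hb, h⟩ := hG.cof x hx; exact ⟨b, hsub hb, h⟩
  down := hG.down
  xsub := hG.xsub
  cod := by
    intro b hb
    obtain ⟨c, hc, hbc⟩ := hG.cof b (hI b hb)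
    obtain ⟨z, hz, hs⟩ := hG.cod c hc
    exact ⟨_, hM'.ap _ hF.cut _ (hM'.pp _ hb _ (hsub hz)), seg_cut hs hbc⟩
  sc := hG.sc

theorem sig_weak {M' : Set H} (h : M ⊆ M') {P : H → Prop} (hP : Sig FF I M X P) :
    Sig FF I M' X P := by
  obtain ⟨F, hF, p, hp, h1⟩ := hP
  exact ⟨F, hF, p, h hp, h1⟩

theorem del_of_sig {M' X' : Set H} (h : ∀ P : H → Prop, Sig FF I M X P → Sig FF I M' X' P)
    {A : Set H} (hA : Del FF I M X A) : Del FF I M' X' A :=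
  ⟨hA.1, h _ hA.2.1, h _ hA.2.2⟩

theorem dep_seq {α : Type*} (Inv : α → Prop) (R : ℕ → α → α → Prop) (a0 : α) (h0 : Inv a0)
    (hs : ∀ r a, Inv a → ∃ b, Inv b ∧ R r a b) :
    ∃ f : ℕ → α, ∀ r, Inv (f r) ∧ R r (f r) (f (r + 1)) := by
  choose nx h1 h2 using hs
  let g : ℕ → {a // Inv a} := fun r => Nat.rec ⟨a0, h0⟩ (fun r a => ⟨nx r a.1 a.2, h1 r a.1 a.2⟩) r
  exact ⟨fun r => (g r).1, fun r => ⟨(g r).2, h2 r (g r).1 (g r).2⟩⟩

end Pool.Agent.H965Z.Dens
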